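import Pool.Agent.K9h61.PL.Stm

/-!
# Hirzebruch's inequality for pseudoline arrangements: LEAF B

The bridge from wiring diagrams to the cyclic form: `t_B : S_C → S_M`.
-/

open scoped Classical

namespace K9h61.PL

namespace LeafB

open Finset

section order

variable {V : Type} [LinearOrder V] (B : ℕ → Finset V)

theorem below_irrefl (i : ℕ) (x : V) : ¬ below B i x x := by
  rintro (⟨h, -⟩ | ⟨h, -⟩) <;> exact lt_irrefl _ h

theorem below_total (i : ℕ) {x y : V} (h : x ≠ y) : below B i x y ∨ below B i y x := by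
  by_cases hm : ∃ j < i, x ∈ B j ∧ y ∈ B j
  · have hm' : ∃ j < i, y ∈ B j ∧ x ∈ B j := by
      obtain ⟨j, h1, h2, h3⟩ := hm
      exact ⟨j, h1, h3, h2⟩
    rcases lt_or_gt_of_ne h with h1 | h1
    · exact Or.inr (Or.inr ⟨h1, hm'⟩)
    · exact Or.inl (Or.inr ⟨h1, hm⟩)
  · have hn : ∀ j < i, ¬ (x ∈ B j ∧ y ∈ B j) := fun j hj h2 => hm ⟨j, hj, h2⟩
    have hn' : ∀ j < i, ¬ (y ∈ B j ∧ x ∈ B j) := fun j hj h2 => hm ⟨j, hj, h2.2, h2.1⟩
    rcases lt_or_gt_of_ne h with h1 | h1
    · exact Or.inl (Or.inl ⟨h1, hn⟩)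
    · exact Or.inr (Or.inl ⟨h1, hn'⟩)

theorem below_zero (x y : V) : below B 0 x y ↔ x < y := by
  unfold below
  simp

theorem below_out (i : ℕ) {x y : V} (h : ¬ (x ∈ B i ∧ y ∈ B i)) :
    below B (i + 1) x y ↔ below B i x y := by
  unfold below
  have h1 : (∀ j < i + 1, ¬ (x ∈ B j ∧ y ∈ B j)) ↔ ∀ j < i, ¬ (x ∈ B j ∧ y ∈ B j) := by
    constructor
    · exact fun h2 j hj => h2 j (by omega)
    · intro h2 j hj
      rcases Nat.lt_succ_iff_lt_or_eq.1 hj with h3 | h3
      · exact h2 j h3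
      · rw [h3]
        exact h
  have h2 : (∃ j < i + 1, x ∈ B j ∧ y ∈ B j) ↔ ∃ j < i, x ∈ B j ∧ y ∈ B j := by
    constructor
    · rintro ⟨j, hj, h3⟩
      rcases Nat.lt_succ_iff_lt_or_eq.1 hj with h4 | h4
      · exact ⟨j, h4, h3⟩
      · rw [h4] at h3
        exact absurd h3 h
    · rintro ⟨j, hj, h3⟩
      exact ⟨j, by omega, h3⟩
  rw [h1, h2]

theorem below_in (i : ℕ) {x y : V} (hx : x ∈ B i) (hy : y ∈ B i)
    (hn : x ≠ y → ∀ j < i, ¬ (x ∈ B j ∧ y ∈ B j)) :
    below B (i + 1) x y ↔ below B i y x := by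
  by_cases hxy : x = y
  · subst hxy
    exact ⟨fun h => absurd h (below_irrefl B _ _), fun h => absurd h (below_irrefl B _ _)⟩
  · have hn' := hn hxy
    constructor
    · rintro (⟨-, h2⟩ | ⟨h1, -⟩)
      · exact absurd ⟨hx, hy⟩ (h2 i (by omega))
      · exact Or.inl ⟨h1, fun j hj h2 => hn' j hj ⟨h2.2, h2.1⟩⟩
    · rintro (⟨h1, -⟩ | ⟨-, j, hj, h2, h3⟩)
      · exact Or.inr ⟨h1, i, by omega, hx, hy⟩
      · exact absurd ⟨h3, h2⟩ (hn' j hj)

end order

section arr

variable {V : Type} [Fintype V] [LinearOrder V] (A : Arr V)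

theorem not_before {i : ℕ} (hi : i < A.N) {x y : V} (hx : x ∈ A.B i) (hy : y ∈ A.B i)
    (hxy : x ≠ y) : ∀ j < i, ¬ (x ∈ A.B j ∧ y ∈ A.B j) := by
  rintro j hj ⟨h1, h2⟩
  have := A.uniq x y hxy j (by omega) i hi h1 h2 hx hy
  omega

theorem step_in {i : ℕ} (hi : i < A.N) {x y : V} (hx : x ∈ A.B i) (hy : y ∈ A.B i) :
    below A.B (i + 1) x y ↔ below A.B i y x :=
  below_in A.B i hx hy fun hxy => not_before A hi hx hy hxy

theorem below_trans : ∀ i ≤ A.N, ∀ x y z : V, below A.B i x y → below A.B i y z →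
    below A.B i x z := by
  intro i
  induction i with
  | zero =>
    intro _ x y z h1 h2
    rw [below_zero] at h1 h2 ⊢
    exact h1.trans h2
  | succ i ih =>
    intro hi x y z h1 h2
    have hi' : i < A.N := by omega
    have ih' := ih (by omega)
    by_cases hx : x ∈ A.B i
    · by_cases hy : y ∈ A.B i
      · rw [step_in A hi' hx hy] at h1
        by_cases hz : z ∈ A.B i
        · rw [step_in A hi' hy hz] at h2
          rw [step_in A hi' hx hz]
          exact ih' z y x h2 h1
        · rw [below_out A.B i (fun h => hz h.2)] at h2 ⊢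
          rcases below_total A.B i (x := x) (y := z) (fun h => hz (h ▸ hx)) with h3 | h3
          · exact h3
          · exact absurd (A.convex i hi' y x z hy hx h2 h3) hz
      · rw [below_out A.B i (fun h => hy h.2)] at h1
        rw [below_out A.B i (fun h => hy h.1)] at h2
        by_cases hz : z ∈ A.B i
        · exact absurd (A.convex i hi' x z y hx hz h1 h2) hy
        · rw [below_out A.B i (fun h => hz h.2)]
          exact ih' x y z h1 h2
    · rw [below_out A.B i (fun h => hx h.1)] at h1 ⊢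
      by_cases hy : y ∈ A.B i
      · by_cases hz : z ∈ A.B i
        · rw [step_in A hi' hy hz] at h2
          rcases below_total A.B i (x := x) (y := z) (fun h => hx (h ▸ hz)) with h3 | h3
          · exact h3
          · exact absurd (A.convex i hi' z y x hz hy h3 h1) hx
        · rw [below_out A.B i (fun h => hz h.2)] at h2
          exact ih' x y z h1 h2
      · rw [below_out A.B i (fun h => hy h.1)] at h2
        exact ih' x y z h1 h2

theorem below_N (x y : V) : below A.B A.N x y ↔ below A.B 0 y x := by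
  rw [below_zero]
  constructor
  · rintro (⟨h1, h2⟩ | ⟨h1, -⟩)
    · obtain ⟨i, hi, h3⟩ := A.cross x y h1.ne
      exact absurd h3 (h2 i hi)
    · exact h1
  · intro h
    obtain ⟨i, hi, h3⟩ := A.cross x y h.ne'
    exact Or.inr ⟨h, i, hi, h3⟩

/-- the order at time `t` (any natural number) -/
def ltn (t : ℕ) (x y : V) : Prop :=
  if t / A.N % 2 = 0 then below A.B (t % A.N) x y else below A.B (t % A.N) y x

variable {A} in
theorem ltn_mod (t : ℕ) (x y : V) : ltn A (t % (2 * A.N)) x y ↔ ltn A t x y := by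
  unfold ltn
  have h1 : t % (2 * A.N) % A.N = t % A.N := Nat.mod_mul_left_mod t 2 A.N
  have h2 : t % (2 * A.N) / A.N % 2 = t / A.N % 2 := by
    rw [Nat.mul_comm 2 A.N, Nat.mod_mul_right_div_self, Nat.mod_mod]
  rw [h1, h2]

variable {A} in
theorem ltn_anti (hN : 0 < A.N) (t : ℕ) (x y : V) : ltn A (t + A.N) x y ↔ ltn A t y x := by
  unfold ltn
  rw [Nat.add_mod_right, Nat.add_div_right _ hN]
  rcases Nat.mod_two_eq_zero_or_one (t / A.N) with h | h
  · have h2 : (t / A.N).succ % 2 = 1 := by omega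
    rw [h2, h]
    simp
  · have h2 : (t / A.N).succ % 2 = 0 := by omega
    rw [h2, h]
    simp

variable {A} in
theorem ltn_succ (hN : 0 < A.N) (t : ℕ) (x y : V) : ltn A (t + 1) x y ↔
    if t / A.N % 2 = 0 then below A.B (t % A.N + 1) x y else below A.B (t % A.N + 1) y x := by
  have hlt : t % A.N < A.N := Nat.mod_lt _ hN
  have hd := Nat.div_add_mod t A.N
  rcases Nat.lt_or_ge (t % A.N + 1) A.N with h | h
  · have h1 : (t + 1) % A.N = t % A.N + 1 := by
      have : t + 1 = (t % A.N + 1) + A.N * (t / A.N) := by omega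
      rw [this, Nat.add_mul_mod_self_left, Nat.mod_eq_of_lt h]
    have h2 : (t + 1) / A.N = t / A.N := by
      have : t + 1 = (t % A.N + 1) + A.N * (t / A.N) := by omega
      rw [this, Nat.add_mul_div_left _ _ hN, Nat.div_eq_of_lt h, zero_add]
    unfold ltn
    rw [h1, h2]
  · have h0 : t % A.N + 1 = A.N := by omega
    have h3 : t + 1 = 0 + A.N * (t / A.N + 1) := by
      rw [Nat.mul_add]
      omega
    have h1 : (t + 1) % A.N = 0 := by
      rw [h3, Nat.add_mul_mod_self_left, Nat.zero_mod]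
    have h2 : (t + 1) / A.N = t / A.N + 1 := by
      rw [h3, Nat.add_mul_div_left _ _ hN, Nat.zero_div, zero_add]
    unfold ltn
    rw [h1, h2, h0, below_N, below_N]
    rcases Nat.mod_two_eq_zero_or_one (t / A.N) with h4 | h4
    · have h5 : (t / A.N + 1) % 2 = 1 := by omega
      rw [h4, h5]
      simp
    · have h5 : (t / A.N + 1) % 2 = 0 := by omega
      rw [h4, h5]
      simp

theorem sum_zmod (n : ℕ) [NeZero n] (g : ℕ → ℕ) : ∑ T : ZMod n, g T.val = ∑ i ∈ range n, g i := by
  cases n with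
  | zero => exact absurd rfl (NeZero.ne 0)
  | succ n => exact (Finset.sum_range g).symm

theorem sum_two (N : ℕ) [NeZero (2 * N)] (g : ℕ → ℕ) :
    ∑ T : ZMod (2 * N), g (T.val % N) = 2 * ∑ i ∈ range N, g i := by
  rw [sum_zmod (2 * N) fun t => g (t % N), two_mul, Finset.sum_range_add, two_mul]
  congr 1
  · exact sum_congr rfl fun i hi => by rw [Nat.mod_eq_of_lt (mem_range.1 hi)]
  · exact sum_congr rfl fun i hi => by
      rw [Nat.add_mod_left, Nat.mod_eq_of_lt (mem_range.1 hi)]

theorem mod_cases {N a b : ℕ} (ha : a < 2 * N) (hb : b < 2 * N) (h : a % N = b % N) :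
    b = a ∨ b = a + N ∨ a = b + N := by
  have key : ∀ a < 2 * N, (a < N ∧ a % N = a) ∨ (N ≤ a ∧ a % N = a - N) := by
    intro a ha
    rcases Nat.lt_or_ge a N with h | h
    · exact Or.inl ⟨h, Nat.mod_eq_of_lt h⟩
    · refine Or.inr ⟨h, ?_⟩
      rw [Nat.mod_eq_sub_mod h, Nat.mod_eq_of_lt (by omega)]
  rcases key a ha with ⟨h1, h2⟩ | ⟨h1, h2⟩ <;> rcases key b hb with ⟨h3, h4⟩ | ⟨h3, h4⟩ <;>
    rw [h2, h4] at h <;> omega

/-- the cyclic form of a wiring diagram -/
noncomputable def toCyc (hN : 0 < A.N) [NeZero (2 * A.N)] : Cyc V A.N where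
  B := fun T => A.B (T.val % A.N)
  lt := fun T => ltn A T.val
  irrefl := fun T x h => by
    unfold ltn at h
    split_ifs at h <;> exact below_irrefl _ _ _ h
  trans := fun T x y z h1 h2 => by
    have hlt : T.val % A.N ≤ A.N := (Nat.mod_lt _ hN).le
    unfold ltn at h1 h2 ⊢
    split_ifs at h1 h2 ⊢
    · exact below_trans A _ hlt x y z h1 h2
    · exact below_trans A _ hlt z y x h2 h1
  total := fun T x y hxy => by
    unfold ltn
    split_ifs
    · exact below_total _ _ hxy
    · exact (below_total _ _ hxy).symm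
  antiB := fun T => by
    have h : (T + ((A.N : ℕ) : ZMod (2 * A.N))).val = (T.val + A.N) % (2 * A.N) := by
      conv_lhs => rw [← ZMod.natCast_zmod_val T, ← Nat.cast_add, ZMod.val_natCast]
    rw [h, Nat.mod_mul_left_mod, Nat.add_mod_right]
  antilt := fun T x y => by
    have h : (T + ((A.N : ℕ) : ZMod (2 * A.N))).val = (T.val + A.N) % (2 * A.N) := by
      conv_lhs => rw [← ZMod.natCast_zmod_val T, ← Nat.cast_add, ZMod.val_natCast]
    rw [h, ltn_mod, ltn_anti hN]
  step_in := fun T x y hx hy => by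
    have h : (T + 1).val = (T.val + 1) % (2 * A.N) := by
      conv_lhs => rw [← ZMod.natCast_zmod_val T, ← Nat.cast_one, ← Nat.cast_add, ZMod.val_natCast]
    rw [h, ltn_mod, ltn_succ hN]
    unfold ltn
    have hlt : T.val % A.N < A.N := Nat.mod_lt _ hN
    split_ifs
    · exact step_in A hlt hx hy
    · exact step_in A hlt hy hx
  step_out := fun T x y hxy => by
    have h : (T + 1).val = (T.val + 1) % (2 * A.N) := by
      conv_lhs => rw [← ZMod.natCast_zmod_val T, ← Nat.cast_one, ← Nat.cast_add, ZMod.val_natCast]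
    rw [h, ltn_mod, ltn_succ hN]
    unfold ltn
    split_ifs
    · exact below_out A.B _ hxy
    · exact below_out A.B _ fun h => hxy ⟨h.2, h.1⟩
  convex := fun T x y z hx hy h1 h2 => by
    have hlt : T.val % A.N < A.N := Nat.mod_lt _ hN
    unfold ltn at h1 h2
    split_ifs at h1 h2
    · exact A.convex _ hlt x y z hx hy h1 h2
    · exact A.convex _ hlt y x z hy hx h2 h1
  cross := fun x y hxy => by
    obtain ⟨i, hi, h1, h2⟩ := A.cross x y hxy
    have h : ((i : ZMod (2 * A.N))).val % A.N = i := by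
      rw [ZMod.val_natCast, Nat.mod_mul_left_mod, Nat.mod_eq_of_lt hi]
    exact ⟨(i : ZMod (2 * A.N)), by rw [h]; exact h1, by rw [h]; exact h2⟩
  uniq := fun x y hxy c d h1 h2 h3 h4 => by
    have hc := Nat.mod_lt c.val hN
    have hd := Nat.mod_lt d.val hN
    have h := A.uniq x y hxy _ hc _ hd h1 h2 h3 h4
    have hc2 : c.val < 2 * A.N := ZMod.val_lt c
    have hd2 : d.val < 2 * A.N := ZMod.val_lt d
    have h0 : ((A.N : ℕ) : ZMod (2 * A.N)) + ((A.N : ℕ) : ZMod (2 * A.N)) = 0 := by
      rw [← Nat.cast_add, ← two_mul]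
      exact ZMod.natCast_self _
    have hcases := mod_cases hc2 hd2 h
    rcases hcases with e | e | e
    · left
      rw [← ZMod.natCast_zmod_val d, e, ZMod.natCast_zmod_val]
    · right
      rw [← ZMod.natCast_zmod_val d, e, Nat.cast_add, ZMod.natCast_zmod_val]
    · right
      have e2 : c = d + ((A.N : ℕ) : ZMod (2 * A.N)) := by
        conv_lhs => rw [← ZMod.natCast_zmod_val c, e, Nat.cast_add, ZMod.natCast_zmod_val]
      rw [e2, add_assoc, h0, add_zero]

end arr

end LeafB

open Finset LeafB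

/-- LEAF B (bridge) -/
theorem t_B : S_B := by
  intro hC V _ _ A hV
  obtain ⟨x, y, hxy⟩ := Fintype.exists_pair_of_one_lt_card (α := V) (by omega)
  obtain ⟨i, hi, -⟩ := A.cross x y hxy
  have hN : 0 < A.N := by omega
  have : NeZero (2 * A.N) := ⟨by omega⟩
  have h := hC V A.N (toCyc A hN) hV
  have f0 : (univ.filter fun T => 2 ≤ ((toCyc A hN).B T).card).card = 2 * A.f0 := by
    unfold Arr.f0 Arr.pts
    rw [card_filter, card_filter, ← sum_two]
    rfl
  have f1 : ∑ T ∈ univ.filter (fun T => 2 ≤ ((toCyc A hN).B T).card), ((toCyc A hN).B T).card =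
      2 * A.f1 := by
    unfold Arr.f1 Arr.pts
    rw [sum_filter, sum_filter, ← sum_two]
    rfl
  have t2 : (univ.filter fun T => ((toCyc A hN).B T).card = 2).card = 2 * A.t2 := by
    have e : A.t2 = ((range A.N).filter fun i => (A.B i).card = 2).card := by
      unfold Arr.t2 Arr.pts
      rw [filter_filter]
      congr 1
      refine filter_congr fun i _ => ?_
      omega
    rw [e, card_filter, card_filter, ← sum_two]
    rfl
  rw [f0, f1, t2] at h
  refine ⟨fun hB => ?_, fun hB => ?_⟩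
  · have := h.1 fun T => hB _ (Nat.mod_lt _ hN)
    omega
  · have := h.2 fun T => hB _ (Nat.mod_lt _ hN)
    omega

end K9h61.PL
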