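import Pool.Agent.K9h61.PL.Fin
import Pool.Agent.K9h61.PL.B

/-! Everything. -/

namespace K9h61.PL

theorem S_M_true : S_M := (all_of_B t_B).1

theorem S_H_true : S_H := (all_of_B t_B).2

end K9h61.PL
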