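import Pool.Agent.K9h61.PL.Stm

/-! Exponent `n = 2`: interfaces. -/

open scoped Classical

namespace K9h61.PL

/-- third inequality (Shnurnikov type), for arrangements with all multiplicities `≤ k - 3` -/
def S_M2 : Prop := ∀ (V : Type) [Fintype V] [LinearOrder V] (A : Arr V), 2 ≤ Fintype.card V →
  (∀ i < A.N, (A.B i).card + 3 ≤ Fintype.card V) → 5 * A.t2 + 4 * A.f1 + 15 ≤ 15 * A.f0

/-- cyclic form -/
def S_C2 : Prop := ∀ (V : Type) [Fintype V] (N : ℕ) [NeZero (2 * N)] (A : Cyc V N),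
  2 ≤ Fintype.card V →
  (∀ T, (A.B T).card + 3 ≤ Fintype.card V) →
    5 * (Finset.univ.filter (fun T => (A.B T).card = 2)).card +
      4 * (∑ T ∈ Finset.univ.filter (fun T => 2 ≤ (A.B T).card), (A.B T).card) + 30 ≤
      15 * (Finset.univ.filter (fun T => 2 ≤ (A.B T).card)).card

/-- LEAF H2 (exponent 2), to be proved from `S_M`, `S_M2` -/
def S_H2 : Prop := ∀ (V : Type) [Fintype V] [LinearOrder V] (A : Arr V), 2 ≤ Fintype.card V →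
  (∀ i < A.N, (A.B i).card + 3 ≤ Fintype.card V) →
  Fintype.card V + 2 * A.f1 + 4 * A.t2 ≤ 9 * A.f0

/-!
### Sketch for LEAF H2 (from `S_M` (Melchior: `D ≥ 0`) and `S_M2`)

`k = card V`, `κ = k - 3`, `m = f0 - t2`, `I = f1 - 2 t2 = ∑_{r ≥ 3} r t_r`, `D = 3 f0 - f1 - 3 ≥ 0`,
`S = ∑_{r ≥ 4} (r - 3) t_r = I - 3 m`, `t2 = 3 + D + S`.
`Φ2 = 9 f0 - 2 f1 - 4 t2 = ∑_p φ2 (r_p)`, `φ2 2 = 1`, `φ2 r = 9 - 2 r` for `r ≥ 3` (so `3, 1, -1, …`);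
CLAIM `Φ2 ≥ k` if all `r ≤ k - 3`.  Induction on `k`, `Φ2 ≤ k - 1` for contradiction.
* Deletion of `l`: `Φ2(A) - Φ2(A \ l) = a_2(l) + 2 a_3(l) - 2 a_{≥4}(l)`.
* Suppose there is a point `P` of multiplicity `r = k - 3`.  If `r ≤ 2` (`k = 5`, all points double):
  `Φ2 = t2 = 10`.  Let `r ≥ 3`.  A point `p ≠ P` has at most 3 lines not through `P` and at most one
  line through `P`, so `r_p ≤ 4` and `φ2 ≥ 1` : `Φ2 ≥ (f0 - 1) + 9 - 2 r`.  Count pairs (line through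
  `P`, other line): `3 r = ∑_{p ∈ N(P)} (r_p - 1)` over the points `p ≠ P` on lines of `P`; pairs of
  other lines: `∑_{p ∈ N(P)} (r_p - 1)(r_p - 2)/2 ≤ 3`; so `#N(P) = ∑ (r_p - 1) - ∑ (r_p - 2) ≥ 3 r - 3`
  and `Φ2 ≥ 3 r - 3 + 9 - 2 r = r + 6 ≥ k`.
* So all `r ≤ k - 4`; hence for every `l` all points of `A \ l` have multiplicity `≤ (k - 1) - 3` and by
  induction (1') `a_2(l) + 2 a_3(l) ≤ 2 a_{≥4}(l)` for every `l`.
* (iii) `Φ2 = 3 + D + 3 m - S ≤ k - 1`, i.e. `S ≥ 3 m + D + 1 - κ`.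
* (i) sum of (1') over all `l`: `2 t2 + 6 t3 ≤ 2 (I - 3 t3)`, so `t2 ≤ I`, i.e. `D ≤ 3 m - 3`.
* (Sh) `S_M2` reads `2 S + 9 ≤ 3 m + 2 D`.
* With (iii): (A) `3 m + 11 ≤ 2 κ`.  With (i): `2 S ≤ 9 m - 15 ≤ 6 κ - 48`, `S ≤ 3 κ - 24`; so `κ ≥ 8`.
* Let `P` be a point of maximal multiplicity `R` (`R ≥ 4` as every line has `a_{≥4} ≥ 1` by (1')),
  `s = k - R ≥ 4`.  Pairs: `k (k-1) = 2 t2 + 6 m + ∑_{r≥4} (r-3)(r+2) t_r ≤ 6 + 2 D + 6 m + (R+4) S`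
  `≤ 12 m + (R + 4) S`, hence `κ² - 3 κ + 50 ≤ 3 (R + 4) (κ - 8)`; so `κ ≥ 9` and `R ≥ 7`
  (if `R + 4 ≤ 10` then `κ² - 33 κ + 290 ≤ 0`, impossible as the discriminant is `1089 - 1160 < 0`).
* (v) Pairs (line through `P`, other line), with (1') for the lines through `P`:
  `R s = ∑_{p ∈ N(P)} (r_p - 1) ≤ 2 (R + #N_{≥4}) + ∑_{N_{≥4}} (r_p - 1) = 2 R + ∑_{N_{≥4}} (r_p + 1)`
  `≤ 2 R + (I + m) - (R + 1) = R - 1 + 4 m + S`.  With the bounds above (`σ = s - 1`):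
  `3 R σ ≤ 17 (κ - 7)` where `κ = R + σ - 2`, i.e. `(3 R - 17) (3 σ - 17) ≤ -170`; as `R ≥ 7`, `σ ≤ 5`,
  `s ≤ 6`.
* Every line `l` through `P` has a point `Q ≠ P` with `r_Q ≥ 4` (otherwise (1') gives
  `s = a_2 + 2 a_3 ≤ 2`), and at least 3 of the `s` lines not through `P` pass through `Q`; these `Q` are
  different for different `l`, each uses 3 of the `s (s-1)/2 ≤ 15` pairs: `R ≤ 5`.  Contradiction.
-/

end K9h61.PL
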