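import Pool.Agent.K9h61.PL.B
import Pool.Agent.K9h61.PL.Stm2

/-!
# The bridge from wiring diagrams to the cyclic form, general form
-/

open scoped Classical

namespace K9h61.PL

open Finset LeafB

theorem bridge (V : Type) [Fintype V] [LinearOrder V] (A : Arr V) (hV : 2 ≤ Fintype.card V) :
    ∃ (N : ℕ) (_ : NeZero (2 * N)) (C : Cyc V N), (∀ T, ∃ i < A.N, C.B T = A.B i) ∧
      (univ.filter fun T => 2 ≤ (C.B T).card).card = 2 * A.f0 ∧
      ∑ T ∈ univ.filter (fun T => 2 ≤ (C.B T).card), (C.B T).card = 2 * A.f1 ∧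
      (univ.filter fun T => (C.B T).card = 2).card = 2 * A.t2 := by
  obtain ⟨x, y, hxy⟩ := Fintype.exists_pair_of_one_lt_card (α := V) (by omega)
  obtain ⟨i, hi, -⟩ := A.cross x y hxy
  have hN : 0 < A.N := by omega
  have hNe : NeZero (2 * A.N) := ⟨by omega⟩
  refine ⟨A.N, hNe, toCyc A hN, fun T => ⟨T.val % A.N, Nat.mod_lt _ hN, rfl⟩, ?_, ?_, ?_⟩
  · unfold Arr.f0 Arr.pts
    rw [card_filter, card_filter, ← sum_two]
    rfl
  · unfold Arr.f1 Arr.pts
    rw [sum_filter, sum_filter, ← sum_two]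
    rfl
  · have e : A.t2 = ((range A.N).filter fun i => (A.B i).card = 2).card := by
      unfold Arr.t2 Arr.pts
      rw [filter_filter]
      congr 1
      refine filter_congr fun i _ => ?_
      omega
    rw [e, card_filter, card_filter, ← sum_two]
    rfl

/-- the bridge for exponent 2 -/
theorem t_B2 (hC : S_C2) : S_M2 := by
  intro V _ _ A hV hB
  obtain ⟨N, hN, C, hT, f0, f1, t2⟩ := bridge V A hV
  have h := hC V N C hV fun T => by
    obtain ⟨i, hi, e⟩ := hT T
    rw [e]
    exact hB i hi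
  rw [f0, f1, t2] at h
  omega

end K9h61.PL
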