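import Pool.Agent.K9h61.PL.Time

/-! The combinatorial map of a cyclic sequence. -/

open scoped Classical

namespace K9h61.PL

namespace Cyc

variable {V : Type} [Fintype V] {N : ℕ} [NeZero (2 * N)] (A : Cyc V N)

/-- darts: time, line, direction -/
abbrev DV (V : Type) (N : ℕ) : Type := ZMod (2 * N) × V × Bool

/-- the element of rank `j` of the block -/
noncomputable def el (T : ZMod (2 * N)) (j : ℕ) (x : V) : V :=
  if h : ∃ y ∈ A.B T, A.rk T y = j then h.choose else x

omit [NeZero (2 * N)] in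
theorem el_spec {T : ZMod (2 * N)} {j : ℕ} (x : V) (hj : j < (A.B T).card) :
    A.el T j x ∈ A.B T ∧ A.rk T (A.el T j x) = j := by
  have h := A.exists_rk hj
  unfold el
  rw [dif_pos h]
  exact h.choose_spec

omit [NeZero (2 * N)] in
theorem el_occ {T : ZMod (2 * N)} {j : ℕ} {x : V} (h : A.occ T x) (hj : j < (A.B T).card) :
    A.occ T (A.el T j x) := ⟨(A.el_spec x hj).1, h.2⟩

omit [NeZero (2 * N)] in
theorem el_eq {T : ZMod (2 * N)} {j : ℕ} {x y : V} (hy : y ∈ A.B T) (hj : A.rk T y = j) :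
    A.el T j x = y := by
  have hj' : j < (A.B T).card := by rw [← hj]; exact A.rk_lt hy
  have := A.el_spec x hj'
  exact A.rk_inj this.1 hy (by rw [this.2, hj])

/-- the other end -/
noncomputable def alV (d : DV V N) : DV V N :=
  if d.2.2 = true then (d.1 + (A.fw d.1 d.2.1 : ZMod (2 * N)), d.2.1, false)
  else (d.1 - (A.bw d.1 d.2.1 : ZMod (2 * N)), d.2.1, true)

/-- the rotation -/
noncomputable def rhoV (d : DV V N) : DV V N :=
  if A.rk d.1 d.2.1 + 1 < (A.B d.1).card then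
    (d.1, A.el d.1 (A.rk d.1 d.2.1 + 1) d.2.1, d.2.2)
  else (d.1, A.el d.1 0 d.2.1, !d.2.2)

omit [NeZero (2 * N)] in
theorem alV_true (T : ZMod (2 * N)) (x : V) :
    A.alV (T, x, true) = (T + (A.fw T x : ZMod (2 * N)), x, false) := by
  unfold alV; rw [if_pos rfl]

omit [NeZero (2 * N)] in
theorem alV_false (T : ZMod (2 * N)) (x : V) :
    A.alV (T, x, false) = (T - (A.bw T x : ZMod (2 * N)), x, true) := by
  unfold alV; rw [if_neg (by simp)]

omit [NeZero (2 * N)] in
theorem rhoV_pos {T : ZMod (2 * N)} {x : V} {b : Bool} (h : A.rk T x + 1 < (A.B T).card) :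
    A.rhoV (T, x, b) = (T, A.el T (A.rk T x + 1) x, b) := by
  unfold rhoV; rw [if_pos h]

omit [NeZero (2 * N)] in
theorem rhoV_neg {T : ZMod (2 * N)} {x : V} {b : Bool} (h : ¬ A.rk T x + 1 < (A.B T).card) :
    A.rhoV (T, x, b) = (T, A.el T 0 x, !b) := by
  unfold rhoV; rw [if_neg h]

theorem occ_alV (d : DV V N) (h : A.occ d.1 d.2.1) : A.occ (A.alV d).1 (A.alV d).2.1 := by
  obtain ⟨T, x, b⟩ := d
  have hx : A.occ T x := h
  cases b
  · rw [alV_false]; exact (A.bw_spec hx).2.1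
  · rw [alV_true]; exact (A.fw_spec hx).2.1

omit [NeZero (2 * N)] in
theorem occ_rhoV (d : DV V N) (h : A.occ d.1 d.2.1) : A.occ (A.rhoV d).1 (A.rhoV d).2.1 := by
  obtain ⟨T, x, b⟩ := d
  have hx : A.occ T x := h
  by_cases hj : A.rk T x + 1 < (A.B T).card
  · rw [A.rhoV_pos hj]; exact A.el_occ hx hj
  · rw [A.rhoV_neg hj]; exact A.el_occ hx (lt_of_lt_of_le two_pos hx.2)

/-- darts -/
abbrev Dart : Type := {d : DV V N // A.occ d.1 d.2.1}

/-- the other end -/
noncomputable def al (e : A.Dart) : A.Dart := ⟨A.alV e.1, A.occ_alV e.1 e.2⟩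

/-- the rotation -/
noncomputable def rho (e : A.Dart) : A.Dart := ⟨A.rhoV e.1, A.occ_rhoV e.1 e.2⟩

/-- the opposite dart -/
def opp (e : A.Dart) : A.Dart := ⟨(e.1.1, e.1.2.1, !e.1.2.2), e.2⟩

theorem rho_time (e : A.Dart) : (A.rho e).1.1 = e.1.1 := by
  show (A.rhoV e.1).1 = e.1.1
  unfold rhoV
  split_ifs <;> rfl

theorem al_line (e : A.Dart) : (A.al e).1.2.1 = e.1.2.1 := by
  show (A.alV e.1).2.1 = e.1.2.1
  unfold alV
  split_ifs <;> rfl

theorem al_al (e : A.Dart) : A.al (A.al e) = e := by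
  obtain ⟨⟨T, x, b⟩, h⟩ := e
  have hx : A.occ T x := h
  apply Subtype.ext
  show A.alV (A.alV (T, x, b)) = (T, x, b)
  cases b
  · rw [alV_false, alV_true, A.fw_bw hx, sub_add_cancel]
  · rw [alV_true, alV_false, A.bw_fw hx, add_sub_cancel_right]

theorem rho_line (e : A.Dart) : (A.rho e).1.2.1 ≠ e.1.2.1 := by
  obtain ⟨⟨T, x, b⟩, h⟩ := e
  have hx : A.occ T x := h
  have h2 := hx.2
  intro hh
  change (A.rhoV (T, x, b)).2.1 = x at hh
  by_cases hj : A.rk T x + 1 < (A.B T).card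
  · rw [A.rhoV_pos hj] at hh
    change A.el T (A.rk T x + 1) x = x at hh
    have := (A.el_spec x hj).2
    rw [hh] at this
    omega
  · rw [A.rhoV_neg hj] at hh
    change A.el T 0 x = x at hh
    have := (A.el_spec (T := T) (j := 0) x (by omega)).2
    rw [hh] at this
    have h3 := A.rk_lt hx.1
    omega

theorem rho_rho (e : A.Dart) (h2 : (A.B e.1.1).card = 2) : A.rho (A.rho e) = A.opp e := by
  obtain ⟨⟨T, x, b⟩, h⟩ := e
  have hx : A.occ T x := h
  change (A.B T).card = 2 at h2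
  have hr := A.rk_lt hx.1
  apply Subtype.ext
  show A.rhoV (A.rhoV (T, x, b)) = (T, x, !b)
  by_cases h0 : A.rk T x = 0
  · have h3 := (A.el_spec (T := T) (j := 1) x (by omega)).2
    have h4 : A.rhoV (T, x, b) = (T, A.el T 1 x, b) := by
      rw [A.rhoV_pos (T := T) (x := x) (by omega), h0]
    rw [h4, A.rhoV_neg (T := T) (x := A.el T 1 x) (by omega), A.el_eq hx.1 h0]
  · have h3 := (A.el_spec (T := T) (j := 0) x (by omega)).2
    rw [A.rhoV_neg (T := T) (x := x) (by omega), A.rhoV_pos (T := T) (x := A.el T 0 x) (by omega),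
      h3, A.el_eq hx.1 (show A.rk T x = 0 + 1 by omega)]

/-- name of the point in the projective plane -/
def pnt (T : ZMod (2 * N)) : Set (ZMod (2 * N)) := {T, T + (N : ZMod (2 * N))}

theorem pnt_eq_iff {T T' : ZMod (2 * N)} :
    pnt (N := N) T = pnt T' ↔ T' = T ∨ T' = T + (N : ZMod (2 * N)) := by
  unfold pnt
  constructor
  · intro h
    have : T' ∈ ({T, T + (N : ZMod (2 * N))} : Set (ZMod (2 * N))) := by
      rw [h]; exact Set.mem_insert _ _
    simpa using this
  · rintro (rfl | rfl)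
    · rfl
    · rw [add_assoc, NN, add_zero, Set.pair_comm]

theorem natCast_eq_zero {n : ℕ} (h : (n : ZMod (2 * N)) = 0) : 2 * N ∣ n :=
  (ZMod.natCast_eq_zero_iff n (2 * N)).1 h

theorem K1_fw (hp : ∀ T, (A.B T).card + 1 ≤ Fintype.card V) {T : ZMod (2 * N)} {x : V}
    (h : A.occ T x) : pnt (N := N) (T + (A.fw T x : ZMod (2 * N))) ≠ pnt T := by
  intro he
  obtain ⟨a, _, _, _⟩ := A.fw_spec h
  have hlt := A.fw_lt hp h
  rw [pnt_eq_iff] at he
  rcases he with he | he
  · have h1 : (A.fw T x : ZMod (2 * N)) = 0 := by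
      have : T + (A.fw T x : ZMod (2 * N)) = T + 0 := by rw [add_zero]; exact he.symm
      exact add_left_cancel this
    have := Nat.le_of_dvd a (natCast_eq_zero h1)
    omega
  · have h1 : ((A.fw T x + N : ℕ) : ZMod (2 * N)) = 0 := by
      push_cast
      have : T + ((A.fw T x : ZMod (2 * N)) + N) = T + 0 := by
        rw [add_zero, ← add_assoc]; exact he.symm
      exact add_left_cancel this
    have := Nat.le_of_dvd (by omega) (natCast_eq_zero h1)
    omega

theorem K1 (hp : ∀ T, (A.B T).card + 1 ≤ Fintype.card V) (e : A.Dart) :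
    pnt (N := N) (A.al e).1.1 ≠ pnt e.1.1 := by
  obtain ⟨⟨T, x, b⟩, h⟩ := e
  have hx : A.occ T x := h
  show pnt (N := N) (A.alV (T, x, b)).1 ≠ pnt T
  cases b
  · rw [alV_false]
    show pnt (N := N) (T - (A.bw T x : ZMod (2 * N))) ≠ pnt T
    have h1 := A.K1_fw hp (A.bw_spec hx).2.1
    rw [A.fw_bw hx, sub_add_cancel] at h1
    exact h1.symm
  · rw [alV_true]
    exact A.K1_fw hp hx

theorem K2_aux (hp : ∀ T, (A.B T).card + 2 ≤ Fintype.card V) {T : ZMod (2 * N)} {x : V}
    (h : A.occ T x) (h2 : (A.B T).card = 2) :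
    pnt (N := N) (T + (A.fw T x : ZMod (2 * N))) ≠ pnt (T - (A.bw T x : ZMod (2 * N))) := by
  intro he
  have hp' : ∀ T, (A.B T).card + 1 ≤ Fintype.card V := fun T => by have := hp T; omega
  obtain ⟨a, _, _, _⟩ := A.fw_spec h
  obtain ⟨a', _, _, _⟩ := A.bw_spec h
  have hlt := A.fw_lt hp' h
  have hlt' := A.bw_lt hp' h
  have hne := A.fw_add_bw hp h h2
  rw [pnt_eq_iff] at he
  rcases he with he | he
  · have h1 : ((A.fw T x + A.bw T x : ℕ) : ZMod (2 * N)) = 0 := by
      push_cast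
      have h3 : T - (A.bw T x : ZMod (2 * N)) - T + (A.bw T x : ZMod (2 * N)) =
        T + (A.fw T x : ZMod (2 * N)) - T + (A.bw T x : ZMod (2 * N)) := by
        rw [he]
      have h4 : T - (A.bw T x : ZMod (2 * N)) - T + (A.bw T x : ZMod (2 * N)) = 0 := by ring
      rw [h4] at h3
      rw [h3]; ring
    have := Nat.le_of_dvd (by omega) (natCast_eq_zero h1)
    omega
  · have h1 : ((A.fw T x + A.bw T x + N : ℕ) : ZMod (2 * N)) = 0 := by
      push_cast
      have h3 : T - (A.bw T x : ZMod (2 * N)) - T + (A.bw T x : ZMod (2 * N)) =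
        T + (A.fw T x : ZMod (2 * N)) + (N : ZMod (2 * N)) - T + (A.bw T x : ZMod (2 * N)) := by
        rw [he]
      have h4 : T - (A.bw T x : ZMod (2 * N)) - T + (A.bw T x : ZMod (2 * N)) = 0 := by ring
      rw [h4] at h3
      rw [h3]; ring
    obtain ⟨q, hq⟩ := natCast_eq_zero h1
    have : q = 1 := by
      have h5 : q < 2 := by
        by_contra hh
        have : 2 * N * 2 ≤ 2 * N * q := Nat.mul_le_mul_left _ (by omega)
        omega
      have h6 : q ≠ 0 := by rintro rfl; omega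
      omega
    subst this
    omega

theorem K2 (hp : ∀ T, (A.B T).card + 2 ≤ Fintype.card V) (e : A.Dart)
    (h2 : (A.B e.1.1).card = 2) :
    pnt (N := N) (A.al e).1.1 ≠ pnt (A.al (A.opp e)).1.1 := by
  obtain ⟨⟨T, x, b⟩, h⟩ := e
  have hx : A.occ T x := h
  show pnt (N := N) (A.alV (T, x, b)).1 ≠ pnt (A.alV (T, x, !b)).1
  cases b
  · rw [alV_false, Bool.not_false, alV_true]
    exact (A.K2_aux hp hx h2).symm
  · rw [alV_true, Bool.not_true, alV_false]
    exact A.K2_aux hp hx h2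

end Cyc

end K9h61.PL
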