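import Pool.Agent.K9h61.PL.Dart

/-! Faces. -/

open scoped Classical

namespace K9h61.PL

namespace Cyc

variable {V : Type} [Fintype V] {N : ℕ} [NeZero (2 * N)] (A : Cyc V N)

/-- name of the face in the gap `g` after the last cover before time `T` -/
noncomputable def face (g : ℕ) (T : ZMod (2 * N)) : ℕ × ZMod (2 * N) :=
  if g = 0 then (0, 0) else if g = Fintype.card V then (Fintype.card V, 0) else (g, A.lc g T)

/-- name of the face of a dart -/
noncomputable def labV (d : DV V N) : ℕ × ZMod (2 * N) :=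
  if d.2.2 = true then A.face (A.pos (d.1 + 1) d.2.1 + 1) (d.1 + 1)
  else A.face (A.pos d.1 d.2.1) d.1

omit [NeZero (2 * N)] in
theorem labV_true (T : ZMod (2 * N)) (x : V) :
    A.labV (T, x, true) = A.face (A.pos (T + 1) x + 1) (T + 1) := by
  unfold labV; rw [if_pos rfl]

omit [NeZero (2 * N)] in
theorem labV_false (T : ZMod (2 * N)) (x : V) : A.labV (T, x, false) = A.face (A.pos T x) T := by
  unfold labV; rw [if_neg (by simp)]

omit [NeZero (2 * N)] in
theorem face_congr {g : ℕ} {T T' : ZMod (2 * N)} (h : g ≠ 0 → g ≠ Fintype.card V → A.lc g T = A.lc g T') :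
    A.face g T = A.face g T' := by
  unfold face
  split_ifs with h1 h2
  · rfl
  · rfl
  · rw [h h1 h2]

omit [NeZero (2 * N)] in
/-- lower end of a block -/
theorem not_cover_low {T : ZMod (2 * N)} {x : V} (hx : x ∈ A.B T) : ¬ A.cover (A.out T x) T := by
  rintro ⟨a, ha, b, hb, h1, h2⟩
  rw [A.pos_eq, A.out_eq ha hx] at h1
  omega

omit [NeZero (2 * N)] in
/-- upper end of a block -/
theorem not_cover_high {T : ZMod (2 * N)} {x : V} (hx : x ∈ A.B T) :
    ¬ A.cover (A.out T x + (A.B T).card) T := by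
  rintro ⟨a, ha, b, hb, h1, h2⟩
  rw [A.pos_eq, A.out_eq hb hx] at h2
  have := A.rk_lt hb
  omega

theorem lab_phi (e : A.Dart) : A.labV (A.rho (A.al e)).1 = A.labV e.1 := by
  obtain ⟨⟨T, x, b⟩, h⟩ := e
  have hx : A.occ T x := h
  show A.labV (A.rhoV (A.alV (T, x, b))) = A.labV (T, x, b)
  cases b
  · -- backwards
    obtain ⟨a, hb, c, d⟩ := A.bw_spec hx
    rw [alV_false, labV_false]
    set T' := T - (A.bw T x : ZMod (2 * N)) with hT'
    have hpos : A.pos (T' + 1) x = A.pos T x := A.pos_bw hx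
    have hTT : T' + (A.bw T x : ZMod (2 * N)) = T := by rw [hT']; ring
    have hfw : A.fw T' x = A.bw T x := A.fw_bw hx
    have hnc : ∀ j, 0 < j → j < A.bw T x →
        ¬ A.cover (A.pos T x) (T' + (j : ZMod (2 * N))) := by
      intro j hj hlt hcov
      have hp : A.pos (T' + (j : ZMod (2 * N))) x = A.pos T x := by
        rw [← hpos]
        refine A.pos_between (d := A.bw T x) ?_ j hj hlt.le
        have := (A.fw_spec hb).2.2.1
        rw [hfw] at this
        exact this
      have h3 := A.occ_of_cover_left hcov hp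
      have := (A.fw_spec hb).2.2.1
      rw [hfw] at this
      exact this j hj hlt h3
    have hlc : A.lc (A.pos T x) T = A.lc (A.pos T x) (T' + 1) := by
      have h5 := A.lc_between hnc _ a le_rfl
      rw [hTT] at h5
      exact h5
    have hps := A.pos_succ hb.1
    rw [hpos] at hps
    by_cases hj : A.rk T' x + 1 < (A.B T').card
    · rw [A.rhoV_pos hj, labV_true]
      have he := A.el_spec x hj
      have hps2 := A.pos_succ he.1
      rw [he.2, A.out_eq he.1 hb.1] at hps2
      have : A.pos (T' + 1) (A.el T' (A.rk T' x + 1) x) + 1 = A.pos T x := by omega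
      rw [this]
      exact A.face_congr fun _ _ => hlc.symm
    · rw [A.rhoV_neg hj, Bool.not_true, labV_false]
      have hcard : 0 < (A.B T').card := lt_of_lt_of_le two_pos hb.2
      have he := A.el_spec (T := T') (j := 0) x hcard
      have hrk := A.rk_lt hb.1
      have h1 : A.pos T' (A.el T' 0 x) = A.out T' x := by
        rw [A.pos_eq, he.2, A.out_eq he.1 hb.1, add_zero]
      have h2 : A.pos T x = A.out T' x := by omega
      rw [h1, h2]
      apply A.face_congr
      intro _ _
      rw [h2] at hlc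
      rw [hlc, A.lc_succ_of_not_cover (A.not_cover_low hb.1)]
  · -- forwards
    obtain ⟨a, hb, c, d⟩ := A.fw_spec hx
    rw [alV_true, labV_true]
    set T' := T + (A.fw T x : ZMod (2 * N)) with hT'
    have hpos : A.pos T' x = A.pos (T + 1) x := A.pos_fw hx
    have hnc : ∀ j, 0 < j → j < A.fw T x →
        ¬ A.cover (A.pos (T + 1) x + 1) (T + (j : ZMod (2 * N))) := by
      intro j hj hlt hcov
      have hp : A.pos (T + (j : ZMod (2 * N))) x = A.pos (T + 1) x :=
        A.pos_between c j hj hlt.le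
      exact c j hj hlt (A.occ_of_cover_right hcov (by rw [hp]))
    have hlc : A.lc (A.pos (T + 1) x + 1) T' = A.lc (A.pos (T + 1) x + 1) (T + 1) :=
      A.lc_between hnc _ a le_rfl
    have hpe := A.pos_eq (T := T') x
    rw [hpos] at hpe
    by_cases hj : A.rk T' x + 1 < (A.B T').card
    · rw [A.rhoV_pos hj, labV_false]
      have he := A.el_spec x hj
      have hpe2 := A.pos_eq (T := T') (A.el T' (A.rk T' x + 1) x)
      rw [he.2, A.out_eq he.1 hb.1] at hpe2
      have : A.pos T' (A.el T' (A.rk T' x + 1) x) = A.pos (T + 1) x + 1 := by omega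
      rw [this]
      exact A.face_congr fun _ _ => hlc
    · rw [A.rhoV_neg hj, Bool.not_false, labV_true]
      have hcard : 0 < (A.B T').card := lt_of_lt_of_le two_pos hb.2
      have he := A.el_spec (T := T') (j := 0) x hcard
      have hps := A.pos_succ he.1
      rw [he.2, A.out_eq he.1 hb.1] at hps
      have hrk := A.rk_lt hb.1
      have h1 : A.pos (T' + 1) (A.el T' 0 x) = A.pos (T + 1) x := by omega
      rw [h1]
      apply A.face_congr
      intro _ _
      have h2 : A.pos (T + 1) x + 1 = A.out T' x + (A.B T').card := by omega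
      rw [← hlc, A.lc_succ_of_not_cover]
      rw [h2]
      exact A.not_cover_high hb.1


/-- the lowest position of the block -/
noncomputable def lo (T : ZMod (2 * N)) : ℕ :=
  if h : (A.B T).Nonempty then A.out T h.choose else 0

omit [NeZero (2 * N)] in
theorem lo_eq {T : ZMod (2 * N)} {x : V} (hx : x ∈ A.B T) : A.lo T = A.out T x := by
  have h : (A.B T).Nonempty := ⟨x, hx⟩
  unfold lo
  rw [dif_pos h]
  exact A.out_eq h.choose_spec hx

/-- the names of the faces in the gaps `1, …, k - 1` -/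
noncomputable def inner : Finset (ℕ × ZMod (2 * N)) :=
  (((Finset.univ : Finset (ZMod (2 * N))).filter (fun T => 2 ≤ (A.B T).card)).sigma
    (fun T => Finset.range ((A.B T).card - 1))).image (fun p => (A.lo p.1 + p.2 + 1, p.1))

theorem card_inner : A.inner.card =
    ∑ T ∈ (Finset.univ : Finset (ZMod (2 * N))).filter (fun T => 2 ≤ (A.B T).card),
      ((A.B T).card - 1) := by
  unfold inner
  rw [Finset.card_image_of_injective, Finset.card_sigma]
  · simp
  · rintro ⟨T, j⟩ ⟨T', j'⟩ h
    simp only [Prod.mk.injEq] at h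
    obtain ⟨h1, rfl⟩ := h
    have : j = j' := by omega
    subst this
    rfl

theorem exists_occ_pos (hk : 2 ≤ Fintype.card V) (T : ZMod (2 * N)) (x : V) :
    (∃ T', A.occ T' x ∧ A.pos (T' + 1) x = A.pos T x) ∧ (∃ T', A.occ T' x ∧ A.pos T' x = A.pos T x) := by
  obtain ⟨y, hy⟩ : ∃ y, y ≠ x := by
    have : Nontrivial V := Fintype.one_lt_card_iff_nontrivial.1 (by omega)
    exact exists_ne x
  have hex : ∃ d : ℕ, 0 < d ∧ A.occ (T - (d : ZMod (2 * N))) x := by
    obtain ⟨j, hj, _, h1, h2⟩ := A.cross_window hy.symm T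
    have h3 := A.occ_of_mem2 hy.symm h1 h2
    have hN := NeZero.pos (2 * N)
    have hjlt : j ≤ 2 * N := by omega
    rcases Nat.lt_or_ge j (2 * N) with hlt | hge
    · refine ⟨2 * N - j, by omega, ?_⟩
      rw [Nat.cast_sub (by omega), cast2N]
      rw [show T - (0 - (j : ZMod (2 * N))) = T + (j : ZMod (2 * N)) by ring]
      exact h3
    · have : j = 2 * N := by omega
      refine ⟨2 * N, by omega, ?_⟩
      rw [this, cast2N, add_zero] at h3
      rw [cast2N, sub_zero]
      exact h3
  have key : ∃ T', A.occ T' x ∧ A.pos (T' + 1) x = A.pos T x := by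
    refine ⟨T - ((Nat.find hex : ℕ) : ZMod (2 * N)), (Nat.find_spec hex).2, ?_⟩
    have h1 : ∀ j, 0 < j → j < Nat.find hex →
        ¬ A.occ (T - ((Nat.find hex : ℕ) : ZMod (2 * N)) + (j : ZMod (2 * N))) x := by
      intro j hj hlt hocc
      refine Nat.find_min hex (m := Nat.find hex - j) (by omega) ⟨by omega, ?_⟩
      rw [Nat.cast_sub hlt.le]
      rw [show T - (((Nat.find hex : ℕ) : ZMod (2 * N)) - (j : ZMod (2 * N))) =
        T - ((Nat.find hex : ℕ) : ZMod (2 * N)) + (j : ZMod (2 * N)) by ring]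
      exact hocc
    have h2 := A.pos_between h1 _ (Nat.find_spec hex).1 le_rfl
    rw [sub_add_cancel] at h2
    exact h2.symm
  refine ⟨key, ?_⟩
  obtain ⟨T', h1, h2⟩ := key
  exact ⟨_, (A.fw_spec h1).2.1, by rw [A.pos_fw h1, h2]⟩

/-- the names of all faces -/
noncomputable def allfaces : Finset (ℕ × ZMod (2 * N)) :=
  insert (0, 0) (insert (Fintype.card V, 0) A.inner)

theorem inner_fst {p : ℕ × ZMod (2 * N)} (h : p ∈ A.inner) : 0 < p.1 ∧ p.1 < Fintype.card V := by
  unfold inner at h
  rw [Finset.mem_image] at h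
  obtain ⟨⟨T, j⟩, hj, rfl⟩ := h
  rw [Finset.mem_sigma, Finset.mem_filter, Finset.mem_range] at hj
  obtain ⟨⟨_, h2⟩, hj⟩ := hj
  simp only at h2 hj ⊢
  obtain ⟨x, hx⟩ := Finset.card_pos.1 (lt_of_lt_of_le two_pos h2)
  have := A.out_add_card_le hx
  rw [A.lo_eq hx]
  omega

theorem card_allfaces (hk : 2 ≤ Fintype.card V) : A.allfaces.card =
    (∑ T ∈ (Finset.univ : Finset (ZMod (2 * N))).filter (fun T => 2 ≤ (A.B T).card),
      ((A.B T).card - 1)) + 2 := by
  unfold allfaces
  rw [Finset.card_insert_of_notMem, Finset.card_insert_of_notMem, card_inner]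
  · intro h
    have := A.inner_fst h
    simp at this
  · rw [Finset.mem_insert]
    rintro (h | h)
    · simp only [Prod.mk.injEq] at h
      omega
    · have := A.inner_fst h
      simp at this

theorem allfaces_sub (hk : 2 ≤ Fintype.card V) {p : ℕ × ZMod (2 * N)} (hp : p ∈ A.allfaces) :
    ∃ e : A.Dart, A.labV e.1 = p := by
  unfold allfaces at hp
  rw [Finset.mem_insert, Finset.mem_insert] at hp
  rcases hp with rfl | rfl | hp
  · obtain ⟨x, hx⟩ := A.exists_pos 0 (u := 0) (by omega)
    obtain ⟨T', h1, h2⟩ := (A.exists_occ_pos hk 0 x).2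
    refine ⟨⟨(T', x, false), h1⟩, ?_⟩
    show A.labV (T', x, false) = _
    rw [labV_false, h2, hx]
    unfold face
    rw [if_pos rfl]
  · obtain ⟨x, hx⟩ := A.exists_pos 0 (u := Fintype.card V - 1) (by omega)
    obtain ⟨T', h1, h2⟩ := (A.exists_occ_pos hk 0 x).1
    refine ⟨⟨(T', x, true), h1⟩, ?_⟩
    show A.labV (T', x, true) = _
    rw [labV_true, h2, hx]
    unfold face
    rw [if_neg (by omega), if_pos (by omega)]
  · have hfst := A.inner_fst hp
    unfold inner at hp
    rw [Finset.mem_image] at hp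
    obtain ⟨⟨T, j⟩, hj, rfl⟩ := hp
    rw [Finset.mem_sigma, Finset.mem_filter, Finset.mem_range] at hj
    obtain ⟨⟨_, h2⟩, hj⟩ := hj
    simp only at h2 hj hfst ⊢
    obtain ⟨x, hx, hrx⟩ := A.exists_rk (T := T) (j := (A.B T).card - 1 - j) (by omega)
    obtain ⟨y, hy, hry⟩ := A.exists_rk (T := T) (j := j) (by omega)
    obtain ⟨z, hz, hrz⟩ := A.exists_rk (T := T) (j := j + 1) (by omega)
    refine ⟨⟨(T, x, true), ⟨hx, h2⟩⟩, ?_⟩
    show A.labV (T, x, true) = _
    have h3 := A.pos_succ hx
    have h4 : A.pos (T + 1) x + 1 = A.lo T + j + 1 := by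
      rw [A.lo_eq hx]; omega
    rw [labV_true, h4]
    unfold face
    rw [if_neg (by omega), if_neg (by omega), A.lc_succ_of_cover]
    refine ⟨y, hy, z, hz, ?_, ?_⟩
    · rw [A.pos_eq, hry, A.lo_eq hy]; omega
    · rw [A.pos_eq, hrz, A.lo_eq hz]; omega

theorem card_dart (Q : ZMod (2 * N) → Prop) :
    (Finset.univ.filter (fun e : A.Dart => Q e.1.1)).card =
      ∑ T ∈ (Finset.univ : Finset (ZMod (2 * N))).filter (fun T => Q T ∧ 2 ≤ (A.B T).card),
        2 * (A.B T).card := by
  have h1 : (Finset.univ.filter (fun e : A.Dart => Q e.1.1)).card =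
      ((Finset.univ : Finset (DV V N)).filter (fun d => Q d.1 ∧ A.occ d.1 d.2.1)).card := by
    refine Finset.card_bij (fun e _ => e.1) ?_ ?_ ?_
    · intro e he
      rw [Finset.mem_filter] at he ⊢
      exact ⟨Finset.mem_univ _, he.2, e.2⟩
    · intro e _ e' _ h
      exact Subtype.ext h
    · intro d hd
      rw [Finset.mem_filter] at hd
      exact ⟨⟨d, hd.2.2⟩, by rw [Finset.mem_filter]; exact ⟨Finset.mem_univ _, hd.2.1⟩, rfl⟩
  rw [h1]
  have h2 : ((Finset.univ : Finset (DV V N)).filter (fun d => Q d.1 ∧ A.occ d.1 d.2.1)) =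
      (((Finset.univ : Finset (ZMod (2 * N))).filter (fun T => Q T ∧ 2 ≤ (A.B T).card)).sigma
        (fun T => A.B T ×ˢ (Finset.univ : Finset Bool))).image (fun p => (p.1, p.2.1, p.2.2)) := by
    ext ⟨T, x, b⟩
    simp only [Finset.mem_filter, Finset.mem_univ, true_and, Finset.mem_image, Finset.mem_sigma,
      Finset.mem_product, and_true, Sigma.exists, Prod.exists, Prod.mk.injEq]
    constructor
    · rintro ⟨hQ, hx, h2⟩
      exact ⟨T, x, b, ⟨⟨hQ, h2⟩, hx⟩, rfl, rfl, rfl⟩
    · rintro ⟨T', x', b', ⟨⟨hQ, h2⟩, hx⟩, rfl, rfl, rfl⟩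
      exact ⟨hQ, hx, h2⟩
  rw [h2, Finset.card_image_of_injective, Finset.card_sigma]
  · apply Finset.sum_congr rfl
    intro T _
    rw [Finset.card_product]
    simp [mul_comm]
  · rintro ⟨T, x, b⟩ ⟨T', x', b'⟩ h
    simp only [Prod.mk.injEq] at h
    obtain ⟨rfl, rfl, rfl⟩ := h
    rfl

/-- the combinatorial map -/
noncomputable def cmap (hp : ∀ T, (A.B T).card + 1 ≤ Fintype.card V) :
    CMap A.Dart V (Set (ZMod (2 * N))) (ℕ × ZMod (2 * N)) where
  al := A.al
  rho := A.rho
  opp := A.opp
  ln e := e.1.2.1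
  pt e := pnt (N := N) e.1.1
  lab e := A.labV e.1
  dbl e := (A.B e.1.1).card = 2
  al_al := A.al_al
  ln_al := A.al_line
  pt_rho e := by rw [A.rho_time]
  ln_rho := A.rho_line
  dbl_rho e := by rw [A.rho_time]
  rho2 := A.rho_rho
  ln_opp e := rfl
  uniq e e' f f' h1 h2 h3 h4 h5 := by
    rw [pnt_eq_iff] at h1 h2 ⊢
    have hB : ∀ {T T' : ZMod (2 * N)}, (T' = T ∨ T' = T + (N : ZMod (2 * N))) → A.B T' = A.B T := by
      rintro T T' (rfl | rfl)
      · rfl
      · exact A.antiB T
    have a1 : e'.1.2.1 ∈ A.B e.1.1 := by rw [← hB h1]; exact e'.2.1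
    have a2 : f'.1.2.1 ∈ A.B f.1.1 := by rw [← hB h2]; exact f'.2.1
    refine A.uniq e.1.2.1 e'.1.2.1 h5 e.1.1 f.1.1 e.2.1 a1 ?_ ?_
    · rw [h3]; exact f.2.1
    · rw [h4]; exact a2
  K1 := A.K1 hp
  lab_phi := A.lab_phi

end Cyc

/-- LEAF C from LEAF MAP -/
theorem t_C (hM : S_MAP) : S_C := by
  intro V _ N _ A hk
  have key : ∀ (hp : ∀ T, (A.B T).card + 1 ≤ Fintype.card V)
      (inst : DecidableEq (ℕ × ZMod (2 * N))),
      ((∑ T ∈ (Finset.univ : Finset (ZMod (2 * N))).filter (fun T => 2 ≤ (A.B T).card),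
        ((A.B T).card - 1)) + 2) ≤
        (@Finset.image _ _ inst (A.cmap hp).lab Finset.univ).card := by
    intro hp inst
    rw [← A.card_allfaces hk]
    apply Finset.card_le_card
    intro p h
    obtain ⟨e, he⟩ := A.allfaces_sub hk h
    rw [Finset.mem_image]
    exact ⟨e, Finset.mem_univ _, he⟩
  have hD : Fintype.card A.Dart =
      ∑ T ∈ (Finset.univ : Finset (ZMod (2 * N))).filter (fun T => 2 ≤ (A.B T).card),
        2 * (A.B T).card := by
    have := A.card_dart (fun _ => True)
    simp only [Finset.filter_true, true_and] at this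
    rw [← this, Finset.card_univ]
  have hsum : (∑ T ∈ (Finset.univ : Finset (ZMod (2 * N))).filter (fun T => 2 ≤ (A.B T).card),
        ((A.B T).card - 1)) +
      ((Finset.univ : Finset (ZMod (2 * N))).filter (fun T => 2 ≤ (A.B T).card)).card =
      ∑ T ∈ (Finset.univ : Finset (ZMod (2 * N))).filter (fun T => 2 ≤ (A.B T).card),
        (A.B T).card := by
    rw [Finset.card_eq_sum_ones, ← Finset.sum_add_distrib]
    apply Finset.sum_congr rfl
    intro T hT
    rw [Finset.mem_filter] at hT
    omega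
  rw [← Finset.mul_sum] at hD
  refine ⟨fun hp => ?_, fun hp => ?_⟩
  · have h1 := (hM _ _ _ _ (A.cmap hp)).1
    have h2 := key hp (fun a b => Classical.propDecidable (a = b))
    rw [hD] at h1
    omega
  · have hp' : ∀ T, (A.B T).card + 1 ≤ Fintype.card V := fun T => by have := hp T; omega
    have h1 := (hM _ _ _ _ (A.cmap hp')).2 (fun e he => A.K2 hp e he)
    have h2 := key hp' (fun a b => Classical.propDecidable (a = b))
    have h6 : (Finset.univ.filter (fun e => (A.cmap hp').dbl e)).card =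
        4 * ((Finset.univ : Finset (ZMod (2 * N))).filter (fun T => (A.B T).card = 2)).card := by
      have h7 : (Finset.univ.filter (fun e => (A.cmap hp').dbl e)) =
          (Finset.univ.filter (fun e : A.Dart => (fun T => (A.B T).card = 2) e.1.1)) := by
        ext e
        rw [Finset.mem_filter, Finset.mem_filter]
        exact Iff.rfl
      rw [h7]
      refine Eq.trans (Eq.trans ?_ (A.card_dart (fun T => (A.B T).card = 2))) ?_
      · congr
      calc _ = ∑ T ∈ (Finset.univ : Finset (ZMod (2 * N))).filter (fun T => (A.B T).card = 2), 4 := by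
            refine Finset.sum_congr ?_ ?_
            · ext T
              simp only [Finset.mem_filter, Finset.mem_univ, true_and]
              constructor
              · exact fun h => h.1
              · exact fun h => ⟨h, h.ge⟩
            · intro T hT
              rw [(Finset.mem_filter.1 hT).2]
        _ = _ := by rw [Finset.sum_const, smul_eq_mul, mul_comm]
    rw [hD, h6] at h1
    omega

end K9h61.PL
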