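import Mathlib

/-! LEAF MAP: an abstract statement on combinatorial maps. -/

open scoped Classical

namespace K9h61.PL

/-- darts `D`, `al` = other end of the edge, `rho` = next dart at the same vertex, `opp` = opposite dart
on the same line, `ln` = line of the dart, `pt` = vertex of the dart in the projective plane, `lab` =
name of the face to the left, `dbl` = the vertex of the dart is a double point. -/
structure CMap (D V P Λ : Type) where
  al : D → D
  rho : D → D
  opp : D → D
  ln : D → V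
  pt : D → P
  lab : D → Λ
  dbl : D → Prop
  al_al : ∀ e, al (al e) = e
  ln_al : ∀ e, ln (al e) = ln e
  pt_rho : ∀ e, pt (rho e) = pt e
  ln_rho : ∀ e, ln (rho e) ≠ ln e
  dbl_rho : ∀ e, dbl (rho e) ↔ dbl e
  rho2 : ∀ e, dbl e → rho (rho e) = opp e
  ln_opp : ∀ e, ln (opp e) = ln e
  uniq : ∀ e e' f f', pt e = pt e' → pt f = pt f' → ln e = ln f → ln e' = ln f' → ln e ≠ ln e' →
    pt e = pt f
  K1 : ∀ e, pt (al e) ≠ pt e
  lab_phi : ∀ e, lab (rho (al e)) = lab e

/-- LEAF MAP -/
def S_MAP : Prop := ∀ (D V P Λ : Type) [Fintype D] (M : CMap D V P Λ),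
  3 * (Finset.univ.image M.lab).card ≤ Fintype.card D ∧
  ((∀ e, M.dbl e → M.pt (M.al e) ≠ M.pt (M.al (M.opp e))) →
    (Finset.univ.filter (fun e => M.dbl e)).card + 20 * (Finset.univ.image M.lab).card ≤
      7 * Fintype.card D)

/-!
### Sketch
`phi e = rho (al e)`.
* `phi e ≠ e` (`ln (phi e) ≠ ln (al e) = ln e`).
* `phi (phi e) ≠ e`: put `f = phi e = rho (al e)`, and suppose `rho (al f) = e`.  `pt f = pt (al e)`,
  `pt (al f) = pt e`.  The lines `ln e ≠ ln f` meet at `pt e` (darts `e`, `al f`) and at `pt f` (darts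
  `al e`, `f`), so `uniq` gives `pt e = pt (al e)`, against `K1`.
* So every fibre of `lab` (it is stable under `phi`) has at least 3 elements, hence the first claim; and in
  a fibre with exactly 3 elements, `phi` is a 3-cycle: `phi (phi (phi e)) = e` and the fibre is
  `{e, phi e, phi (phi e)}`.
* KEY: let `n e` = size of the fibre of `e`.  If `dbl e` and `dbl (al e)` then not both `n e = 3` and
  `n (al e) = 3`.  Proof: suppose `phi^3 e = e`, `phi^3 (al e) = al e`.  `e1 = phi e = rho (al e)`,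
  `e2 = phi e1 = rho (al e1)`, `g = al e2`, `rho g = e`, so `dbl g`, `opp g = rho (rho g) = rho e`.
  `e1' = phi (al e) = rho e`, `e2' = phi e1' = rho (al (rho e))`, `g' = al e2'`, `rho g' = al e`,
  `dbl g'`, `opp g' = rho (al e) = e1`.  Use `uniq` with `e := e2`, `e' := al e1`, `f := al (rho e)`,
  `f' := e2'`: `ln e2 = ln g = ln (opp g) = ln (rho e) = ln f`, `ln (al e1) = ln e1 = ln g' = ln e2'`,
  `pt e2 = pt (al e1)`, `pt e2' = pt (al (rho e))`, `ln e2 ≠ ln (al e1)`.  So
  `pt e2 = pt (al (rho e))`, i.e. `pt (al g) = pt (al (opp g))`, against the hypothesis.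
* Put `s e = 1` if `n e ≥ 4`, `s e = -1` if `n e = 3`, `dd e = 1` if `dbl e` and `dbl (al e)` (note
  `dbl (al e) ↔ dbl (phi e)`).  `∑ e, s e * dd e ≥ 0`: twice the sum is `∑ (s e + s (al e)) dd e`.
  So `#dbl ≤ ∑ e, ([dbl e] + s e * dd e)`, and on a fibre of size `n ≥ 4` the sum is `≤ 2 n ≤ 7 n - 20`,
  on a fibre `{e, phi e, phi (phi e)}` of size 3 it is `#double - #(consecutive pairs both double) ≤ 1`
  `= 7 * 3 - 20`.
-/

end K9h61.PL
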