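import Mathlib
import Pool.Agent.K9h61.PL.StmMap

/-! LEAF MAP (helper24, for helper61). -/

open scoped Classical

namespace K9h61.PL

namespace MapLeaf

variable {D V P Λ : Type} (M : CMap D V P Λ)

def phi (e : D) : D := M.rho (M.al e)

lemma lab_phi (e : D) : M.lab (phi M e) = M.lab e := M.lab_phi e

lemma phi_ne (e : D) : phi M e ≠ e := by
  intro h
  have h1 := M.ln_rho (M.al e)
  have h2 : M.rho (M.al e) = e := h
  rw [h2, M.ln_al] at h1
  exact h1 rfl

lemma phi_phi_ne (e : D) : phi M (phi M e) ≠ e := by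
  intro h
  have h1 : M.rho (M.al (M.rho (M.al e))) = e := h
  set f := M.rho (M.al e) with hf
  have p1 : M.pt f = M.pt (M.al e) := M.pt_rho _
  have p2 : M.pt (M.al f) = M.pt e := by
    have := M.pt_rho (M.al f)
    rw [h1] at this
    exact this.symm
  have hl : M.ln f ≠ M.ln e := by
    have := M.ln_rho (M.al e)
    rw [M.ln_al] at this
    exact this
  have hu := M.uniq e (M.al f) (M.al e) f p2.symm p1.symm (M.ln_al e).symm (M.ln_al f)
    (by rw [M.ln_al]; exact hl.symm)
  exact M.K1 e hu.symm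

lemma key (hM : ∀ e, M.dbl e → M.pt (M.al e) ≠ M.pt (M.al (M.opp e))) (e : D)
    (h1 : M.dbl e) (h2 : M.dbl (M.al e)) (h3 : phi M (phi M (phi M e)) = e)
    (h4 : phi M (phi M (phi M (M.al e))) = M.al e) : False := by
  obtain ⟨e1, he1⟩ : ∃ e1, e1 = M.rho (M.al e) := ⟨_, rfl⟩
  obtain ⟨e2, he2⟩ : ∃ e2, e2 = M.rho (M.al e1) := ⟨_, rfl⟩
  have h3' : M.rho (M.al e2) = e := by
    rw [he2, he1]; exact h3
  obtain ⟨e2', he2'⟩ : ∃ e2', e2' = M.rho (M.al (M.rho e)) := ⟨_, rfl⟩
  have h4' : M.rho (M.al e2') = M.al e := by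
    have h5 : phi M (phi M (phi M (M.al e))) = M.rho (M.al (M.rho (M.al (M.rho (M.al (M.al e)))))) := rfl
    rw [M.al_al] at h5
    rw [he2', ← h5]; exact h4
  have hg : M.dbl (M.al e2) := by
    rw [← M.dbl_rho, h3']; exact h1
  have hg' : M.dbl (M.al e2') := by
    rw [← M.dbl_rho, h4']; exact h2
  have ho : M.rho e = M.opp (M.al e2) := by
    rw [← M.rho2 _ hg, h3']
  have ho' : e1 = M.opp (M.al e2') := by
    rw [← M.rho2 _ hg', h4', he1]
  have q1 : M.pt e2 = M.pt (M.al e1) := by rw [he2]; exact M.pt_rho _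
  have q2 : M.pt (M.al (M.rho e)) = M.pt e2' := by rw [he2']; exact (M.pt_rho _).symm
  have q3 : M.ln e2 = M.ln (M.al (M.rho e)) := by
    rw [M.ln_al, ho, M.ln_opp, M.ln_al]
  have q4 : M.ln (M.al e1) = M.ln e2' := by
    rw [M.ln_al, ho', M.ln_opp, M.ln_al]
  have q5 : M.ln e2 ≠ M.ln (M.al e1) := by
    rw [he2]; exact M.ln_rho _
  have hu := M.uniq e2 (M.al e1) (M.al (M.rho e)) e2' q1 q2 q3 q4 q5
  apply hM (M.al e2) hg
  rw [M.al_al, ← ho]
  exact hu

variable [Fintype D]

/-- fibre -/
noncomputable def fib (l : Λ) : Finset D := Finset.univ.filter (fun x => M.lab x = l)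

lemma mem_fib (l : Λ) (x : D) : x ∈ fib M l ↔ M.lab x = l := by simp [fib]

lemma three_sub (e : D) : ({e, phi M e, phi M (phi M e)} : Finset D) ⊆ fib M (M.lab e) := by
  intro x hx
  simp only [Finset.mem_insert, Finset.mem_singleton] at hx
  rw [mem_fib]
  rcases hx with rfl | rfl | rfl
  · rfl
  · exact lab_phi M _
  · rw [lab_phi, lab_phi]

omit [Fintype D] in
lemma three_card (e : D) : ({e, phi M e, phi M (phi M e)} : Finset D).card = 3 := by
  rw [Finset.card_eq_three]
  exact ⟨e, phi M e, phi M (phi M e), (phi_ne M e).symm, (phi_phi_ne M e).symm,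
    (phi_ne M (phi M e)).symm, rfl⟩

lemma fib_ge (e : D) : 3 ≤ (fib M (M.lab e)).card := by
  rw [← three_card M e]
  exact Finset.card_le_card (three_sub M e)

lemma fib_eq (e : D) (h : (fib M (M.lab e)).card = 3) :
    fib M (M.lab e) = {e, phi M e, phi M (phi M e)} := by
  symm
  apply Finset.eq_of_subset_of_card_le (three_sub M e)
  rw [three_card, h]

lemma cyc (e : D) (h : (fib M (M.lab e)).card = 3) : phi M (phi M (phi M e)) = e := by
  have h1 : phi M (phi M (phi M e)) ∈ fib M (M.lab e) := by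
    rw [mem_fib, lab_phi, lab_phi, lab_phi]
  rw [fib_eq M e h] at h1
  simp only [Finset.mem_insert, Finset.mem_singleton] at h1
  rcases h1 with h1 | h1 | h1
  · exact h1
  · exact absurd h1 (phi_phi_ne M _)
  · exact absurd h1 (phi_ne M _)

lemma card_sum : (Fintype.card D) = ∑ l ∈ Finset.univ.image M.lab, (fib M l).card := by
  rw [← Finset.card_univ]
  exact Finset.card_eq_sum_card_image M.lab Finset.univ

lemma first : 3 * (Finset.univ.image M.lab).card ≤ Fintype.card D := by
  rw [card_sum M, mul_comm, ← smul_eq_mul]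
  apply Finset.card_nsmul_le_sum
  intro l hl
  simp only [Finset.mem_image, Finset.mem_univ, true_and] at hl
  obtain ⟨e, rfl⟩ := hl
  exact fib_ge M e

/-- sign -/
noncomputable def sg (e : D) : ℤ := if (fib M (M.lab e)).card = 3 then -1 else 1

noncomputable def dd (e : D) : ℤ := if M.dbl e ∧ M.dbl (M.al e) then 1 else 0

noncomputable def db (e : D) : ℤ := if M.dbl e then 1 else 0

lemma sg_le (e : D) : sg M e ≤ 1 := by
  unfold sg; split_ifs <;> norm_num

lemma sum_nonneg (hM : ∀ e, M.dbl e → M.pt (M.al e) ≠ M.pt (M.al (M.opp e))) :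
    0 ≤ ∑ e, sg M e * dd M e := by
  have hal : Function.Involutive M.al := M.al_al
  have h1 : ∑ e, sg M e * dd M e = ∑ e, sg M (M.al e) * dd M (M.al e) :=
    (Equiv.sum_comp (hal.toPerm M.al) (fun e => sg M e * dd M e)).symm
  have h2 : ∀ e, dd M (M.al e) = dd M e := by
    intro e
    unfold dd
    rw [M.al_al]
    simp only [and_comm]
  have h3 : 0 ≤ ∑ e, (sg M e + sg M (M.al e)) * dd M e := by
    apply Finset.sum_nonneg
    intro e _
    by_cases hd : M.dbl e ∧ M.dbl (M.al e)
    · have : ¬ ((fib M (M.lab e)).card = 3 ∧ (fib M (M.lab (M.al e))).card = 3) := by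
        rintro ⟨a, b⟩
        exact key M hM e hd.1 hd.2 (cyc M e a) (cyc M _ b)
      unfold dd sg
      rw [if_pos hd]
      by_cases a : (fib M (M.lab e)).card = 3
      · by_cases b : (fib M (M.lab (M.al e))).card = 3
        · exact absurd ⟨a, b⟩ this
        · rw [if_pos a, if_neg b]; norm_num
      · rw [if_neg a]
        split_ifs <;> norm_num
    · unfold dd
      rw [if_neg hd]; simp
  have h4 : ∑ e, (sg M e + sg M (M.al e)) * dd M e
      = ∑ e, sg M e * dd M e + ∑ e, sg M (M.al e) * dd M (M.al e) := by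
    rw [← Finset.sum_add_distrib]
    apply Finset.sum_congr rfl
    intro e _
    rw [h2]; ring
  rw [h4, ← h1] at h3
  linarith

lemma face (l : Λ) (hl : l ∈ Finset.univ.image M.lab) :
    ∑ e ∈ fib M l, (db M e + sg M e * dd M e) ≤ 7 * ((fib M l).card : ℤ) - 20 := by
  simp only [Finset.mem_image, Finset.mem_univ, true_and] at hl
  obtain ⟨e, rfl⟩ := hl
  by_cases h : (fib M (M.lab e)).card = 3
  · rw [h]
    have hs : ∀ x ∈ fib M (M.lab e), db M x + sg M x * dd M x
        = db M x - db M x * db M (phi M x) := by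
      intro x hx
      rw [mem_fib] at hx
      have h1 : sg M x = -1 := by unfold sg; rw [hx, if_pos h]
      have h2 : dd M x = db M x * db M (phi M x) := by
        unfold dd db phi
        have h3 : M.dbl (M.rho (M.al x)) ↔ M.dbl (M.al x) := M.dbl_rho _
        by_cases a : M.dbl x <;> by_cases b : M.dbl (M.al x) <;> simp [a, b, h3]
      rw [h1, h2]; ring
    rw [Finset.sum_congr rfl hs, fib_eq M e h]
    rw [Finset.sum_insert, Finset.sum_insert, Finset.sum_singleton, cyc M e h]
    · have c : ∀ x, db M x = 0 ∨ db M x = 1 := by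
        intro x; unfold db; split_ifs <;> simp
      rcases c e with a | a <;> rcases c (phi M e) with b | b <;>
        rcases c (phi M (phi M e)) with d | d <;> rw [a, b, d] <;> norm_num
    · rw [Finset.mem_singleton]; exact (phi_ne M _).symm
    · simp only [Finset.mem_insert, Finset.mem_singleton, not_or]
      exact ⟨(phi_ne M e).symm, (phi_phi_ne M e).symm⟩
  · have h3 := fib_ge M e
    have h4 : 4 ≤ (fib M (M.lab e)).card := by omega
    have h5 : ∑ x ∈ fib M (M.lab e), (db M x + sg M x * dd M x)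
        ≤ ∑ x ∈ fib M (M.lab e), (2 : ℤ) := by
      apply Finset.sum_le_sum
      intro x _
      have a : db M x ≤ 1 := by unfold db; split_ifs <;> norm_num
      have b : sg M x * dd M x ≤ 1 := by
        unfold sg dd; split_ifs <;> norm_num
      linarith
    rw [Finset.sum_const, nsmul_eq_mul] at h5
    have h6 : (4 : ℤ) ≤ ((fib M (M.lab e)).card : ℤ) := by exact_mod_cast h4
    linarith

lemma second (hM : ∀ e, M.dbl e → M.pt (M.al e) ≠ M.pt (M.al (M.opp e))) :
    (Finset.univ.filter (fun e => M.dbl e)).card + 20 * (Finset.univ.image M.lab).card ≤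
      7 * Fintype.card D := by
  have h1 : ((Finset.univ.filter (fun e => M.dbl e)).card : ℤ) = ∑ e, db M e := by
    unfold db
    rw [Finset.card_filter]
    push_cast
    rfl
  have h2 : ∑ e, (db M e + sg M e * dd M e)
      = ∑ l ∈ Finset.univ.image M.lab, ∑ e ∈ fib M l, (db M e + sg M e * dd M e) := by
    unfold fib
    exact (Finset.sum_fiberwise_of_maps_to (fun e _ => Finset.mem_image_of_mem _ (Finset.mem_univ e))
      _).symm
  have h3 : ∑ l ∈ Finset.univ.image M.lab, ∑ e ∈ fib M l, (db M e + sg M e * dd M e)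
      ≤ ∑ l ∈ Finset.univ.image M.lab, (7 * ((fib M l).card : ℤ) - 20) :=
    Finset.sum_le_sum (face M)
  have h4 : ∑ l ∈ Finset.univ.image M.lab, (7 * ((fib M l).card : ℤ) - 20)
      = 7 * (Fintype.card D : ℤ) - 20 * ((Finset.univ.image M.lab).card : ℤ) := by
    rw [Finset.sum_sub_distrib, ← Finset.mul_sum, Finset.sum_const, nsmul_eq_mul]
    have := card_sum M
    have h5 : (Fintype.card D : ℤ) = ∑ l ∈ Finset.univ.image M.lab, ((fib M l).card : ℤ) := by
      rw [this]; push_cast; rfl
    rw [h5]; ring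
  have h5 := sum_nonneg M hM
  rw [Finset.sum_add_distrib] at h2
  have : (((Finset.univ.filter (fun e => M.dbl e)).card + 20 * (Finset.univ.image M.lab).card : ℕ) : ℤ)
      ≤ ((7 * Fintype.card D : ℕ) : ℤ) := by
    push_cast
    linarith
  exact_mod_cast this

end MapLeaf

theorem t_MAP : S_MAP := by
  intro D V P Λ _ M
  exact ⟨MapLeaf.first M, MapLeaf.second M⟩

end K9h61.PL
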