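import Pool.Agent.K9h61.PL.Num
import Pool.Agent.K9h61.PL.Lab
import Pool.Agent.K9h61.PL.Map

/-! Assembly: everything from LEAF B. -/

open scoped Classical

namespace K9h61.PL

theorem all_of_B (hB : S_B) : S_M ∧ S_H := by
  have hM : S_M := hB (t_C t_MAP)
  exact ⟨hM, t_H hM⟩

end K9h61.PL
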