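import Pool.Agent.K9h61.PL.Stm

/-!
# Hirzebruch's inequality for pseudoline arrangements: LEAF H

`t_H : S_M → S_H` (induction on the number of pseudolines, deletion of one pseudoline, counting of
pairs).
-/

open scoped Classical

namespace K9h61.PL

namespace LeafH

open Finset

/-- contribution of a point of multiplicity `b` to `4 f0 - f1 - t2` -/
def phi (b : ℕ) : ℤ := if b < 2 then 0 else if b = 2 then 1 else 4 - (b : ℤ)

/-- change of `phi` when a line through the point is deleted -/
def psi (b : ℕ) : ℤ := if b = 2 then 1 else if 4 ≤ b then -1 else 0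

theorem phi_sub (b : ℕ) (hb : 1 ≤ b) : phi b - phi (b - 1) = psi b := by
  obtain ⟨c, rfl⟩ : ∃ c, b = c + 1 := ⟨b - 1, by omega⟩
  have h : c + 1 - 1 = c := by omega
  rw [h]
  unfold phi psi
  split_ifs <;> omega

section count

variable {V : Type} [Fintype V] [LinearOrder V]

theorem F0_eq (A : Arr V) : (A.f0 : ℤ) =
    ∑ i ∈ range A.N, (if 2 ≤ (A.B i).card then (1 : ℤ) else 0) := by
  unfold Arr.f0 Arr.pts
  rw [card_filter]
  push_cast
  rfl

theorem F1_eq (A : Arr V) : (A.f1 : ℤ) =
    ∑ i ∈ range A.N, (if 2 ≤ (A.B i).card then ((A.B i).card : ℤ) else 0) := by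
  unfold Arr.f1 Arr.pts
  rw [sum_filter]
  push_cast
  rfl

theorem T2_eq (A : Arr V) : (A.t2 : ℤ) =
    ∑ i ∈ range A.N, (if (A.B i).card = 2 then (1 : ℤ) else 0) := by
  unfold Arr.t2 Arr.pts
  rw [filter_filter, card_filter]
  push_cast
  refine sum_congr rfl fun i _ => ?_
  by_cases h : (A.B i).card = 2
  · rw [if_pos h, if_pos ⟨by omega, h⟩]
  · rw [if_neg h, if_neg fun h2 => h h2.2]

theorem Phi_eq (A : Arr V) : 4 * (A.f0 : ℤ) - A.f1 - A.t2 =
    ∑ i ∈ range A.N, phi (A.B i).card := by
  rw [F0_eq, F1_eq, T2_eq, mul_sum, ← sum_sub_distrib, ← sum_sub_distrib]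
  refine sum_congr rfl fun i _ => ?_
  unfold phi
  split_ifs <;> omega

/-- every pair of distinct lines meets in exactly one point -/
theorem pairs (A : Arr V) (S : Finset (V × V)) (hS : ∀ p ∈ S, p.1 ≠ p.2) :
    ∑ i ∈ range A.N, (S.filter fun p => p.1 ∈ A.B i ∧ p.2 ∈ A.B i).card = S.card := by
  simp_rw [card_filter]
  rw [sum_comm, card_eq_sum_ones]
  refine sum_congr rfl fun p hp => ?_
  obtain ⟨i, hi, h1, h2⟩ := A.cross p.1 p.2 (hS p hp)
  rw [sum_eq_single i]
  · rw [if_pos ⟨h1, h2⟩]
  · intro j hj hji
    rw [if_neg]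
    rintro ⟨h3, h4⟩
    exact hji (A.uniq p.1 p.2 (hS p hp) j (mem_range.1 hj) i hi h3 h4 h1 h2)
  · intro h
    exact absurd (mem_range.2 hi) h

theorem pairs_prod (A : Arr V) (X Y : Finset V) (h : Disjoint X Y) :
    ∑ i ∈ range A.N, ((A.B i ∩ X).card : ℤ) * ((A.B i ∩ Y).card : ℤ) = X.card * Y.card := by
  have h1 := pairs A (X ×ˢ Y) (by
    rintro ⟨a, b⟩ hp hab
    rw [mem_product] at hp
    dsimp only at hab hp
    subst hab
    exact disjoint_left.1 h hp.1 hp.2)
  rw [card_product] at h1
  have h2 : ∀ i, ((X ×ˢ Y).filter fun p => p.1 ∈ A.B i ∧ p.2 ∈ A.B i).card =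
      (A.B i ∩ X).card * (A.B i ∩ Y).card := by
    intro i
    rw [← card_product]
    congr 1
    ext ⟨a, b⟩
    simp only [mem_filter, mem_product, mem_inter]
    tauto
  simp_rw [h2] at h1
  exact_mod_cast h1

theorem pairs_off (A : Arr V) (Y : Finset V) :
    ∑ i ∈ range A.N, ((A.B i ∩ Y).card : ℤ) * (((A.B i ∩ Y).card : ℤ) - 1) =
      Y.card * ((Y.card : ℤ) - 1) := by
  have h1 := pairs A Y.offDiag (by
    rintro ⟨a, b⟩ hp
    rw [mem_offDiag] at hp
    exact hp.2.2)
  have h2 : ∀ i, (Y.offDiag.filter fun p => p.1 ∈ A.B i ∧ p.2 ∈ A.B i).card =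
      (A.B i ∩ Y).offDiag.card := by
    intro i
    congr 1
    ext ⟨a, b⟩
    simp only [mem_filter, mem_offDiag, mem_inter]
    tauto
  simp_rw [h2] at h1
  have h3 : ∀ Z : Finset V, ((Z.offDiag.card : ℕ) : ℤ) = (Z.card : ℤ) * ((Z.card : ℤ) - 1) := by
    intro Z
    rw [offDiag_card, Nat.cast_sub (Nat.le_mul_self _)]
    push_cast
    ring
  rw [← h3, ← h1]
  push_cast
  exact sum_congr rfl fun i _ => (h3 _).symm

/-- deletion of a line -/
noncomputable def del (A : Arr V) (l : V) : Arr {x : V // x ≠ l} where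
  N := A.N
  B := fun i => (A.B i).subtype fun x => x ≠ l
  cross := fun x y hxy => by
    obtain ⟨i, hi, h1, h2⟩ := A.cross x y fun h => hxy (Subtype.ext h)
    exact ⟨i, hi, mem_subtype.2 h1, mem_subtype.2 h2⟩
  uniq := fun x y hxy i hi j hj h1 h2 h3 h4 =>
    A.uniq x y (fun h => hxy (Subtype.ext h)) i hi j hj (mem_subtype.1 h1) (mem_subtype.1 h2)
      (mem_subtype.1 h3) (mem_subtype.1 h4)
  convex := fun i hi x y z hx hy h1 h2 => by
    have key : ∀ a b : {x : V // x ≠ l}, below (fun i => (A.B i).subtype fun x => x ≠ l) i a b →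
        below A.B i (a : V) (b : V) := by
      intro a b h
      unfold below at h ⊢
      simp only [mem_subtype] at h
      exact h
    exact mem_subtype.2 (A.convex i hi x y z (mem_subtype.1 hx) (mem_subtype.1 hy) (key _ _ h1)
      (key _ _ h2))

theorem card_del (A : Arr V) (l : V) (i : ℕ) :
    ((del A l).B i).card = (A.B i).card - if l ∈ A.B i then 1 else 0 := by
  show ((A.B i).subtype fun x => x ≠ l).card = _
  rw [card_subtype]
  have h : (A.B i).filter (fun x => x ≠ l) = (A.B i).erase l := by
    ext x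
    simp only [mem_filter, mem_erase]
    tauto
  rw [h]
  split_ifs with hl
  · rw [card_erase_of_mem hl]
  · rw [erase_eq_of_notMem hl]
    omega

theorem Phi_del (A : Arr V) (l : V) :
    ∑ i ∈ range A.N, phi (A.B i).card - ∑ i ∈ range (del A l).N, phi ((del A l).B i).card =
      ∑ i ∈ range A.N, (if l ∈ A.B i then psi (A.B i).card else 0) := by
  show ∑ i ∈ range A.N, phi (A.B i).card - ∑ i ∈ range A.N, phi ((del A l).B i).card = _
  rw [← sum_sub_distrib]
  refine sum_congr rfl fun i _ => ?_
  rw [card_del]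
  split_ifs with hl
  · exact phi_sub _ (card_pos.2 ⟨l, hl⟩)
  · simp

theorem sum_psi (A : Arr V) (P : Finset V) :
    ∑ l ∈ P, ∑ i ∈ range A.N, (if l ∈ A.B i then psi (A.B i).card else 0) =
      ∑ i ∈ range A.N, ((A.B i ∩ P).card : ℤ) * psi (A.B i).card := by
  rw [sum_comm]
  refine sum_congr rfl fun i _ => ?_
  rw [← sum_filter, sum_const, nsmul_eq_mul]
  congr 3
  ext x
  simp only [mem_filter, mem_inter]
  tauto

end count

/-- the two inequalities used at a point which is not `P` -/
theorem loc_a (c y : ℕ) (hc : c ≤ 1) :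
    (c : ℤ) * y - c * psi (c + y) ≤ if 3 ≤ c + y then ((c + y : ℕ) : ℤ) else 0 := by
  interval_cases c
  · simp only [Nat.cast_zero, zero_mul, sub_zero, zero_add]
    split_ifs <;> positivity
  · unfold psi
    push_cast
    split_ifs <;> omega

theorem loc_b (c y : ℕ) (hc : c ≤ 1) :
    (c : ℤ) * y - c * psi (c + y) ≤ (y : ℤ) * ((y : ℤ) - 1) := by
  have h0 : (0 : ℤ) ≤ (y : ℤ) * ((y : ℤ) - 1) := by
    rcases Nat.eq_zero_or_pos y with h | h
    · subst h
      simp
    · have : (1 : ℤ) ≤ y := by exact_mod_cast h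
      nlinarith
  interval_cases c
  · simpa using h0
  · unfold psi
    push_cast
    rcases Nat.lt_or_ge y 3 with h | h
    · interval_cases y <;> norm_num
    · have h3 : (3 : ℤ) ≤ y := by exact_mod_cast h
      have e1 : ¬ (1 + y = 2) := by omega
      have e2 : 4 ≤ 1 + y := by omega
      rw [if_neg e1, if_pos e2]
      nlinarith

theorem loc_c (c y : ℕ) (hc : c ≤ 1) (hy : y ≤ 2) :
    2 * ((c : ℤ) * y) - (y : ℤ) * ((y : ℤ) - 1) ≤ 2 * phi (c + y) := by
  unfold phi
  interval_cases c <;> interval_cases y <;> norm_num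

theorem main (hM : S_M) : ∀ (k : ℕ) (V : Type) [Fintype V] [LinearOrder V] (A : Arr V),
    Fintype.card V = k → 2 ≤ k → (∀ i < A.N, (A.B i).card + 2 ≤ k) →
    (k : ℤ) ≤ ∑ i ∈ range A.N, phi (A.B i).card := by
  intro k
  induction k with
  | zero => intro V _ _ A _ h
            omega
  | succ k ih =>
    intro V _ _ A hk hk2 hB
    -- a point
    obtain ⟨x0, y0, hxy0⟩ : ∃ x y : V, x ≠ y := Fintype.exists_pair_of_one_lt_card (by omega)
    obtain ⟨i0, hi0, hx0, hy0⟩ := A.cross x0 y0 hxy0
    have hb0 : 2 ≤ (A.B i0).card := by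
      have : ({x0, y0} : Finset V) ⊆ A.B i0 := by
        intro z hz
        rw [mem_insert, mem_singleton] at hz
        rcases hz with rfl | rfl <;> assumption
      have h2 := card_le_card this
      rwa [card_pair hxy0] at h2
    have hk4 : 4 ≤ k + 1 := by
      have := hB i0 hi0
      omega
    -- the data of a point `P`
    have data : ∀ p < A.N, ∀ i < A.N, i ≠ p → (A.B i ∩ A.B p).card ≤ 1 := by
      intro p hp i hi hip
      rw [card_le_one]
      intro a ha b hb
      by_contra hab
      rw [mem_inter] at ha hb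
      exact hip (A.uniq a b hab i hi p hp ha.1 hb.1 ha.2 hb.2)
    have hsplit : ∀ p i, (A.B i).card = (A.B i ∩ A.B p).card + (A.B i ∩ (univ \ A.B p)).card := by
      intro p i
      rw [← card_union_of_disjoint]
      · congr 1
        ext x
        simp only [mem_union, mem_inter, mem_sdiff, mem_univ, true_and]
        tauto
      · rw [disjoint_left]
        intro x hx hx2
        rw [mem_inter] at hx hx2
        exact (mem_sdiff.1 hx2.2).2 hx.2
    have hYc : ∀ p, ((univ \ A.B p).card : ℤ) = (k + 1 : ℤ) - (A.B p).card := by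
      intro p
      have h1 : (univ \ A.B p).card + (A.B p).card = (univ : Finset V).card :=
        card_sdiff_add_card_eq_card (subset_univ _)
      rw [card_univ, hk] at h1
      have h2 : (((univ \ A.B p).card + (A.B p).card : ℕ) : ℤ) = ((k + 1 : ℕ) : ℤ) := by rw [h1]
      push_cast at h2
      linarith
    have hYp : ∀ p, (A.B p ∩ (univ \ A.B p)).card = 0 := by
      intro p
      rw [card_eq_zero]
      ext x
      simp only [mem_inter, mem_sdiff, mem_univ, true_and]
      tauto
    have hdis : ∀ p, Disjoint (A.B p) (univ \ A.B p) := fun p => disjoint_sdiff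
    by_cases hA : ∃ p < A.N, (A.B p).card + 2 = k + 1
    · -- a point of multiplicity `k - 2`
      obtain ⟨p, hp, hpk⟩ := hA
      set Y := univ \ A.B p with hY
      have e1 := pairs_prod A (A.B p) Y (hdis p)
      have e2 := pairs_off A Y
      have hYc' : (Y.card : ℤ) = 2 := by
        rw [hY, hYc p]
        have : (((A.B p).card + 2 : ℕ) : ℤ) = ((k + 1 : ℕ) : ℤ) := by rw [hpk]
        push_cast at this
        linarith
      have hYn : Y.card = 2 := by exact_mod_cast hYc'
      rw [hYc'] at e1 e2
      have hmem : p ∈ range A.N := mem_range.2 hp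
      rw [← add_sum_erase _ _ hmem] at e1 e2 ⊢
      have hz : (A.B p ∩ Y).card = 0 := hYp p
      rw [hz] at e1 e2
      have h5 : ∑ i ∈ (range A.N).erase p, (2 * (((A.B i ∩ A.B p).card : ℤ) * (A.B i ∩ Y).card) -
          ((A.B i ∩ Y).card : ℤ) * (((A.B i ∩ Y).card : ℤ) - 1)) ≤
          ∑ i ∈ (range A.N).erase p, 2 * phi (A.B i).card := by
        refine sum_le_sum fun i hi => ?_
        obtain ⟨h6, h7⟩ := mem_erase.1 hi
        rw [hsplit p i]
        refine loc_c _ _ (data p hp i (mem_range.1 h7) h6) ?_
        rw [← hYn]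
        exact card_le_card inter_subset_right
      rw [sum_sub_distrib, ← mul_sum, ← mul_sum] at h5
      have h8 : (4 : ℤ) - (A.B p).card ≤ phi (A.B p).card ∨
          ((A.B p).card = 2 ∧ phi (A.B p).card = 1) := by
        unfold phi
        split_ifs
        · omega
        · right
          omega
        · left
          omega
      have hk' : ((k + 1 : ℕ) : ℤ) = (A.B p).card + 2 := by exact_mod_cast hpk.symm
      rw [hk']
      have e1' : ∑ i ∈ (range A.N).erase p, ((A.B i ∩ A.B p).card : ℤ) * (A.B i ∩ Y).card =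
          (A.B p).card * 2 := by
        simpa using e1
      have e2' : ∑ i ∈ (range A.N).erase p,
          ((A.B i ∩ Y).card : ℤ) * (((A.B i ∩ Y).card : ℤ) - 1) = 2 := by
        norm_num at e2
        linarith
      have h9 : (2 : ℤ) ≤ (A.B p).card := by omega
      rcases h8 with h8 | ⟨h8, h8'⟩
      · linarith
      · have h8'' : ((A.B p).card : ℤ) = 2 := by exact_mod_cast h8
        rw [h8']
        linarith
    · -- all points have multiplicity at most `k - 3`
      by_contra hcon
      have hB3 : ∀ i < A.N, (A.B i).card + 3 ≤ k + 1 := by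
        intro i hi
        have h1 := hB i hi
        have h2 : (A.B i).card + 2 ≠ k + 1 := fun h => hA ⟨i, hi, h⟩
        omega
      have hcard : ∀ l : V, Fintype.card {x : V // x ≠ l} = k := by
        intro l
        have h1 : Fintype.card {x : V // x ≠ l} = Fintype.card V - 1 := by
          simp [Fintype.card_subtype_compl]
        rw [h1, hk]
        omega
      have h1 : ∀ l : V, ∑ i ∈ range A.N, (if l ∈ A.B i then psi (A.B i).card else 0) ≤ 0 := by
        intro l
        rw [← Phi_del]
        have h2 := ih {x : V // x ≠ l} (del A l) (hcard l) (by omega) (by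
          intro i hi
          have h3 := hB3 i hi
          have h4 := card_del A l i
          have h5 : ((del A l).B i).card ≤ (A.B i).card := by
            rw [h4]
            exact Nat.sub_le _ _
          omega)
        push_cast at hcon
        linarith
      have h1P : ∀ P : Finset V,
          ∑ i ∈ range A.N, ((A.B i ∩ P).card : ℤ) * psi (A.B i).card ≤ 0 := by
        intro P
        rw [← sum_psi]
        exact sum_nonpos fun l _ => h1 l
      -- the inequalities of `S_M`
      have hm := hM V A (by omega)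
      have m1 := hm.1 (fun i hi => by have := hB i hi; omega)
      have m2 := hm.2 (fun i hi => by have := hB i hi; omega)
      have hPhi := Phi_eq A
      by_cases h4 : ∃ p < A.N, 4 ≤ (A.B p).card
      · obtain ⟨p, hp, hp4⟩ := h4
        set Y := univ \ A.B p with hY
        have e1 := pairs_prod A (A.B p) Y (hdis p)
        have e2 := pairs_off A Y
        have e3 := h1P (A.B p)
        have hmem : p ∈ range A.N := mem_range.2 hp
        have hz : (A.B p ∩ Y).card = 0 := hYp p
        rw [← add_sum_erase _ _ hmem] at e1 e2 e3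
        rw [hz] at e1 e2
        rw [inter_self] at e3
        have hps : psi (A.B p).card = -1 := by
          unfold psi
          rw [if_neg (by omega), if_pos hp4]
        rw [hps] at e3
        have la : ∑ i ∈ (range A.N).erase p, (((A.B i ∩ A.B p).card : ℤ) * (A.B i ∩ Y).card -
            ((A.B i ∩ A.B p).card : ℤ) * psi (A.B i).card) ≤
            ∑ i ∈ (range A.N).erase p, (if 3 ≤ (A.B i).card then ((A.B i).card : ℤ) else 0) := by
          refine sum_le_sum fun i hi => ?_
          obtain ⟨h6, h7⟩ := mem_erase.1 hi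
          rw [hsplit p i]
          exact loc_a _ _ (data p hp i (mem_range.1 h7) h6)
        have lb : ∑ i ∈ (range A.N).erase p, (((A.B i ∩ A.B p).card : ℤ) * (A.B i ∩ Y).card -
            ((A.B i ∩ A.B p).card : ℤ) * psi (A.B i).card) ≤
            ∑ i ∈ (range A.N).erase p,
              ((A.B i ∩ Y).card : ℤ) * (((A.B i ∩ Y).card : ℤ) - 1) := by
          refine sum_le_sum fun i hi => ?_
          obtain ⟨h6, h7⟩ := mem_erase.1 hi
          have := loc_b _ (A.B i ∩ Y).card (data p hp i (mem_range.1 h7) h6)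
          rw [← hsplit p i] at this
          exact this
        rw [sum_sub_distrib] at la lb
        -- names
        set r : ℤ := ((A.B p).card : ℤ) with hr
        set s : ℤ := (Y.card : ℤ) with hs
        have hrs : r + s = k + 1 := by
          rw [hs, hY, hYc p]
          ring
        have hr4 : 4 ≤ r := by rw [hr]; exact_mod_cast hp4
        have hs3 : 3 ≤ s := by
          have := hB3 p hp
          have h6 : (((A.B p).card + 3 : ℕ) : ℤ) ≤ ((k + 1 : ℕ) : ℤ) := by exact_mod_cast this
          push_cast at h6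
          linarith
        have q1 : r * s ≤ r + s * (s - 1) := by
          simp only [Nat.cast_zero, mul_zero, zero_mul, zero_add] at e1 e2
          linarith
        have q2 : r ≤ s := by nlinarith
        have q3 : 4 * (r + s) - 16 ≤ r * s := by nlinarith
        have q4 : r * s ≤ ∑ i ∈ range A.N, (if 3 ≤ (A.B i).card then ((A.B i).card : ℤ) else 0) := by
          rw [← add_sum_erase _ _ hmem, if_pos (by omega)]
          simp only [Nat.cast_zero, mul_zero, zero_add] at e1
          linarith
        have q5 : ∑ i ∈ range A.N, (if 3 ≤ (A.B i).card then ((A.B i).card : ℤ) else 0) =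
            A.f1 - 2 * A.t2 := by
          rw [F1_eq, T2_eq, mul_sum, ← sum_sub_distrib]
          refine sum_congr rfl fun i _ => ?_
          split_ifs <;> omega
        rw [← hPhi] at hcon
        rw [q5] at q4
        push_cast at hcon
        have m1' : (A.f1 : ℤ) + 3 ≤ 3 * A.f0 := by exact_mod_cast m1
        have m2' : 2 * (A.t2 : ℤ) + 3 * A.f1 + 10 ≤ 10 * A.f0 := by exact_mod_cast m2
        have hcon' : 4 * (A.f0 : ℤ) - A.f1 - A.t2 + 1 ≤ k + 1 := by
          have := not_le.1 hcon
          omega
        linarith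
      · have hb3 : ∀ i < A.N, (A.B i).card ≤ 3 := by
          intro i hi
          by_contra h
          exact h4 ⟨i, hi, by omega⟩
        have e3 := h1P univ
        have q : 3 * (A.f0 : ℤ) - A.f1 ≤
            ∑ i ∈ range A.N, ((A.B i ∩ univ).card : ℤ) * psi (A.B i).card := by
          rw [F0_eq, F1_eq, mul_sum, ← sum_sub_distrib]
          refine sum_le_sum fun i hi => ?_
          have h5 := hb3 i (mem_range.1 hi)
          rw [inter_univ]
          generalize (A.B i).card = b at h5 ⊢
          unfold psi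
          interval_cases b <;> norm_num
        have m1' : (A.f1 : ℤ) + 3 ≤ 3 * A.f0 := by exact_mod_cast m1
        linarith

end LeafH

/-- LEAF H: Hirzebruch's inequality from `S_M` -/
theorem t_H (h : S_M) : S_H := by
  intro V _ _ A hV hB
  have h1 := LeafH.main h (Fintype.card V) V A rfl hV hB
  rw [← LeafH.Phi_eq] at h1
  have h2 : ((Fintype.card V + A.f1 + A.t2 : ℕ) : ℤ) ≤ ((4 * A.f0 : ℕ) : ℤ) := by
    push_cast
    linarith
  exact_mod_cast h2

end K9h61.PL
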