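import Pool.Agent.K9h61.PL.H2

/-!
# Exponent 2, strict version (after `H2.lean` of helper99, with other constants)
-/

open scoped Classical

namespace K9h61.PL

/-- strict version of `S_H2` -/
def S_H2s : Prop := ∀ (V : Type) [Fintype V] [LinearOrder V] (A : Arr V), 2 ≤ Fintype.card V →
  (∀ i < A.N, (A.B i).card + 3 ≤ Fintype.card V) →
  Fintype.card V + 1 + 2 * A.f1 + 4 * A.t2 ≤ 9 * A.f0

namespace LeafH2s

open Finset LeafH LeafH2

theorem final (k R s T M S : ℤ) (hS : 0 ≤ S) (hk : R + s = k) (hs : 4 ≤ s)
    (h3 : T + 3 * M - 2 * S ≤ k) (h1 : T ≤ 3 * M + S) (h4 : 4 * S + 15 ≤ 2 * T + 3 * M)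
    (hR : 0 ≤ R) (hp : k * (k - 1) ≤ 2 * T + 6 * M + (R + 2) * S) (hv : R * s ≤ R - 1 + 4 * M + S)
    (ha : 6 * (R * s - 2 * R) ≤ 5 * (s * (s - 1))) : False := by
  have hM : 3 * M ≤ 2 * k - 15 := by linarith
  have hS2 : S ≤ 3 * k - 30 := by omega
  have hk11 : 10 ≤ k := by omega
  have hp2 : k * (k - 1) ≤ 4 * (2 * k - 15) + (R + 4) * (3 * k - 30) := by
    have e1 : (R + 4) * S ≤ (R + 4) * (3 * k - 30) := mul_le_mul_of_nonneg_left hS2 (by linarith)
    nlinarith
  have hR6 : 6 ≤ R := by
    by_contra h
    have h6 : R ≤ 5 := by omega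
    have e1 : (R + 4) * (3 * k - 30) ≤ 9 * (3 * k - 30) :=
      mul_le_mul_of_nonneg_right (by linarith) (by linarith)
    nlinarith [sq_nonneg (k - 18)]
  have hv2 : 3 * (R * s) ≤ 3 * R - 3 + 4 * (2 * k - 15) + 3 * (3 * k - 30) := by linarith
  rcases eq_or_lt_of_le hR6 with h6 | h6
  · rw [← h6] at hv2 hk
    linarith
  have hR7 : 7 ≤ R := by omega
  have hs7 : 7 ≤ s := by
    by_contra h
    have h6 : s ≤ 6 := by omega
    have e1 : 7 * (s - 2) ≤ R * (s - 2) := mul_le_mul_of_nonneg_right hR7 (by linarith)
    have e2 : (5 * s - 12) * (s - 7) < 0 := by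
      apply mul_neg_of_pos_of_neg <;> linarith
    nlinarith
  have e3 : 0 ≤ (R - 7) * (s - 7) := mul_nonneg (by linarith) (by linarith)
  nlinarith

theorem main (hM : S_M) (hM2 : S_M2) : ∀ (k : ℕ) (V : Type) [Fintype V] [LinearOrder V]
    (A : Arr V), Fintype.card V = k → 2 ≤ k → (∀ i < A.N, (A.B i).card + 3 ≤ k) →
    (k : ℤ) + 1 ≤ ∑ i ∈ range A.N, phi2 (A.B i).card := by
  intro k
  induction k with
  | zero => intro V _ _ A _ h
            omega
  | succ k ih =>
    intro V _ _ A hk hk2 hB
    -- a point
    obtain ⟨x0, y0, hxy0⟩ : ∃ x y : V, x ≠ y := Fintype.exists_pair_of_one_lt_card (by omega)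
    obtain ⟨i0, hi0, hx0, hy0⟩ := A.cross x0 y0 hxy0
    have hb0 : 2 ≤ (A.B i0).card := by
      have : ({x0, y0} : Finset V) ⊆ A.B i0 := by
        intro z hz
        rw [mem_insert, mem_singleton] at hz
        rcases hz with rfl | rfl <;> assumption
      have h2 := card_le_card this
      rwa [card_pair hxy0] at h2
    have hk5 : 5 ≤ k + 1 := by
      have := hB i0 hi0
      omega
    -- the data of a point `P`
    have data : ∀ p < A.N, ∀ i < A.N, i ≠ p → (A.B i ∩ A.B p).card ≤ 1 := by
      intro p hp i hi hip
      rw [card_le_one]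
      intro a ha b hb
      by_contra hab
      rw [mem_inter] at ha hb
      exact hip (A.uniq a b hab i hi p hp ha.1 hb.1 ha.2 hb.2)
    have hsplit : ∀ p i, (A.B i).card = (A.B i ∩ A.B p).card + (A.B i ∩ (univ \ A.B p)).card := by
      intro p i
      rw [← card_union_of_disjoint]
      · congr 1
        ext x
        simp only [mem_union, mem_inter, mem_sdiff, mem_univ, true_and]
        tauto
      · rw [disjoint_left]
        intro x hx hx2
        rw [mem_inter] at hx hx2
        exact (mem_sdiff.1 hx2.2).2 hx.2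
    have hYc : ∀ p, ((univ \ A.B p).card : ℤ) = (k + 1 : ℤ) - (A.B p).card := by
      intro p
      have h1 : (univ \ A.B p).card + (A.B p).card = (univ : Finset V).card :=
        card_sdiff_add_card_eq_card (subset_univ _)
      rw [card_univ, hk] at h1
      have h2 : (((univ \ A.B p).card + (A.B p).card : ℕ) : ℤ) = ((k + 1 : ℕ) : ℤ) := by rw [h1]
      push_cast at h2
      linarith
    have hYp : ∀ p, (A.B p ∩ (univ \ A.B p)).card = 0 := by
      intro p
      rw [card_eq_zero]
      ext x
      simp only [mem_inter, mem_sdiff, mem_univ, true_and]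
      tauto
    have hdis : ∀ p, Disjoint (A.B p) (univ \ A.B p) := fun p => disjoint_sdiff
    by_cases hA : ∃ p < A.N, (A.B p).card + 3 = k + 1
    · -- a point of multiplicity `k - 3`
      obtain ⟨p, hp, hpk⟩ := hA
      set Y := univ \ A.B p with hY
      have e1 := pairs_prod A (A.B p) Y (hdis p)
      have e2 := pairs_off A Y
      have hYc' : (Y.card : ℤ) = 3 := by
        rw [hY, hYc p]
        have : (((A.B p).card + 3 : ℕ) : ℤ) = ((k + 1 : ℕ) : ℤ) := by rw [hpk]
        push_cast at this
        linarith
      have hYn : Y.card = 3 := by exact_mod_cast hYc'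
      rw [hYc'] at e1 e2
      have hmem : p ∈ range A.N := mem_range.2 hp
      rw [← add_sum_erase _ _ hmem] at e1 e2 ⊢
      have hz : (A.B p ∩ Y).card = 0 := hYp p
      rw [hz] at e1 e2
      have h5 : ∑ i ∈ (range A.N).erase p, (3 * (((A.B i ∩ A.B p).card : ℤ) * (A.B i ∩ Y).card) -
          ((A.B i ∩ Y).card : ℤ) * (((A.B i ∩ Y).card : ℤ) - 1)) ≤
          ∑ i ∈ (range A.N).erase p, 3 * phi2 (A.B i).card := by
        refine sum_le_sum fun i hi => ?_
        obtain ⟨h6, h7⟩ := mem_erase.1 hi
        rw [hsplit p i]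
        refine loc_c _ _ (data p hp i (mem_range.1 h7) h6) ?_
        rw [← hYn]
        exact card_le_card inter_subset_right
      rw [sum_sub_distrib, ← mul_sum, ← mul_sum] at h5
      have h8 : (9 : ℤ) - 2 * (A.B p).card ≤ phi2 (A.B p).card ∧ 3 ≤ (A.B p).card ∨
          ((A.B p).card = 2 ∧ phi2 (A.B p).card = 1) := by
        unfold phi2
        split_ifs
        · omega
        · right
          omega
        · left
          omega
      have hk' : ((k + 1 : ℕ) : ℤ) = (A.B p).card + 3 := by exact_mod_cast hpk.symm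
      rw [hk']
      have e1' : ∑ i ∈ (range A.N).erase p, ((A.B i ∩ A.B p).card : ℤ) * (A.B i ∩ Y).card =
          (A.B p).card * 3 := by
        simpa using e1
      have e2' : ∑ i ∈ (range A.N).erase p,
          ((A.B i ∩ Y).card : ℤ) * (((A.B i ∩ Y).card : ℤ) - 1) = 6 := by
        norm_num at e2
        linarith
      rw [e1', e2'] at h5
      rcases h8 with ⟨h8, -⟩ | ⟨h8, h8'⟩
      · linarith
      · have e6 := pairs_off A univ
        rw [card_univ, hk] at e6
        have e7 : ∑ i ∈ range A.N, ((A.B i ∩ univ).card : ℤ) * (((A.B i ∩ univ).card : ℤ) - 1) ≤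
            ∑ i ∈ range A.N, 2 * phi2 (A.B i).card := by
          refine sum_le_sum fun i hi => ?_
          have h9 := hB i (mem_range.1 hi)
          have h10 : (A.B i).card ≤ 2 := by omega
          rw [inter_univ]
          generalize (A.B i).card = b at h10
          unfold phi2
          interval_cases b <;> norm_num
        rw [← mul_sum, e6, ← add_sum_erase _ _ hmem] at e7
        have h11 : k = 4 := by omega
        subst h11
        have h8'' : ((A.B p).card : ℤ) = 2 := by exact_mod_cast h8
        rw [h8'']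
        norm_num at e7
        omega
    · -- all points have multiplicity at most `k - 4`
      by_contra hcon
      have hB4 : ∀ i < A.N, (A.B i).card + 4 ≤ k + 1 := by
        intro i hi
        have h1 := hB i hi
        have h2 : (A.B i).card + 3 ≠ k + 1 := fun h => hA ⟨i, hi, h⟩
        omega
      have hcard : ∀ l : V, Fintype.card {x : V // x ≠ l} = k := by
        intro l
        have h1 : Fintype.card {x : V // x ≠ l} = Fintype.card V - 1 := by
          simp [Fintype.card_subtype_compl]
        rw [h1, hk]
        omega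
      have h1 : ∀ l : V, ∑ i ∈ range A.N, (if l ∈ A.B i then psi2 (A.B i).card else 0) ≤ 0 := by
        intro l
        rw [← Phi2_del]
        have h2 := ih {x : V // x ≠ l} (del A l) (hcard l) (by omega) (by
          intro i hi
          have h3 := hB4 i hi
          have h4 := card_del A l i
          have h5 : ((del A l).B i).card ≤ (A.B i).card := by
            rw [h4]
            exact Nat.sub_le _ _
          omega)
        push_cast at hcon
        linarith
      have h1P : ∀ P : Finset V,
          ∑ i ∈ range A.N, ((A.B i ∩ P).card : ℤ) * psi2 (A.B i).card ≤ 0 := by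
        intro P
        rw [← sum_psi2]
        exact sum_nonpos fun l _ => h1 l
      -- the inequalities
      have m1 := (hM V A (by omega)).1 (fun i hi => by have := hB i hi; omega)
      have m2 := hM2 V A (by omega) (fun i hi => by have := hB i hi; omega)
      have hPhi := Phi2_eq A
      set T : ℤ := (A.t2 : ℤ) with hT
      set M : ℤ := ∑ i ∈ range A.N, (if 3 ≤ (A.B i).card then (1 : ℤ) else 0) with hMd
      set S : ℤ := ∑ i ∈ range A.N, (if 4 ≤ (A.B i).card then ((A.B i).card : ℤ) - 3 else 0)
        with hSd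
      have hS0 : 0 ≤ S := sum_nonneg fun i _ => by split_ifs <;> omega
      have q0 : (A.f0 : ℤ) = T + M := by
        rw [hT, hMd, F0_eq, T2_eq, ← sum_add_distrib]
        refine sum_congr rfl fun i _ => ?_
        split_ifs <;> omega
      have q1 : (A.f1 : ℤ) = 2 * T + 3 * M + S := by
        rw [hT, hMd, hSd, F1_eq, T2_eq, mul_sum, mul_sum, ← sum_add_distrib, ← sum_add_distrib]
        refine sum_congr rfl fun i _ => ?_
        split_ifs <;> omega
      have m1' : (A.f1 : ℤ) + 3 ≤ 3 * A.f0 := by exact_mod_cast m1
      have m2' : 5 * (A.t2 : ℤ) + 4 * A.f1 + 15 ≤ 15 * A.f0 := by exact_mod_cast m2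
      rw [← hT] at m2'
      have qi : T ≤ 3 * M + S := by
        have e3 := h1P univ
        have e4 : 2 * T - 6 * M - 2 * S ≤
            ∑ i ∈ range A.N, ((A.B i ∩ univ).card : ℤ) * psi2 (A.B i).card := by
          rw [hT, hMd, hSd, T2_eq, mul_sum, mul_sum, mul_sum, ← sum_sub_distrib,
            ← sum_sub_distrib]
          refine sum_le_sum fun i _ => ?_
          rw [inter_univ]
          generalize (A.B i).card = b
          unfold psi2
          rcases Nat.lt_or_ge b 4 with h | h
          · interval_cases b <;> norm_num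
          · have g1 : ¬ b = 2 := by omega
            have g2 : ¬ b = 3 := by omega
            have g3 : 3 ≤ b := by omega
            rw [if_neg g1, if_pos g3, if_pos h, if_neg g1, if_neg g2, if_pos h]
            linarith
        linarith
      -- a point of maximal multiplicity
      obtain ⟨p, hp', hmax⟩ := exists_max_image (range A.N) (fun i => (A.B i).card)
        ⟨i0, mem_range.2 hi0⟩
      have hp := mem_range.1 hp'
      have hp4 : 4 ≤ (A.B p).card := by
        by_contra h4
        have e3 := h1P univ
        have e4 : 2 * T ≤ ∑ i ∈ range A.N, ((A.B i ∩ univ).card : ℤ) * psi2 (A.B i).card := by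
          rw [hT, T2_eq, mul_sum]
          refine sum_le_sum fun i hi => ?_
          have h5 := hmax i hi
          rw [inter_univ]
          beta_reduce at h5
          have h6 : (A.B i).card ≤ 3 := by omega
          generalize (A.B i).card = b at h6
          unfold psi2
          interval_cases b <;> norm_num
        linarith
      set Y := univ \ A.B p with hY
      have e1 := pairs_prod A (A.B p) Y (hdis p)
      have e2 := pairs_off A Y
      have e3 := h1P (A.B p)
      have e5 := pairs_off A univ
      have hz : (A.B p ∩ Y).card = 0 := hYp p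
      rw [← add_sum_erase _ _ hp'] at e1 e2 e3
      rw [hz] at e1 e2
      rw [inter_self] at e3
      have hps : psi2 (A.B p).card = -2 := by
        unfold psi2
        rw [if_neg (by omega), if_neg (by omega), if_pos hp4]
      rw [hps] at e3
      have la : ∑ i ∈ (range A.N).erase p, (((A.B i ∩ A.B p).card : ℤ) * (A.B i ∩ Y).card -
          ((A.B i ∩ A.B p).card : ℤ) * psi2 (A.B i).card) ≤
          ∑ i ∈ (range A.N).erase p,
            (if 4 ≤ (A.B i).card then ((A.B i).card : ℤ) + 1 else 0) := by
        refine sum_le_sum fun i hi => ?_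
        obtain ⟨h6, h7⟩ := mem_erase.1 hi
        rw [hsplit p i]
        exact LeafH2.loc_a _ _ (data p hp i (mem_range.1 h7) h6)
      have lb : ∑ i ∈ (range A.N).erase p, 6 * (((A.B i ∩ A.B p).card : ℤ) * (A.B i ∩ Y).card -
          ((A.B i ∩ A.B p).card : ℤ) * psi2 (A.B i).card) ≤
          ∑ i ∈ (range A.N).erase p,
            5 * (((A.B i ∩ Y).card : ℤ) * (((A.B i ∩ Y).card : ℤ) - 1)) := by
        refine sum_le_sum fun i hi => ?_
        obtain ⟨h6, h7⟩ := mem_erase.1 hi
        have := LeafH2.loc_b _ (A.B i ∩ Y).card (data p hp i (mem_range.1 h7) h6)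
        rw [← hsplit p i] at this
        exact this
      rw [← mul_sum, ← mul_sum] at lb
      rw [sum_sub_distrib] at la lb
      have lt : ∑ i ∈ range A.N, (if 4 ≤ (A.B i).card then ((A.B i).card : ℤ) + 1 else 0) ≤
          4 * M + S := by
        rw [hMd, hSd, mul_sum, ← sum_add_distrib]
        refine sum_le_sum fun i _ => ?_
        split_ifs <;> omega
      rw [← add_sum_erase _ _ hp', if_pos hp4] at lt
      have lp : ∑ i ∈ range A.N, ((A.B i ∩ univ).card : ℤ) * (((A.B i ∩ univ).card : ℤ) - 1) ≤
          2 * T + 6 * M + (((A.B p).card : ℤ) + 2) * S := by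
        rw [hT, hMd, hSd, T2_eq, mul_sum, mul_sum, mul_sum, ← sum_add_distrib, ← sum_add_distrib]
        refine sum_le_sum fun i hi => ?_
        rw [inter_univ]
        exact loc_p _ _ (hmax i hi)
      rw [e5, card_univ, hk] at lp
      set R : ℤ := ((A.B p).card : ℤ) with hR
      set s : ℤ := (Y.card : ℤ) with hs
      have hrs : R + s = ((k + 1 : ℕ) : ℤ) := by
        rw [hs, hY, hYc p]
        push_cast
        ring
      have hs4 : 4 ≤ s := by
        have := hB4 p hp
        have h6 : (((A.B p).card + 4 : ℕ) : ℤ) ≤ ((k + 1 : ℕ) : ℤ) := by exact_mod_cast this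
        push_cast at h6 hrs
        linarith
      simp only [Nat.cast_zero, mul_zero, zero_mul, zero_add] at e1 e2
      refine final ((k + 1 : ℕ) : ℤ) R s T M S hS0 hrs hs4 ?_ qi ?_ (by omega) lp ?_ ?_
      · rw [← hPhi, q0, q1] at hcon
        have := not_le.1 hcon
        linarith
      · rw [q0, q1] at m2'
        linarith
      · linarith
      · linarith

end LeafH2s

/-- exponent 2, strict -/
theorem t_H2s (hM : S_M) (hM2 : S_M2) : S_H2s := by
  intro V _ _ A hV hB
  have h1 := LeafH2s.main hM hM2 (Fintype.card V) V A rfl hV hB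
  rw [← LeafH2.Phi2_eq] at h1
  have h2 : ((Fintype.card V + 1 + 2 * A.f1 + 4 * A.t2 : ℕ) : ℤ) ≤ ((9 * A.f0 : ℕ) : ℤ) := by
    push_cast
    linarith
  exact_mod_cast h2

end K9h61.PL
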