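import Pool.Agent.K9h61.PL.Map

/-! A second inequality for combinatorial maps (quadrangular faces). -/

open scoped Classical

namespace K9h61.PL

namespace MapLeaf

variable {D V P Λ : Type} (M : CMap D V P Λ)

lemma quad (hK3 : ∀ g, M.dbl g → M.dbl (M.al (M.opp g)) →
      M.pt (M.al g) ≠ M.pt (M.al (M.opp (M.al (M.opp g)))))
    (e0 : D) (hc : phi M (phi M (phi M (phi M e0))) = e0)
    (d0 : M.dbl e0) (d1 : M.dbl (M.al e0))
    (d2 : M.dbl (phi M (phi M e0))) (d3 : M.dbl (M.al (phi M (phi M e0))))
    (t0 : phi M (phi M (phi M (M.al e0))) = M.al e0)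
    (t2 : phi M (phi M (phi M (M.al (phi M (phi M e0))))) = M.al (phi M (phi M e0))) : False := by
  obtain ⟨e1, he1⟩ : ∃ e1, e1 = M.rho (M.al e0) := ⟨_, rfl⟩
  obtain ⟨e2, he2⟩ : ∃ e2, e2 = M.rho (M.al e1) := ⟨_, rfl⟩
  obtain ⟨e3, he3⟩ : ∃ e3, e3 = M.rho (M.al e2) := ⟨_, rfl⟩
  have p2 : phi M (phi M e0) = e2 := by rw [he2, he1]; rfl
  rw [p2] at d2 d3 t2
  have hc' : M.rho (M.al e3) = e0 := by rw [he3, he2, he1]; exact hc
  -- the triangle across e0
  obtain ⟨f2, hf2⟩ : ∃ f2, f2 = M.rho (M.al (M.rho e0)) := ⟨_, rfl⟩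
  have t0' : M.rho (M.al f2) = M.al e0 := by
    have h5 : phi M (phi M (phi M (M.al e0))) =
      M.rho (M.al (M.rho (M.al (M.rho (M.al (M.al e0)))))) := rfl
    rw [M.al_al] at h5
    rw [hf2, ← h5]; exact t0
  have hg : M.dbl (M.al f2) := by rw [← M.dbl_rho, t0']; exact d1
  have ho : M.opp (M.al f2) = e1 := by rw [← M.rho2 _ hg, t0', he1]
  have a3 : M.dbl (M.al e3) := by rw [← M.dbl_rho, hc']; exact d0
  have r0 : M.rho e0 = M.opp (M.al e3) := by rw [← M.rho2 _ a3, hc']
  -- the triangle across e2
  obtain ⟨f2', hf2'⟩ : ∃ f2', f2' = M.rho (M.al (M.rho e2)) := ⟨_, rfl⟩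
  have t2' : M.rho (M.al f2') = M.al e2 := by
    have h5 : phi M (phi M (phi M (M.al e2))) =
      M.rho (M.al (M.rho (M.al (M.rho (M.al (M.al e2)))))) := rfl
    rw [M.al_al] at h5
    rw [hf2', ← h5]; exact t2
  have hg' : M.dbl (M.al f2') := by rw [← M.dbl_rho, t2']; exact d3
  have ho' : M.opp (M.al f2') = e3 := by rw [← M.rho2 _ hg', t2', he3]
  have a1 : M.dbl (M.al e1) := by rw [← M.dbl_rho, ← he2]; exact d2
  have r2 : M.rho e2 = M.opp (M.al e1) := by rw [← M.rho2 _ a1, ← he2]
  have q1 : M.pt f2 = M.pt (M.al (M.rho e0)) := by rw [hf2]; exact M.pt_rho _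
  have q2 : M.pt (M.al (M.rho e2)) = M.pt f2' := by rw [hf2']; exact (M.pt_rho _).symm
  have q3 : M.ln f2 = M.ln (M.al (M.rho e2)) := by
    have h1 : M.ln f2 = M.ln e1 := by rw [← M.ln_al f2, ← M.ln_opp (M.al f2), ho]
    have h2 : M.ln (M.al (M.rho e2)) = M.ln e1 := by rw [M.ln_al, r2, M.ln_opp, M.ln_al]
    rw [h1, h2]
  have q4 : M.ln (M.al (M.rho e0)) = M.ln f2' := by
    have h1 : M.ln f2' = M.ln e3 := by rw [← M.ln_al f2', ← M.ln_opp (M.al f2'), ho']
    have h2 : M.ln (M.al (M.rho e0)) = M.ln e3 := by rw [M.ln_al, r0, M.ln_opp, M.ln_al]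
    rw [h1, h2]
  have q5 : M.ln f2 ≠ M.ln (M.al (M.rho e0)) := by rw [hf2]; exact M.ln_rho _
  have hu := M.uniq f2 (M.al (M.rho e0)) (M.al (M.rho e2)) f2' q1 q2 q3 q4 q5
  -- K3
  refine hK3 (M.al f2) hg (by rw [ho]; exact a1) ?_
  rw [M.al_al, ho, ← r2]
  exact hu

lemma phi_inj (hI : Function.Injective M.rho) : Function.Injective (phi M) := by
  intro a b h
  have h1 : M.al a = M.al b := hI h
  have h2 := congrArg M.al h1
  rwa [M.al_al, M.al_al] at h2

variable [Fintype D]

lemma phi_mem {l : Λ} {x : D} (h : x ∈ fib M l) : phi M x ∈ fib M l := by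
  rw [mem_fib] at h ⊢
  rw [lab_phi, h]

lemma four (hI : Function.Injective M.rho) (e : D) (h : (fib M (M.lab e)).card = 4) :
    fib M (M.lab e) = {e, phi M e, phi M (phi M e), phi M (phi M (phi M e))} ∧
      phi M (phi M (phi M (phi M e))) = e ∧ phi M (phi M (phi M e)) ≠ e := by
  have m0 : e ∈ fib M (M.lab e) := by rw [mem_fib]
  have m1 := phi_mem M m0
  have m2 := phi_mem M m1
  have m3 := phi_mem M m2
  have m4 := phi_mem M m3
  have h3 : phi M (phi M (phi M e)) ≠ e := by
    intro h3
    obtain ⟨x, hx, hx'⟩ : ∃ x ∈ fib M (M.lab e), x ∉ ({e, phi M e, phi M (phi M e)} : Finset D) := by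
      by_contra hcon
      push_neg at hcon
      have := Finset.card_le_card (show fib M (M.lab e) ⊆ {e, phi M e, phi M (phi M e)} from
        fun y hy => hcon y hy)
      rw [three_card, h] at this
      omega
    have hx4 : ({x, e, phi M e, phi M (phi M e)} : Finset D) = fib M (M.lab e) := by
      apply Finset.eq_of_subset_of_card_le
      · intro y hy
        rw [Finset.mem_insert] at hy
        rcases hy with rfl | hy
        · exact hx
        · exact three_sub M e hy
      · rw [Finset.card_insert_of_notMem hx', three_card, h]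
    have hpx := phi_mem M hx
    rw [← hx4] at hpx
    simp only [Finset.mem_insert, Finset.mem_singleton] at hpx hx'
    push_neg at hx'
    rcases hpx with h1 | h1 | h1 | h1
    · exact phi_ne M x h1
    · exact hx'.2.2 (phi_inj M hI (h1.trans h3.symm))
    · exact hx'.1 (phi_inj M hI h1)
    · exact hx'.2.1 (phi_inj M hI h1)
  have c4 : ({e, phi M e, phi M (phi M e), phi M (phi M (phi M e))} : Finset D).card = 4 := by
    rw [Finset.card_eq_four]
    exact ⟨e, phi M e, phi M (phi M e), phi M (phi M (phi M e)), (phi_ne M e).symm,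
      (phi_phi_ne M e).symm, h3.symm, (phi_ne M (phi M e)).symm, (phi_phi_ne M (phi M e)).symm,
      (phi_ne M (phi M (phi M e))).symm, rfl⟩
  have hF : fib M (M.lab e) = {e, phi M e, phi M (phi M e), phi M (phi M (phi M e))} := by
    symm
    apply Finset.eq_of_subset_of_card_le
    · intro y hy
      simp only [Finset.mem_insert, Finset.mem_singleton] at hy
      rcases hy with rfl | rfl | rfl | rfl
      · exact m0
      · exact m1
      · exact m2
      · exact m3
    · rw [c4, h]
  refine ⟨hF, ?_, h3⟩
  rw [hF] at m4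
  simp only [Finset.mem_insert, Finset.mem_singleton] at m4
  rcases m4 with h1 | h1 | h1 | h1
  · exact h1
  · exact absurd (phi_inj M hI h1) h3
  · exact absurd h1 (phi_phi_ne M _)
  · exact absurd h1 (phi_ne M _)

/-- triangular face -/
noncomputable def qq (e : D) : ℤ := if (fib M (M.lab e)).card = 3 then 1 else 0

/-- weight -/
noncomputable def ww (e : D) : ℤ := 5 * db M e + 4 * (dd M e * (qq M (M.al e) - qq M e))

lemma sum_ww : ∑ e, ww M e = 5 * ∑ e, db M e := by
  have hal : Function.Involutive M.al := M.al_al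
  have h2 : ∀ e, dd M (M.al e) = dd M e := by
    intro e
    unfold dd
    rw [M.al_al]
    simp only [and_comm]
  have h1 : ∑ e, dd M e * qq M (M.al e) = ∑ e, dd M e * qq M e := by
    have := (Equiv.sum_comp (hal.toPerm M.al) (fun e => dd M e * qq M e)).symm
    rw [this]
    apply Finset.sum_congr rfl
    intro e _
    show _ = dd M (M.al e) * qq M (M.al e)
    rw [h2]
  have h3 : ∑ e, ww M e = 5 * ∑ e, db M e + 4 * (∑ e, dd M e * qq M (M.al e) -
      ∑ e, dd M e * qq M e) := by
    rw [Finset.mul_sum, ← Finset.sum_sub_distrib, Finset.mul_sum, ← Finset.sum_add_distrib]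
    apply Finset.sum_congr rfl
    intro e _
    unfold ww
    ring
  rw [h3, h1]
  ring

lemma db01 (x : D) : db M x = 0 ∨ db M x = 1 := by unfold db; split_ifs <;> simp

lemma face2 (hM : ∀ e, M.dbl e → M.pt (M.al e) ≠ M.pt (M.al (M.opp e)))
    (hI : Function.Injective M.rho)
    (hK3 : ∀ g, M.dbl g → M.dbl (M.al (M.opp g)) →
      M.pt (M.al g) ≠ M.pt (M.al (M.opp (M.al (M.opp g)))))
    (l : Λ) (hl : l ∈ Finset.univ.image M.lab) :
    ∑ e ∈ fib M l, ww M e ≤ 22 * ((fib M l).card : ℤ) - 60 := by
  simp only [Finset.mem_image, Finset.mem_univ, true_and] at hl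
  obtain ⟨e, rfl⟩ := hl
  have hge := fib_ge M e
  rcases Nat.lt_or_ge 4 (fib M (M.lab e)).card with h5 | h5
  · have h6 : ∑ x ∈ fib M (M.lab e), ww M x ≤ ∑ x ∈ fib M (M.lab e), (9 : ℤ) := by
      apply Finset.sum_le_sum
      intro x _
      have a : db M x ≤ 1 := by unfold db; split_ifs <;> norm_num
      have b : dd M x * (qq M (M.al x) - qq M x) ≤ 1 := by
        unfold dd qq; split_ifs <;> norm_num
      unfold ww
      linarith
    rw [Finset.sum_const, nsmul_eq_mul] at h6
    have h7 : (5 : ℤ) ≤ ((fib M (M.lab e)).card : ℤ) := by exact_mod_cast h5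
    linarith
  · rcases Nat.lt_or_ge 3 (fib M (M.lab e)).card with h4 | h4
    · -- quadrangles
      have h4' : (fib M (M.lab e)).card = 4 := by omega
      obtain ⟨hF, hc, h3⟩ := four M hI e h4'
      have hall : ∀ x ∈ fib M (M.lab e), ww M x = 5 * db M x + 4 * (dd M x * qq M (M.al x)) := by
        intro x hx
        rw [mem_fib] at hx
        have : qq M x = 0 := by
          unfold qq; rw [hx, if_neg (by omega)]
        unfold ww
        rw [this]; ring
      have pairs : ∀ x : D, phi M (phi M (phi M (phi M x))) = x →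
          dd M x * qq M (M.al x) +
            dd M (phi M (phi M x)) * qq M (M.al (phi M (phi M x))) ≤ 1 := by
        intro x hx
        by_contra hcon
        push_neg at hcon
        have b1 : dd M x = 1 ∧ qq M (M.al x) = 1 := by
          unfold dd qq at hcon ⊢
          split_ifs at hcon ⊢ <;> simp_all
        have b2 : dd M (phi M (phi M x)) = 1 ∧ qq M (M.al (phi M (phi M x))) = 1 := by
          unfold dd qq at hcon ⊢
          split_ifs at hcon ⊢ <;> simp_all
        have c1 : M.dbl x ∧ M.dbl (M.al x) := by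
          by_contra hh
          have := b1.1
          unfold dd at this
          rw [if_neg hh] at this
          exact absurd this (by norm_num)
        have c2 : M.dbl (phi M (phi M x)) ∧ M.dbl (M.al (phi M (phi M x))) := by
          by_contra hh
          have := b2.1
          unfold dd at this
          rw [if_neg hh] at this
          exact absurd this (by norm_num)
        have g1 : (fib M (M.lab (M.al x))).card = 3 := by
          by_contra hh
          have := b1.2
          unfold qq at this
          rw [if_neg hh] at this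
          exact absurd this (by norm_num)
        have g2 : (fib M (M.lab (M.al (phi M (phi M x))))).card = 3 := by
          by_contra hh
          have := b2.2
          unfold qq at this
          rw [if_neg hh] at this
          exact absurd this (by norm_num)
        exact quad M hK3 x hx c1.1 c1.2 c2.1 c2.2 (cyc M _ g1) (cyc M _ g2)
      have s1 := pairs e hc
      have s2 := pairs (phi M e) (by rw [hc])
      have v : ∀ x, db M x ≤ 1 := by
        intro x; unfold db; split_ifs <;> norm_num
      rw [Finset.sum_congr rfl hall, h4', hF]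
      rw [Finset.sum_insert, Finset.sum_insert, Finset.sum_insert, Finset.sum_singleton]
      · have := v e
        have := v (phi M e)
        have := v (phi M (phi M e))
        have := v (phi M (phi M (phi M e)))
        push_cast
        linarith
      · rw [Finset.mem_singleton]; exact (phi_ne M _).symm
      · simp only [Finset.mem_insert, Finset.mem_singleton, not_or]
        exact ⟨(phi_ne M _).symm, (phi_phi_ne M _).symm⟩
      · simp only [Finset.mem_insert, Finset.mem_singleton, not_or]
        exact ⟨(phi_ne M e).symm, (phi_phi_ne M e).symm, h3.symm⟩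
    · -- triangles
      have h : (fib M (M.lab e)).card = 3 := by omega
      rw [h]
      have hs : ∀ x ∈ fib M (M.lab e), ww M x = 5 * db M x - 4 * (db M x * db M (phi M x)) := by
        intro x hx
        rw [mem_fib] at hx
        have h1 : qq M x = 1 := by unfold qq; rw [hx, if_pos h]
        have h2 : dd M x = db M x * db M (phi M x) := by
          unfold dd db phi
          have h3 : M.dbl (M.rho (M.al x)) ↔ M.dbl (M.al x) := M.dbl_rho _
          by_cases a : M.dbl x <;> by_cases b : M.dbl (M.al x) <;> simp [a, b, h3]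
        have h3 : dd M x * qq M (M.al x) = 0 := by
          by_cases hd : M.dbl x ∧ M.dbl (M.al x)
          · have : ¬ (fib M (M.lab (M.al x))).card = 3 := by
              intro b
              exact key M hM x hd.1 hd.2 (cyc M x (by rw [hx]; exact h)) (cyc M _ b)
            unfold qq
            rw [if_neg this, mul_zero]
          · unfold dd
            rw [if_neg hd, zero_mul]
        unfold ww
        rw [mul_sub, h3, h1, h2]; ring
      rw [Finset.sum_congr rfl hs, fib_eq M e h]
      rw [Finset.sum_insert, Finset.sum_insert, Finset.sum_singleton, cyc M e h]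
      · rcases db01 M e with a | a <;> rcases db01 M (phi M e) with b | b <;>
          rcases db01 M (phi M (phi M e)) with d | d <;> rw [a, b, d] <;> norm_num
      · rw [Finset.mem_singleton]; exact (phi_ne M _).symm
      · simp only [Finset.mem_insert, Finset.mem_singleton, not_or]
        exact ⟨(phi_ne M e).symm, (phi_phi_ne M e).symm⟩

theorem third (hM : ∀ e, M.dbl e → M.pt (M.al e) ≠ M.pt (M.al (M.opp e)))
    (hI : Function.Injective M.rho)
    (hK3 : ∀ g, M.dbl g → M.dbl (M.al (M.opp g)) →
      M.pt (M.al g) ≠ M.pt (M.al (M.opp (M.al (M.opp g))))) :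
    5 * (Finset.univ.filter (fun e => M.dbl e)).card + 60 * (Finset.univ.image M.lab).card ≤
      22 * Fintype.card D := by
  have h1 : ((Finset.univ.filter (fun e => M.dbl e)).card : ℤ) = ∑ e, db M e := by
    unfold db
    rw [Finset.card_filter]
    push_cast
    rfl
  have h2 : ∑ e, ww M e = ∑ l ∈ Finset.univ.image M.lab, ∑ e ∈ fib M l, ww M e := by
    unfold fib
    exact (Finset.sum_fiberwise_of_maps_to (fun e _ => Finset.mem_image_of_mem _ (Finset.mem_univ e))
      _).symm
  have h3 : ∑ l ∈ Finset.univ.image M.lab, ∑ e ∈ fib M l, ww M e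
      ≤ ∑ l ∈ Finset.univ.image M.lab, (22 * ((fib M l).card : ℤ) - 60) :=
    Finset.sum_le_sum (face2 M hM hI hK3)
  have h4 : ∑ l ∈ Finset.univ.image M.lab, (22 * ((fib M l).card : ℤ) - 60)
      = 22 * (Fintype.card D : ℤ) - 60 * ((Finset.univ.image M.lab).card : ℤ) := by
    rw [Finset.sum_sub_distrib, ← Finset.mul_sum, Finset.sum_const, nsmul_eq_mul]
    have := card_sum M
    have h5 : (Fintype.card D : ℤ) = ∑ l ∈ Finset.univ.image M.lab, ((fib M l).card : ℤ) := by
      rw [this]; push_cast; rfl
    rw [h5]; ring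
  have h5 := sum_ww M
  have : ((5 * (Finset.univ.filter (fun e => M.dbl e)).card +
      60 * (Finset.univ.image M.lab).card : ℕ) : ℤ) ≤ ((22 * Fintype.card D : ℕ) : ℤ) := by
    push_cast
    linarith
  exact_mod_cast this

end MapLeaf

end K9h61.PL
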