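import Pool.Agent.K9h61.PL.Lab
import Pool.Agent.K9h61.PL.Map2
import Pool.Agent.K9h61.PL.Stm2

/-! The third inequality in the cyclic form. -/

open scoped Classical

namespace K9h61.PL

namespace Cyc

variable {V : Type} [Fintype V] {N : ℕ} [NeZero (2 * N)] (A : Cyc V N)

theorem K3_aux (hp : ∀ T, (A.B T).card + 3 ≤ Fintype.card V) {U : ZMod (2 * N)} {x : V}
    (h : A.occ U x) (h2 : (A.B U).card = 2)
    (h3 : (A.B (U - (A.bw U x : ZMod (2 * N)))).card = 2) :
    pnt (N := N) (U + (A.fw U x : ZMod (2 * N))) ≠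
      pnt (U - (A.bw U x : ZMod (2 * N)) -
        (A.bw (U - (A.bw U x : ZMod (2 * N))) x : ZMod (2 * N))) := by
  intro he
  have hp1 : ∀ T, (A.B T).card + 1 ≤ Fintype.card V := fun T => by have := hp T; omega
  have hp2 : ∀ T, (A.B T).card + 2 ≤ Fintype.card V := fun T => by have := hp T; omega
  obtain ⟨a0, a1, a2, _⟩ := A.fw_spec h
  obtain ⟨b0, b1, b2, _⟩ := A.bw_spec h
  have halt := A.fw_lt hp1 h
  have hblt := A.bw_lt hp1 h
  have hne := A.fw_add_bw hp2 h h2
  set a := A.fw U x with ha
  set b := A.bw U x with hb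
  set U1 := U - (b : ZMod (2 * N)) with hU1
  obtain ⟨c0, c1, c2, _⟩ := A.bw_spec b1
  set c := A.bw U1 x with hc
  have hab : a ≤ N - b := by
    by_contra hh
    apply a2 (N - b) (by omega) (by omega)
    rw [Nat.cast_sub (by omega)]
    rw [show U + ((N : ZMod (2 * N)) - (b : ZMod (2 * N))) = U1 + (N : ZMod (2 * N)) by
      rw [hU1]; ring]
    exact A.occ_N.2 b1
  have hcab : c ≤ N - a - b := by
    by_contra hh
    apply c2 (N - a - b) (by omega) (by omega)
    rw [Nat.cast_sub (by omega), Nat.cast_sub (by omega)]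
    rw [show U1 - ((N : ZMod (2 * N)) - (a : ZMod (2 * N)) - (b : ZMod (2 * N))) =
      U + (a : ZMod (2 * N)) - (N : ZMod (2 * N)) by rw [hU1]; ring]
    rw [subN]
    exact A.occ_N.2 a1
  rw [pnt_eq_iff] at he
  have hsum : a + b + c = N := by
    rcases he with he | he
    · have h1 : ((a + b + c : ℕ) : ZMod (2 * N)) = 0 := by
        push_cast
        have h4 : U1 - (c : ZMod (2 * N)) - U + (b : ZMod (2 * N)) + (c : ZMod (2 * N)) = 0 := by
          rw [hU1]; ring
        rw [he] at h4
        rw [← h4]; ring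
      have := Nat.le_of_dvd (by omega) (natCast_eq_zero h1)
      omega
    · have h1 : ((a + b + c + N : ℕ) : ZMod (2 * N)) = 0 := by
        push_cast
        have h4 : U1 - (c : ZMod (2 * N)) - U + (b : ZMod (2 * N)) + (c : ZMod (2 * N)) = 0 := by
          rw [hU1]; ring
        rw [he] at h4
        rw [← h4]; ring
      obtain ⟨q, hq⟩ := natCast_eq_zero h1
      have : q = 1 := by
        have h5 : q < 2 := by
          by_contra hh
          have : 2 * N * 2 ≤ 2 * N * q := Nat.mul_le_mul_left _ (by omega)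
          omega
        have h6 : q ≠ 0 := by rintro rfl; omega
        omega
      subst this
      omega
  have hall : ∀ y : V, y ≠ x → y ∈ A.B (U + (a : ZMod (2 * N))) ∨ y ∈ A.B U ∨ y ∈ A.B U1 := by
    intro y hyx
    obtain ⟨j, hj, hjN, h5, h6⟩ := A.cross_window hyx.symm (U1 - (c : ZMod (2 * N)))
    have h7 := A.occ_of_mem2 hyx.symm h5 h6
    rcases Nat.lt_trichotomy j c with h8 | h8 | h8
    · exfalso
      apply c2 (c - j) (by omega) (by omega)
      rw [Nat.cast_sub (by omega)]
      rw [show U1 - ((c : ZMod (2 * N)) - (j : ZMod (2 * N))) =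
        U1 - (c : ZMod (2 * N)) + (j : ZMod (2 * N)) by ring]
      exact h7
    · right; right
      rw [h8] at h6
      simpa using h6
    · rcases Nat.lt_trichotomy j (c + b) with h9 | h9 | h9
      · exfalso
        apply b2 (c + b - j) (by omega) (by omega)
        rw [Nat.cast_sub (by omega), Nat.cast_add]
        rw [show U - ((c : ZMod (2 * N)) + (b : ZMod (2 * N)) - (j : ZMod (2 * N))) =
          U1 - (c : ZMod (2 * N)) + (j : ZMod (2 * N)) by rw [hU1]; ring]
        exact h7
      · right; left
        rw [h9] at h6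
        rw [show U1 - (c : ZMod (2 * N)) + ((c + b : ℕ) : ZMod (2 * N)) = U by
          rw [hU1]; push_cast; ring] at h6
        exact h6
      · left
        have h10 : j = c + b + a := by
          by_contra hne'
          apply a2 (j - (c + b)) (by omega) (by omega)
          rw [Nat.cast_sub (by omega), Nat.cast_add]
          rw [show U + ((j : ZMod (2 * N)) - ((c : ZMod (2 * N)) + (b : ZMod (2 * N)))) =
            U1 - (c : ZMod (2 * N)) + (j : ZMod (2 * N)) by rw [hU1]; ring]
          exact h7
        rw [h10] at h6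
        rw [show U1 - (c : ZMod (2 * N)) + ((c + b + a : ℕ) : ZMod (2 * N)) =
          U + (a : ZMod (2 * N)) by rw [hU1]; push_cast; ring] at h6
        exact h6
  have h5 : (Finset.univ : Finset V) ⊆ A.B (U + (a : ZMod (2 * N))) ∪ ((A.B U).erase x ∪
      (A.B U1).erase x) := by
    intro y _
    rw [Finset.mem_union, Finset.mem_union, Finset.mem_erase, Finset.mem_erase]
    rcases eq_or_ne y x with rfl | hne'
    · exact Or.inl a1.1
    · rcases hall y hne' with h6 | h6 | h6
      · exact Or.inl h6
      · exact Or.inr (Or.inl ⟨hne', h6⟩)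
      · exact Or.inr (Or.inr ⟨hne', h6⟩)
  have h6 := (Finset.card_le_card h5).trans (Finset.card_union_le _ _)
  have h7 := Finset.card_union_le ((A.B U).erase x) ((A.B U1).erase x)
  rw [Finset.card_erase_of_mem h.1, Finset.card_erase_of_mem b1.1, h2, h3] at h7
  rw [Finset.card_univ] at h6
  have := hp (U + (a : ZMod (2 * N)))
  omega

theorem K3 (hp : ∀ T, (A.B T).card + 3 ≤ Fintype.card V) (g : A.Dart)
    (h2 : (A.B g.1.1).card = 2) (h3 : (A.B (A.al (A.opp g)).1.1).card = 2) :
    pnt (N := N) (A.al g).1.1 ≠ pnt (A.al (A.opp (A.al (A.opp g)))).1.1 := by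
  obtain ⟨⟨T, x, b⟩, h⟩ := g
  have hx : A.occ T x := h
  change (A.B T).card = 2 at h2
  cases b
  · change (A.B (A.alV (T, x, !false)).1).card = 2 at h3
    have e1 : A.alV (T, x, !false) = (T + (A.fw T x : ZMod (2 * N)), x, false) := by
      rw [Bool.not_false, alV_true]
    rw [e1] at h3
    have e2 : (A.al (A.opp (A.al (A.opp ⟨(T, x, false), h⟩)))).1.1 =
        (T + (A.fw T x : ZMod (2 * N))) +
          (A.fw (T + (A.fw T x : ZMod (2 * N))) x : ZMod (2 * N)) := by
      show (A.alV ((A.alV (T, x, !false)).1, (A.alV (T, x, !false)).2.1,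
        !(A.alV (T, x, !false)).2.2)).1 = _
      rw [e1]
      show (A.alV (T + (A.fw T x : ZMod (2 * N)), x, !false)).1 = _
      rw [Bool.not_false, alV_true]
    have e3 : (A.al ⟨(T, x, false), h⟩).1.1 = T - (A.bw T x : ZMod (2 * N)) := by
      show (A.alV (T, x, false)).1 = _
      rw [alV_false]
    rw [e2, e3]
    have h4 := A.fw_spec hx
    have h5 := A.K3_aux hp h4.2.1 h3 (by rw [A.bw_fw hx, add_sub_cancel_right]; exact h2)
    rw [A.bw_fw hx, add_sub_cancel_right] at h5
    exact h5.symm
  · change (A.B (A.alV (T, x, !true)).1).card = 2 at h3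
    have e1 : A.alV (T, x, !true) = (T - (A.bw T x : ZMod (2 * N)), x, true) := by
      rw [Bool.not_true, alV_false]
    rw [e1] at h3
    have e2 : (A.al (A.opp (A.al (A.opp ⟨(T, x, true), h⟩)))).1.1 =
        (T - (A.bw T x : ZMod (2 * N))) -
          (A.bw (T - (A.bw T x : ZMod (2 * N))) x : ZMod (2 * N)) := by
      show (A.alV ((A.alV (T, x, !true)).1, (A.alV (T, x, !true)).2.1,
        !(A.alV (T, x, !true)).2.2)).1 = _
      rw [e1]
      show (A.alV (T - (A.bw T x : ZMod (2 * N)), x, !true)).1 = _
      rw [Bool.not_true, alV_false]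
    have e3 : (A.al ⟨(T, x, true), h⟩).1.1 = T + (A.fw T x : ZMod (2 * N)) := by
      show (A.alV (T, x, true)).1 = _
      rw [alV_true]
    rw [e2, e3]
    exact A.K3_aux hp hx h2 h3

theorem rho_inj : Function.Injective A.rho := by
  rintro ⟨⟨T, x, b⟩, h⟩ ⟨⟨T', x', b'⟩, h'⟩ hh
  have hx : A.occ T x := h
  have hx' : A.occ T' x' := h'
  have hT : T = T' := by
    have := congrArg (fun e : A.Dart => e.1.1) hh
    simp only [A.rho_time] at this
    exact this
  subst hT
  have hv : A.rhoV (T, x, b) = A.rhoV (T, x', b') := congrArg Subtype.val hh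
  have r1 := A.rk_lt hx.1
  have r2 := A.rk_lt hx'.1
  have hcard : 0 < (A.B T).card := by omega
  have key : x = x' ∧ b = b' := by
    by_cases hj : A.rk T x + 1 < (A.B T).card
    · by_cases hj' : A.rk T x' + 1 < (A.B T).card
      · rw [A.rhoV_pos hj, A.rhoV_pos hj'] at hv
        simp only [Prod.mk.injEq, true_and] at hv
        have s1 := (A.el_spec x hj).2
        have s2 := (A.el_spec x' hj').2
        rw [hv.1, s2] at s1
        exact ⟨A.rk_inj hx.1 hx'.1 (by omega), hv.2⟩
      · rw [A.rhoV_pos hj, A.rhoV_neg hj'] at hv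
        simp only [Prod.mk.injEq, true_and] at hv
        have s1 := (A.el_spec x hj).2
        have s2 := (A.el_spec x' hcard).2
        rw [hv.1, s2] at s1
        omega
    · by_cases hj' : A.rk T x' + 1 < (A.B T).card
      · rw [A.rhoV_neg hj, A.rhoV_pos hj'] at hv
        simp only [Prod.mk.injEq, true_and] at hv
        have s1 := (A.el_spec x hcard).2
        have s2 := (A.el_spec x' hj').2
        rw [hv.1, s2] at s1
        omega
      · rw [A.rhoV_neg hj, A.rhoV_neg hj'] at hv
        simp only [Prod.mk.injEq, true_and] at hv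
        exact ⟨A.rk_inj hx.1 hx'.1 (by omega), Bool.not_inj hv.2⟩
  obtain ⟨rfl, rfl⟩ := key
  rfl

end Cyc

/-- the third inequality in the cyclic form -/
theorem t_C2 : S_C2 := by
  intro V _ N _ A hk hp
  have hp2 : ∀ T, (A.B T).card + 2 ≤ Fintype.card V := fun T => by have := hp T; omega
  have hp' : ∀ T, (A.B T).card + 1 ≤ Fintype.card V := fun T => by have := hp T; omega
  have h1 := MapLeaf.third (A.cmap hp') (fun e he => A.K2 hp2 e he) A.rho_inj
    (fun g h2 h3 => A.K3 hp g h2 h3)
  have key : ∀ (inst : DecidableEq (ℕ × ZMod (2 * N))),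
      ((∑ T ∈ (Finset.univ : Finset (ZMod (2 * N))).filter (fun T => 2 ≤ (A.B T).card),
        ((A.B T).card - 1)) + 2) ≤
        (@Finset.image _ _ inst (A.cmap hp').lab Finset.univ).card := by
    intro inst
    rw [← A.card_allfaces hk]
    apply Finset.card_le_card
    intro p h
    obtain ⟨e, he⟩ := A.allfaces_sub hk h
    rw [Finset.mem_image]
    exact ⟨e, Finset.mem_univ _, he⟩
  have h2 := key (fun a b => Classical.propDecidable (a = b))
  have hD : Fintype.card A.Dart =
      ∑ T ∈ (Finset.univ : Finset (ZMod (2 * N))).filter (fun T => 2 ≤ (A.B T).card),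
        2 * (A.B T).card := by
    have := A.card_dart (fun _ => True)
    simp only [Finset.filter_true, true_and] at this
    rw [← this, Finset.card_univ]
  rw [← Finset.mul_sum] at hD
  have hsum : (∑ T ∈ (Finset.univ : Finset (ZMod (2 * N))).filter (fun T => 2 ≤ (A.B T).card),
        ((A.B T).card - 1)) +
      ((Finset.univ : Finset (ZMod (2 * N))).filter (fun T => 2 ≤ (A.B T).card)).card =
      ∑ T ∈ (Finset.univ : Finset (ZMod (2 * N))).filter (fun T => 2 ≤ (A.B T).card),
        (A.B T).card := by
    rw [Finset.card_eq_sum_ones, ← Finset.sum_add_distrib]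
    apply Finset.sum_congr rfl
    intro T hT
    rw [Finset.mem_filter] at hT
    omega
  have h6 : (Finset.univ.filter (fun e => (A.cmap hp').dbl e)).card =
      4 * ((Finset.univ : Finset (ZMod (2 * N))).filter (fun T => (A.B T).card = 2)).card := by
    have h7 : (Finset.univ.filter (fun e => (A.cmap hp').dbl e)) =
        (Finset.univ.filter (fun e : A.Dart => (fun T => (A.B T).card = 2) e.1.1)) := by
      ext e
      rw [Finset.mem_filter, Finset.mem_filter]
      exact Iff.rfl
    rw [h7]
    refine Eq.trans (Eq.trans ?_ (A.card_dart (fun T => (A.B T).card = 2))) ?_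
    · congr
    calc _ = ∑ T ∈ (Finset.univ : Finset (ZMod (2 * N))).filter (fun T => (A.B T).card = 2), 4 := by
          refine Finset.sum_congr ?_ ?_
          · ext T
            simp only [Finset.mem_filter, Finset.mem_univ, true_and]
            constructor
            · exact fun h => h.1
            · exact fun h => ⟨h, h.ge⟩
          · intro T hT
            rw [(Finset.mem_filter.1 hT).2]
      _ = _ := by rw [Finset.sum_const, smul_eq_mul, mul_comm]
  rw [hD, h6] at h1
  omega

end K9h61.PL
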