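import Pool.Agent.K9h61.PL.H

/-! All exponents `n ≥ 3` from Hirzebruch's inequality (`n = 3`). -/

open scoped Classical

namespace K9h61.PL

namespace Num

open Finset LeafH

/-- final numerical argument for large `k` -/
theorem large {κ D h S : ℤ} (hκ : 11 ≤ κ) (hD : 0 ≤ D) (hh : 0 ≤ h) (hS : 0 ≤ S)
    (hY : κ ^ 2 - κ + 4 * D ≤ 6 * h + S ^ 2 + 7 * S) : 2 * κ ≤ 6 * h + 3 * S + 2 * D := by
  by_contra hc
  push_neg at hc
  have h1 : κ ^ 2 - 3 * κ + 6 * D < S ^ 2 + 4 * S := by nlinarith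
  have h2 : 3 * S < 2 * κ := by linarith
  have h3 : 9 * (S ^ 2 + 4 * S) ≤ 4 * κ ^ 2 + 24 * κ := by
    nlinarith
  nlinarith

/-- from the key inequality to the polynomial -/
theorem poly {n κ D h S : ℤ} (hn : 3 ≤ n) (hh : 0 ≤ h) (hS : 0 ≤ S)
    (hX : 2 * κ ≤ 6 * h + 3 * S + 2 * D) :
    0 ≤ (n - 1) * (n - 3) * (h + S) + 4 * h - 2 * (n - 3) * (κ - D) := by
  have h0 : 0 ≤ n - 3 := by linarith
  rcases eq_or_lt_of_le h0 with h3 | h3
  · rw [← h3]; linarith
  · have h4 : 1 ≤ n - 3 := h3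
    have h5 : 0 ≤ (n - 3) * (n - 4) := mul_nonneg h0 (by linarith)
    have h6 : 0 ≤ (n - 3) * ((6 * h + 3 * S + 2 * D) - 2 * κ) := mul_nonneg h0 (by linarith)
    have h7 : 0 ≤ h * (n - 5) ^ 2 := mul_nonneg hh (sq_nonneg _)
    have h8 : 0 ≤ (n - 3) * (n - 4) * S := mul_nonneg h5 hS
    nlinarith

variable {V : Type} [Fintype V] [LinearOrder V]

/-- number of points of multiplicity `r` -/
noncomputable def tt (A : Arr V) (r : ℕ) : ℤ :=
  ∑ i ∈ range A.N, (if (A.B i).card = r then (1 : ℤ) else 0)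

/-- number of points of multiplicity at least 3 -/
noncomputable def mm (A : Arr V) : ℤ :=
  ∑ i ∈ range A.N, (if 3 ≤ (A.B i).card then (1 : ℤ) else 0)

/-- excess -/
noncomputable def SS (A : Arr V) : ℤ :=
  ∑ i ∈ range A.N, (if 4 ≤ (A.B i).card then ((A.B i).card : ℤ) - 3 else 0)

/-- quadratic excess -/
noncomputable def QQ (A : Arr V) : ℤ :=
  ∑ i ∈ range A.N, (if 4 ≤ (A.B i).card then
    (((A.B i).card : ℤ) - 3) * (((A.B i).card : ℤ) + 2) else 0)

theorem f0_eq (A : Arr V) : (A.f0 : ℤ) = A.t2 + mm A := by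
  rw [F0_eq, T2_eq, mm, ← sum_add_distrib]
  refine sum_congr rfl fun i _ => ?_
  split_ifs <;> omega

theorem f1_eq (A : Arr V) : (A.f1 : ℤ) = 2 * A.t2 + 3 * mm A + SS A := by
  rw [F1_eq, T2_eq, mm, SS, mul_sum, mul_sum, ← sum_add_distrib, ← sum_add_distrib]
  refine sum_congr rfl fun i _ => ?_
  split_ifs <;> omega

theorem pair_eq (A : Arr V) : (Fintype.card V : ℤ) * ((Fintype.card V : ℤ) - 1) =
    2 * A.t2 + 6 * mm A + QQ A := by
  have h := pairs_off A Finset.univ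
  rw [Finset.card_univ] at h
  rw [← h, T2_eq, mm, QQ, mul_sum, mul_sum, ← sum_add_distrib, ← sum_add_distrib]
  refine sum_congr rfl fun i _ => ?_
  have h1 : A.B i ∩ Finset.univ = A.B i := by
    ext x; simp
  rw [h1]
  generalize (A.B i).card = b
  rcases Nat.lt_or_ge b 4 with hb | hb
  · interval_cases b <;> norm_num
  · rw [if_neg (by omega), if_pos (by omega), if_pos (by omega)]
    push_cast
    ring

theorem SS_nonneg (A : Arr V) : 0 ≤ SS A := by
  unfold SS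
  refine sum_nonneg fun i _ => ?_
  split_ifs <;> omega

theorem le_SS (A : Arr V) {i : ℕ} (hi : i ∈ range A.N) (h4 : 4 ≤ (A.B i).card) :
    ((A.B i).card : ℤ) - 3 ≤ SS A := by
  have h := Finset.single_le_sum (s := range A.N)
    (f := fun i => (if 4 ≤ (A.B i).card then ((A.B i).card : ℤ) - 3 else 0))
    (fun j _ => by
      by_cases hj : 4 ≤ (A.B j).card
      · simp only [hj, if_true]; omega
      · simp only [hj, if_false]; exact le_rfl) hi
  simp only [h4, if_true] at h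
  exact h

theorem QQ_le (A : Arr V) : QQ A ≤ (SS A + 5) * SS A := by
  have e : (SS A + 5) * SS A = ∑ i ∈ range A.N, (SS A + 5) *
      (if 4 ≤ (A.B i).card then ((A.B i).card : ℤ) - 3 else 0) := by
    rw [← mul_sum]; rfl
  rw [e]
  unfold QQ
  refine sum_le_sum fun i hi => ?_
  by_cases h4 : 4 ≤ (A.B i).card
  · rw [if_pos h4, if_pos h4]
    have h := le_SS A hi h4
    have h5 : (0 : ℤ) ≤ ((A.B i).card : ℤ) - 3 := by omega
    have : ((A.B i).card : ℤ) + 2 ≤ SS A + 5 := by linarith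
    nlinarith
  · rw [if_neg h4, if_neg h4, mul_zero]

theorem small_eq (A : Arr V) (h : SS A ≤ 6) :
    SS A = tt A 4 + 2 * tt A 5 + 3 * tt A 6 + 4 * tt A 7 + 5 * tt A 8 + 6 * tt A 9 ∧
    QQ A = 6 * tt A 4 + 14 * tt A 5 + 24 * tt A 6 + 36 * tt A 7 + 50 * tt A 8 + 66 * tt A 9 ∧
    mm A = tt A 3 + tt A 4 + tt A 5 + tt A 6 + tt A 7 + tt A 8 + tt A 9 := by
  have hb : ∀ i ∈ range A.N, (A.B i).card ≤ 9 := by
    intro i hi
    by_contra hh
    have := le_SS A hi (by omega)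
    omega
  refine ⟨?_, ?_, ?_⟩
  · unfold SS tt
    simp only [mul_sum, ← sum_add_distrib]
    refine sum_congr rfl fun i hi => ?_
    have := hb i hi
    generalize (A.B i).card = b at this ⊢
    interval_cases b <;> norm_num
  · unfold QQ tt
    simp only [mul_sum, ← sum_add_distrib]
    refine sum_congr rfl fun i hi => ?_
    have := hb i hi
    generalize (A.B i).card = b at this ⊢
    interval_cases b <;> norm_num
  · unfold mm tt
    simp only [← sum_add_distrib]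
    refine sum_congr rfl fun i hi => ?_
    have := hb i hi
    generalize (A.B i).card = b at this ⊢
    interval_cases b <;> norm_num

theorem tt_nonneg (A : Arr V) (r : ℕ) : 0 ≤ tt A r := by
  unfold tt
  refine sum_nonneg fun i _ => ?_
  split_ifs <;> norm_num

theorem small {k m D S Q t2 t3 t4 t5 t6 t7 t8 t9 : ℤ} (hk1 : 4 ≤ k) (hk : k ≤ 13)
    (h3 : 0 ≤ t3) (h4 : 0 ≤ t4) (h5 : 0 ≤ t5) (h6 : 0 ≤ t6) (h7 : 0 ≤ t7) (h8 : 0 ≤ t8)
    (h9 : 0 ≤ t9) (hD : 0 ≤ D)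
    (hS : S = t4 + 2 * t5 + 3 * t6 + 4 * t7 + 5 * t8 + 6 * t9)
    (hQ : Q = 6 * t4 + 14 * t5 + 24 * t6 + 36 * t7 + 50 * t8 + 66 * t9)
    (hm : m = t3 + t4 + t5 + t6 + t7 + t8 + t9)
    (ht : t2 = 3 + D + S) (hH : k - 3 ≤ m + D) (hd : S + 4 ≤ m + 2 * D)
    (hp : k * (k - 1) = 2 * t2 + 6 * m + Q) :
    2 * (k - 3) ≤ 6 * (m + D - (k - 3)) + 3 * S + 2 * D := by
  by_contra hc
  push_neg at hc
  have hS0 : 0 ≤ S := by omega
  have hS6 : S ≤ 6 := by omega
  have b9 : t9 ≤ 1 := by omega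
  have b8 : t8 ≤ 1 := by omega
  have b7 : t7 ≤ 1 := by omega
  have b6 : t6 ≤ 2 := by omega
  have b5 : t5 ≤ 3 := by omega
  have b4 : t4 ≤ 6 := by omega
  interval_cases k <;> first
    | omega
    | (interval_cases S <;> first
      | omega
      | (interval_cases t5 <;> first
        | omega
        | (interval_cases t4 <;> omega)))

end Num

/-- all exponents `n ≥ 3` -/
theorem all_exponents (hM : S_M) (hH : S_H) (V : Type) [Fintype V] [LinearOrder V] (A : Arr V)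
    (hV : 2 ≤ Fintype.card V) (hB : ∀ i < A.N, (A.B i).card + 2 ≤ Fintype.card V)
    (n : ℤ) (hn : 3 ≤ n) :
    0 ≤ n ^ 2 * ((A.f0 : ℤ) - Fintype.card V) + 2 * n * (Fintype.card V - A.f1 + A.f0) +
      2 * A.f1 + A.f0 - Fintype.card V - 4 * A.t2 := by
  have h1 : (A.f1 : ℤ) + 3 ≤ 3 * A.f0 := by
    exact_mod_cast (hM V A hV).1 (fun i hi => by have := hB i hi; omega)
  have h2 : 2 * (A.t2 : ℤ) + 3 * A.f1 + 10 ≤ 10 * A.f0 := by
    exact_mod_cast (hM V A hV).2 hB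
  have h3 : (Fintype.card V : ℤ) + A.f1 + A.t2 ≤ 4 * A.f0 := by exact_mod_cast hH V A hV hB
  have e0 := Num.f0_eq A
  have e1 := Num.f1_eq A
  have e2 := Num.pair_eq A
  have hS := Num.SS_nonneg A
  have hQ := Num.QQ_le A
  -- at least four lines
  have hk4 : 4 ≤ Fintype.card V := by
    obtain ⟨x, y, hxy⟩ := Fintype.one_lt_card_iff.1 hV
    obtain ⟨i, hi, hx, hy⟩ := A.cross x y hxy
    have := Finset.one_lt_card.2 ⟨x, hx, y, hy, hxy⟩
    have := hB i hi
    omega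
  set k : ℤ := (Fintype.card V : ℤ) with hk
  have hk4' : (4 : ℤ) ≤ k := by rw [hk]; exact_mod_cast hk4
  set D : ℤ := 3 * A.f0 - A.f1 - 3 with hD
  have hD0 : 0 ≤ D := by omega
  have ht : (A.t2 : ℤ) = 3 + D + Num.SS A := by omega
  have hH' : k - 3 ≤ Num.mm A + D := by omega
  have hd : Num.SS A + 4 ≤ Num.mm A + 2 * D := by omega
  have hX : 2 * (k - 3) ≤ 6 * (Num.mm A + D - (k - 3)) + 3 * Num.SS A + 2 * D := by
    rcases le_or_gt k 13 with hk13 | hk13
    · rcases le_or_gt (Num.SS A) 6 with hS6 | hS6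
      · obtain ⟨s1, s2, s3⟩ := Num.small_eq A hS6
        exact Num.small hk4' hk13 (Num.tt_nonneg A 3) (Num.tt_nonneg A 4) (Num.tt_nonneg A 5)
          (Num.tt_nonneg A 6) (Num.tt_nonneg A 7) (Num.tt_nonneg A 8) (Num.tt_nonneg A 9) hD0
          s1 s2 s3 ht hH' hd e2
      · omega
    · apply Num.large (by omega) hD0 (by omega) hS
      nlinarith
  have hP := Num.poly hn (κ := k - 3) (D := D) (h := Num.mm A + D - (k - 3)) (by omega) hS hX
  have e3 : (A.f0 : ℤ) = 3 + D + Num.SS A + Num.mm A := by omega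
  have e4 : (A.f1 : ℤ) = 2 * (3 + D + Num.SS A) + 3 * Num.mm A + Num.SS A := by omega
  rw [e3, e4, ht]
  nlinarith

end K9h61.PL
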