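import Pool.Agent.K9h61.PL.Stm
import Pool.Agent.K9h61.PL.StmMap

/-! Positions in the cyclic form. -/

open scoped Classical

namespace K9h61.PL

namespace Cyc

variable {V : Type} [Fintype V] {N : ℕ} (A : Cyc V N)

/-- position of `x` just before time `T` -/
noncomputable def pos (T : ZMod (2 * N)) (x : V) : ℕ :=
  (Finset.univ.filter (fun y => A.lt T y x)).card

/-- rank of `x` in the block at time `T` -/
noncomputable def rk (T : ZMod (2 * N)) (x : V) : ℕ :=
  ((A.B T).filter (fun y => A.lt T y x)).card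

/-- number of elements outside of the block and below `x` -/
noncomputable def out (T : ZMod (2 * N)) (x : V) : ℕ :=
  (Finset.univ.filter (fun y => y ∉ A.B T ∧ A.lt T y x)).card

theorem asymm {T : ZMod (2 * N)} {x y : V} (h : A.lt T x y) (h' : A.lt T y x) : False :=
  A.irrefl T x (A.trans T x y x h h')

theorem lt_ne {T : ZMod (2 * N)} {x y : V} (h : A.lt T x y) : x ≠ y := by
  rintro rfl
  exact A.irrefl T x h

theorem pos_lt_of_lt {T : ZMod (2 * N)} {x y : V} (h : A.lt T x y) : A.pos T x < A.pos T y := by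
  apply Finset.card_lt_card
  rw [Finset.ssubset_iff_of_subset]
  · refine ⟨x, ?_, ?_⟩
    · rw [Finset.mem_filter]; exact ⟨Finset.mem_univ _, h⟩
    · rw [Finset.mem_filter]; exact fun hh => A.irrefl T x hh.2
  · intro z hz
    rw [Finset.mem_filter] at hz ⊢
    exact ⟨hz.1, A.trans T z x y hz.2 h⟩

theorem lt_iff_pos {T : ZMod (2 * N)} {x y : V} : A.lt T x y ↔ A.pos T x < A.pos T y := by
  refine ⟨A.pos_lt_of_lt, fun h => ?_⟩
  rcases eq_or_ne x y with rfl | hne
  · exact absurd h (lt_irrefl _)
  · rcases A.total T x y hne with h1 | h1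
    · exact h1
    · exact absurd (A.pos_lt_of_lt h1) (by omega)

theorem pos_inj {T : ZMod (2 * N)} {x y : V} (h : A.pos T x = A.pos T y) : x = y := by
  by_contra hne
  rcases A.total T x y hne with h1 | h1
  · exact absurd (A.pos_lt_of_lt h1) (by omega)
  · exact absurd (A.pos_lt_of_lt h1) (by omega)

theorem pos_lt_card (T : ZMod (2 * N)) (x : V) : A.pos T x < Fintype.card V := by
  rw [← Finset.card_univ]
  apply Finset.card_lt_card
  rw [Finset.ssubset_iff_of_subset (Finset.subset_univ _)]
  refine ⟨x, Finset.mem_univ _, ?_⟩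
  rw [Finset.mem_filter]; exact fun hh => A.irrefl T x hh.2

theorem exists_pos (T : ZMod (2 * N)) {u : ℕ} (hu : u < Fintype.card V) : ∃ x, A.pos T x = u := by
  have hinj : Function.Injective (fun x : V => (⟨A.pos T x, A.pos_lt_card T x⟩ :
      Fin (Fintype.card V))) := by
    intro x y h
    exact A.pos_inj (congrArg Fin.val h)
  have hb := (Fintype.bijective_iff_injective_and_card _).2 ⟨hinj, by simp⟩
  obtain ⟨x, hx⟩ := hb.2 ⟨u, hu⟩
  exact ⟨x, congrArg Fin.val hx⟩

/-- `x` is in a non trivial block at time `T` -/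
def occ (T : ZMod (2 * N)) (x : V) : Prop := x ∈ A.B T ∧ 2 ≤ (A.B T).card

theorem pos_succ_of_not_occ {T : ZMod (2 * N)} {x : V} (h : ¬ A.occ T x) :
    A.pos (T + 1) x = A.pos T x := by
  unfold pos
  congr 1
  ext y
  rw [Finset.mem_filter, Finset.mem_filter]
  refine and_congr_right fun _ => ?_
  by_cases hb : y ∈ A.B T ∧ x ∈ A.B T
  · have hc : (A.B T).card < 2 := by
      by_contra hh
      exact h ⟨hb.2, by omega⟩
    have : y = x := by
      by_contra hne
      have : 1 < (A.B T).card := Finset.one_lt_card.2 ⟨y, hb.1, x, hb.2, hne⟩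
      omega
    subst this
    exact ⟨fun hh => absurd hh (A.irrefl _ _), fun hh => absurd hh (A.irrefl _ _)⟩
  · exact A.step_out T y x hb

theorem pos_eq {T : ZMod (2 * N)} (x : V) : A.pos T x = A.out T x + A.rk T x := by
  unfold pos out rk
  rw [← Finset.card_union_of_disjoint]
  · congr 1
    ext y
    simp only [Finset.mem_filter, Finset.mem_union, Finset.mem_univ, true_and]
    tauto
  · rw [Finset.disjoint_left]
    intro y hy hy'
    rw [Finset.mem_filter] at hy hy'
    exact hy.2.1 hy'.1

theorem out_eq {T : ZMod (2 * N)} {x y : V} (hx : x ∈ A.B T) (hy : y ∈ A.B T) :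
    A.out T x = A.out T y := by
  unfold out
  congr 1
  ext z
  simp only [Finset.mem_filter, Finset.mem_univ, true_and]
  refine and_congr_right fun hz => ?_
  have key : ∀ x y : V, x ∈ A.B T → y ∈ A.B T → A.lt T z x → A.lt T z y := by
    intro x y hx hy h
    have hzy : z ≠ y := by rintro rfl; exact hz hy
    rcases A.total T z y hzy with h1 | h1
    · exact h1
    · exact absurd (A.convex T y x z hy hx h1 h) hz
  exact ⟨key x y hx hy, key y x hy hx⟩

theorem rk_lt {T : ZMod (2 * N)} {x : V} (hx : x ∈ A.B T) : A.rk T x < (A.B T).card := by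
  apply Finset.card_lt_card
  rw [Finset.ssubset_iff_of_subset (Finset.filter_subset _ _)]
  refine ⟨x, hx, ?_⟩
  rw [Finset.mem_filter]; exact fun hh => A.irrefl T x hh.2

theorem rk_inj {T : ZMod (2 * N)} {x y : V} (hx : x ∈ A.B T) (hy : y ∈ A.B T)
    (h : A.rk T x = A.rk T y) : x = y := by
  apply A.pos_inj (T := T)
  rw [A.pos_eq, A.pos_eq, h, A.out_eq hx hy]

theorem exists_rk {T : ZMod (2 * N)} {j : ℕ} (hj : j < (A.B T).card) :
    ∃ x ∈ A.B T, A.rk T x = j := by
  have hinj : Function.Injective (fun x : {x // x ∈ A.B T} => (⟨A.rk T x.1, A.rk_lt x.2⟩ :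
      Fin ((A.B T).card))) := by
    intro x y h
    exact Subtype.ext (A.rk_inj x.2 y.2 (congrArg Fin.val h))
  have hb := (Fintype.bijective_iff_injective_and_card _).2 ⟨hinj, by simp⟩
  obtain ⟨x, hx⟩ := hb.2 ⟨j, hj⟩
  exact ⟨x.1, x.2, congrArg Fin.val hx⟩

/-- position after the block -/
theorem pos_succ {T : ZMod (2 * N)} {x : V} (hx : x ∈ A.B T) :
    A.pos (T + 1) x + A.rk T x + 1 = A.out T x + (A.B T).card := by
  have h1 : A.pos (T + 1) x = A.out T x + ((A.B T).filter (fun y => A.lt T x y)).card := by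
    unfold pos out
    rw [← Finset.card_union_of_disjoint]
    · congr 1
      ext y
      simp only [Finset.mem_filter, Finset.mem_union, Finset.mem_univ, true_and]
      by_cases hy : y ∈ A.B T
      · rw [A.step_in T y x hy hx]
        tauto
      · rw [A.step_out T y x (fun h => hy h.1)]
        tauto
    · rw [Finset.disjoint_left]
      intro y hy hy'
      rw [Finset.mem_filter] at hy hy'
      exact hy.2.1 hy'.1
  have h2 : A.rk T x + ((A.B T).filter (fun y => A.lt T x y)).card + 1 = (A.B T).card := by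
    have h3 : A.B T = insert x (((A.B T).filter (fun y => A.lt T y x)) ∪
        ((A.B T).filter (fun y => A.lt T x y))) := by
      ext y
      rw [Finset.mem_insert, Finset.mem_union, Finset.mem_filter, Finset.mem_filter]
      constructor
      · intro hy
        rcases eq_or_ne y x with h | h
        · exact Or.inl h
        · rcases A.total T y x h with h' | h'
          · exact Or.inr (Or.inl ⟨hy, h'⟩)
          · exact Or.inr (Or.inr ⟨hy, h'⟩)
      · rintro (rfl | h | h)
        · exact hx
        · exact h.1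
        · exact h.1
    conv_rhs => rw [h3]
    rw [Finset.card_insert_of_notMem, Finset.card_union_of_disjoint]
    · rfl
    · rw [Finset.disjoint_left]
      intro y hy hy'
      rw [Finset.mem_filter] at hy hy'
      exact A.asymm hy.2 hy'.2
    · rw [Finset.mem_union, Finset.mem_filter, Finset.mem_filter]
      rintro (h | h)
      · exact A.irrefl T x h.2
      · exact A.irrefl T x h.2
  omega

/-- lowest position of the block -/
theorem out_add_card_le {T : ZMod (2 * N)} {x : V} (hx : x ∈ A.B T) :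
    A.out T x + (A.B T).card ≤ Fintype.card V := by
  obtain ⟨y, hy, hy'⟩ := A.exists_rk (T := T) (j := (A.B T).card - 1)
    (by have := Finset.card_pos.2 ⟨x, hx⟩; omega)
  have h1 := A.pos_lt_card T y
  have h2 := A.pos_eq (T := T) y
  have h3 := A.out_eq hx hy
  have h4 := Finset.card_pos.2 ⟨x, hx⟩
  omega

/-- the block at time `T` covers the gap `g` (between positions `g - 1` and `g`) -/
def cover (g : ℕ) (T : ZMod (2 * N)) : Prop :=
  ∃ x ∈ A.B T, ∃ y ∈ A.B T, A.pos T x < g ∧ g ≤ A.pos T y

theorem occ_of_cover_right {g : ℕ} {T : ZMod (2 * N)} {x : V} (hc : A.cover g T)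
    (hx : A.pos T x + 1 = g) : A.occ T x := by
  obtain ⟨a, ha, b, hb, h1, h2⟩ := hc
  have hab : a ≠ b := by rintro rfl; omega
  refine ⟨?_, Finset.one_lt_card.2 ⟨a, ha, b, hb, hab⟩⟩
  rcases Nat.lt_or_ge (A.pos T a) (A.pos T x) with h | h
  · exact A.convex T a b x ha hb (A.lt_iff_pos.2 h) (A.lt_iff_pos.2 (by omega))
  · have : A.pos T a = A.pos T x := by omega
    rw [← A.pos_inj this]; exact ha

theorem occ_of_cover_left {g : ℕ} {T : ZMod (2 * N)} {x : V} (hc : A.cover g T)
    (hx : A.pos T x = g) : A.occ T x := by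
  obtain ⟨a, ha, b, hb, h1, h2⟩ := hc
  have hab : a ≠ b := by rintro rfl; omega
  refine ⟨?_, Finset.one_lt_card.2 ⟨a, ha, b, hb, hab⟩⟩
  rcases Nat.lt_or_ge (A.pos T x) (A.pos T b) with h | h
  · exact A.convex T a b x ha hb (A.lt_iff_pos.2 (by omega)) (A.lt_iff_pos.2 h)
  · have : A.pos T b = A.pos T x := by omega
    rw [← A.pos_inj this]; exact hb

/-- last cover of the gap `g` before time `T` -/
noncomputable def lc (g : ℕ) (T : ZMod (2 * N)) : ZMod (2 * N) :=
  if h : ∃ j : ℕ, 0 < j ∧ A.cover g (T - (j : ZMod (2 * N))) then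
    T - ((Nat.find h : ℕ) : ZMod (2 * N)) else 0

theorem lc_succ_of_cover {g : ℕ} {T : ZMod (2 * N)} (h : A.cover g T) : A.lc g (T + 1) = T := by
  have hex : ∃ j : ℕ, 0 < j ∧ A.cover g (T + 1 - (j : ZMod (2 * N))) := by
    refine ⟨1, one_pos, ?_⟩
    simpa using h
  unfold lc
  rw [dif_pos hex]
  have : Nat.find hex = 1 := by
    rw [Nat.find_eq_iff]
    refine ⟨⟨one_pos, by simpa using h⟩, fun m hm hh => ?_⟩
    omega
  rw [this]
  simp

theorem lc_succ_of_not_cover {g : ℕ} {T : ZMod (2 * N)} (h : ¬ A.cover g T) :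
    A.lc g (T + 1) = A.lc g T := by
  have hsh : ∀ j : ℕ, T + 1 - ((j + 1 : ℕ) : ZMod (2 * N)) = T - (j : ZMod (2 * N)) := by
    intro j; push_cast; ring
  unfold lc
  by_cases hex : ∃ j : ℕ, 0 < j ∧ A.cover g (T - (j : ZMod (2 * N)))
  · have hex' : ∃ j : ℕ, 0 < j ∧ A.cover g (T + 1 - (j : ZMod (2 * N))) := by
      obtain ⟨j, hj, hc⟩ := hex
      exact ⟨j + 1, Nat.succ_pos _, by rw [hsh]; exact hc⟩
    rw [dif_pos hex, dif_pos hex']
    have : Nat.find hex' = Nat.find hex + 1 := by
      rw [Nat.find_eq_iff]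
      refine ⟨⟨Nat.succ_pos _, by rw [hsh]; exact (Nat.find_spec hex).2⟩, fun m hm hh => ?_⟩
      rcases m with _ | m
      · exact absurd hh.1 (lt_irrefl _)
      · rw [hsh] at hh
        rcases m with _ | m
        · apply h
          simpa using hh.2
        · exact Nat.find_min hex (show m + 1 < Nat.find hex by omega) ⟨Nat.succ_pos _, hh.2⟩
    rw [this, hsh]
  · rw [dif_neg hex, dif_neg]
    rintro ⟨j, hj, hc⟩
    rcases j with _ | j
    · exact absurd hj (lt_irrefl _)
    · rw [hsh] at hc
      rcases j with _ | j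
      · apply h
        simpa using hc
      · exact hex ⟨j + 1, Nat.succ_pos _, hc⟩

end Cyc

end K9h61.PL
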