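import Pool.Agent.K9h61.PL.H

/-! Six pseudolines with three double and four triple points. -/

open scoped Classical

namespace K9h61.PL

open Finset LeafH

theorem quad_counts (V : Type) [Fintype V] [LinearOrder V] (A : Arr V) (hV : Fintype.card V = 6)
    (h2 : A.t2 = 3) (h3 : ((range A.N).filter fun i => (A.B i).card = 3).card = 4) :
    A.f0 = 7 ∧ A.f1 = 18 := by
  have h3' : ∑ i ∈ range A.N, (if (A.B i).card = 3 then (1 : ℤ) else 0) = 4 := by
    rw [← Nat.cast_ofNat (R := ℤ) (n := 4)]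
    rw [card_filter] at h3
    have := congrArg (Nat.cast (R := ℤ)) h3
    push_cast at this ⊢
    exact this
  have h2' : ∑ i ∈ range A.N, (if (A.B i).card = 2 then (1 : ℤ) else 0) = 3 := by
    rw [← T2_eq, h2]
    norm_num
  have e0 := F0_eq A
  have e1 := F1_eq A
  have e5 := pairs_off A univ
  rw [card_univ, hV] at e5
  simp only [inter_univ] at e5
  -- `f0 ≤ 7`
  have a1 : ∑ i ∈ range A.N, (12 * (if 2 ≤ (A.B i).card then (1 : ℤ) else 0) -
      10 * (if (A.B i).card = 2 then (1 : ℤ) else 0) -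
      6 * (if (A.B i).card = 3 then (1 : ℤ) else 0)) ≤
      ∑ i ∈ range A.N, ((A.B i).card : ℤ) * (((A.B i).card : ℤ) - 1) := by
    refine sum_le_sum fun i _ => ?_
    generalize (A.B i).card = b
    rcases Nat.lt_or_ge b 4 with h | h
    · interval_cases b <;> norm_num
    · rw [if_pos (by omega), if_neg (by omega), if_neg (by omega)]
      have : (4 : ℤ) ≤ b := by exact_mod_cast h
      nlinarith
  have a2 : ∑ i ∈ range A.N, (3 * (if 2 ≤ (A.B i).card then ((A.B i).card : ℤ) else 0) -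
      4 * (if (A.B i).card = 2 then (1 : ℤ) else 0) -
      3 * (if (A.B i).card = 3 then (1 : ℤ) else 0)) ≤
      ∑ i ∈ range A.N, ((A.B i).card : ℤ) * (((A.B i).card : ℤ) - 1) := by
    refine sum_le_sum fun i _ => ?_
    generalize (A.B i).card = b
    rcases Nat.lt_or_ge b 4 with h | h
    · interval_cases b <;> norm_num
    · rw [if_pos (by omega), if_neg (by omega), if_neg (by omega)]
      have : (4 : ℤ) ≤ b := by exact_mod_cast h
      nlinarith
  have a3 : ∑ i ∈ range A.N, ((if (A.B i).card = 2 then (1 : ℤ) else 0) +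
      (if (A.B i).card = 3 then (1 : ℤ) else 0)) ≤
      ∑ i ∈ range A.N, (if 2 ≤ (A.B i).card then (1 : ℤ) else 0) := by
    refine sum_le_sum fun i _ => ?_
    split_ifs <;> omega
  have a4 : ∑ i ∈ range A.N, (2 * (if (A.B i).card = 2 then (1 : ℤ) else 0) +
      3 * (if (A.B i).card = 3 then (1 : ℤ) else 0)) ≤
      ∑ i ∈ range A.N, (if 2 ≤ (A.B i).card then ((A.B i).card : ℤ) else 0) := by
    refine sum_le_sum fun i _ => ?_
    split_ifs <;> omega
  simp only [sum_sub_distrib, sum_add_distrib, ← mul_sum] at a1 a2 a3 a4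
  rw [e5, h2', h3', ← e0] at a1
  rw [e5, h2', h3', ← e1] at a2
  rw [h2', h3', ← e0] at a3
  rw [h2', h3', ← e1] at a4
  norm_num at a1 a2 a3 a4
  constructor <;> omega

theorem quad_counts' (V : Type) [Fintype V] [LinearOrder V] (A : Arr V)
    (h0 : A.f0 = 7) (h1 : A.f1 = 18) (h2 : A.t2 = 3) :
    ((range A.N).filter fun i => (A.B i).card = 3).card = 4 := by
  have e0 := F0_eq A
  have e1 := F1_eq A
  have e2 := T2_eq A
  have e3 : ((((range A.N).filter fun i => (A.B i).card = 3).card : ℕ) : ℤ) =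
      ∑ i ∈ range A.N, (if (A.B i).card = 3 then (1 : ℤ) else 0) := by
    rw [card_filter]
    push_cast
    rfl
  have a1 : ∑ i ∈ range A.N, (4 * (if 2 ≤ (A.B i).card then (1 : ℤ) else 0) -
      2 * (if (A.B i).card = 2 then (1 : ℤ) else 0) -
      (if 2 ≤ (A.B i).card then ((A.B i).card : ℤ) else 0)) ≤
      ∑ i ∈ range A.N, (if (A.B i).card = 3 then (1 : ℤ) else 0) := by
    refine sum_le_sum fun i _ => ?_
    split_ifs <;> omega
  have a2 : ∑ i ∈ range A.N, ((if (A.B i).card = 3 then (1 : ℤ) else 0) +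
      (if (A.B i).card = 2 then (1 : ℤ) else 0)) ≤
      ∑ i ∈ range A.N, (if 2 ≤ (A.B i).card then (1 : ℤ) else 0) := by
    refine sum_le_sum fun i _ => ?_
    split_ifs <;> omega
  simp only [sum_sub_distrib, sum_add_distrib, ← mul_sum] at a1 a2
  rw [← e0, ← e1, ← e2, ← e3, h0, h1, h2] at a1
  rw [← e0, ← e2, ← e3, h0, h2] at a2
  norm_num at a1 a2
  omega

end K9h61.PL
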