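import Mathlib

/-!
# Hirzebruch's inequality for pseudoline arrangements (MP_872606_gt): definitions and interfaces

Wiring diagrams.  `V` = the pseudolines with the order at the left end.  `B i`, `i < N`, is the set
of pseudolines through the `i`-th point (sets with at most one element are allowed here: nothing
happens at such a time; this makes the notion hereditary).
-/

open scoped Classical

namespace K9h61.PL

/-- `x` is below `y` just before time `i` -/
def below {V : Type} [LinearOrder V] (B : ℕ → Finset V) (i : ℕ) (x y : V) : Prop :=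
  (x < y ∧ ∀ j < i, ¬ (x ∈ B j ∧ y ∈ B j)) ∨ (y < x ∧ ∃ j < i, x ∈ B j ∧ y ∈ B j)

/-- a wiring diagram (with possibly trivial times) -/
structure Arr (V : Type) [Fintype V] [LinearOrder V] where
  N : ℕ
  B : ℕ → Finset V
  cross : ∀ x y : V, x ≠ y → ∃ i < N, x ∈ B i ∧ y ∈ B i
  uniq : ∀ x y : V, x ≠ y → ∀ i < N, ∀ j < N, x ∈ B i → y ∈ B i → x ∈ B j → y ∈ B j → i = j
  convex : ∀ i < N, ∀ x y z : V, x ∈ B i → y ∈ B i → below B i x z → below B i z y → z ∈ B i

variable {V : Type} [Fintype V] [LinearOrder V]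

/-- the points (times at which at least two pseudolines meet) -/
noncomputable def Arr.pts (A : Arr V) : Finset ℕ :=
  (Finset.range A.N).filter (fun i => 2 ≤ (A.B i).card)

/-- number of points -/
noncomputable def Arr.f0 (A : Arr V) : ℕ := A.pts.card

/-- number of incidences (= number of edges) -/
noncomputable def Arr.f1 (A : Arr V) : ℕ := ∑ i ∈ A.pts, (A.B i).card

/-- number of double points -/
noncomputable def Arr.t2 (A : Arr V) : ℕ := (A.pts.filter (fun i => (A.B i).card = 2)).card

/-- Melchior's inequality and the second inequality, for all wiring diagrams -/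
def S_M : Prop := ∀ (V : Type) [Fintype V] [LinearOrder V] (A : Arr V), 2 ≤ Fintype.card V →
  ((∀ i < A.N, (A.B i).card + 1 ≤ Fintype.card V) → A.f1 + 3 ≤ 3 * A.f0) ∧
  ((∀ i < A.N, (A.B i).card + 2 ≤ Fintype.card V) → 2 * A.t2 + 3 * A.f1 + 10 ≤ 10 * A.f0)

/-- LEAF H (Hirzebruch's inequality): to be proved from `S_M` -/
def S_H : Prop := ∀ (V : Type) [Fintype V] [LinearOrder V] (A : Arr V), 2 ≤ Fintype.card V →
  (∀ i < A.N, (A.B i).card + 2 ≤ Fintype.card V) → Fintype.card V + A.f1 + A.t2 ≤ 4 * A.f0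

/-! ### the cyclic form (the double cover of the projective plane) -/

/-- the cyclic (allowable) sequence: times are in `ZMod (2 * N)`, `lt T` is the order of the
pseudolines just before time `T` -/
structure Cyc (V : Type) [Fintype V] (N : ℕ) where
  B : ZMod (2 * N) → Finset V
  lt : ZMod (2 * N) → V → V → Prop
  irrefl : ∀ T x, ¬ lt T x x
  trans : ∀ T x y z, lt T x y → lt T y z → lt T x z
  total : ∀ T x y, x ≠ y → lt T x y ∨ lt T y x
  antiB : ∀ T, B (T + (N : ZMod (2 * N))) = B T
  antilt : ∀ T x y, lt (T + (N : ZMod (2 * N))) x y ↔ lt T y x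
  step_in : ∀ T x y, x ∈ B T → y ∈ B T → (lt (T + 1) x y ↔ lt T y x)
  step_out : ∀ T x y, ¬ (x ∈ B T ∧ y ∈ B T) → (lt (T + 1) x y ↔ lt T x y)
  convex : ∀ T x y z, x ∈ B T → y ∈ B T → lt T x z → lt T z y → z ∈ B T
  cross : ∀ x y, x ≠ y → ∃ c, x ∈ B c ∧ y ∈ B c
  uniq : ∀ x y, x ≠ y → ∀ c d, x ∈ B c → y ∈ B c → x ∈ B d → y ∈ B d →
    d = c ∨ d = c + (N : ZMod (2 * N))

/-- LEAF C: Euler's formula and the local structure, in the cyclic form -/
def S_C : Prop := ∀ (V : Type) [Fintype V] (N : ℕ) [NeZero (2 * N)] (A : Cyc V N),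
  2 ≤ Fintype.card V →
  ((∀ T, (A.B T).card + 1 ≤ Fintype.card V) →
    (∑ T ∈ Finset.univ.filter (fun T => 2 ≤ (A.B T).card), (A.B T).card) + 6 ≤
      3 * (Finset.univ.filter (fun T => 2 ≤ (A.B T).card)).card) ∧
  ((∀ T, (A.B T).card + 2 ≤ Fintype.card V) →
    2 * (Finset.univ.filter (fun T => (A.B T).card = 2)).card +
      3 * (∑ T ∈ Finset.univ.filter (fun T => 2 ≤ (A.B T).card), (A.B T).card) + 20 ≤
      10 * (Finset.univ.filter (fun T => 2 ≤ (A.B T).card)).card)

/-- LEAF B (bridge) : `S_C → S_M` -/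
def S_B : Prop := S_C → S_M

/-!
### Sketch for LEAF B
Given `A : Arr V` with `2 ≤ card V`, `A.N ≥ 1` (as there is a crossing).  Define
`B T = A.B (T.val % N)`, `lt T x y = below A.B T.val x y` if `T.val < N`, and
`lt T x y = below A.B (T.val - N) y x` if `N ≤ T.val < 2 N`.  By induction on `i ≤ N`, `below A.B i`
is a strict total order: `below (i+1)` is `below i` with the pairs in `B i` reversed, and `B i` is
convex for `below i`.  `below N x y ↔ below 0 y x` (`x ≠ y`) as every pair crosses exactly once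
before `N`.  The sums over `ZMod (2 N)` are twice the sums over `range N`.

### Sketch for LEAF H (from `S_M`), `k = card V`
Points of multiplicity `r = (B i).card ≥ 2`; `t_r` their number; `m = f0 - t2` the number of points
with `r ≥ 3`; put `D = 3 f0 - f1 - 3 ≥ 0` (Melchior, for every non-pencil, `k ≥ 2`).
CLAIM: `m + D ≥ k - 3` for every arrangement with all `r ≤ k - 2`.  Induction on `k`.
* For a line `l` let `a_r(l)` be the number of points of multiplicity `r` on `l`.  Restriction to
  `V' = {x // x ≠ l}` (blocks `B i \ {l}`): `Φ := m + D` (`= 4 f0 - f1 - t2 - 3`) changes by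
  `Φ(V) - Φ(V') = a_2(l) - a_{≥4}(l)`.
* Suppose `Φ(V) ≤ k - 4`.  For each `l`: `V'` is not a pencil.  If `V'` is a near pencil (some block
  of `V'` has `k - 2` elements; then this is a block `B i` of `V` with `k-2` elements not containing
  `l`, `l ∉ B i`), then see (s = 2) below.  Otherwise by induction `Φ(V') ≥ k - 4`, so
  (1) `a_2(l) ≤ a_{≥4}(l)` for every line `l`.
* (s = 2) If some point `P` has multiplicity `r = k - 2`: direct: the two other lines `l1, l2` meet in
  a point `Q`; every line through `P` other than (at most one) `P Q` has exactly the points `P` and two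
  double points; so either `t2 = 2(k-3)` and `Q` is a triple point, or `t2 = 2(k-2)+1`; `Φ(V) ≥ k - 3`.
  (Or: `V \ {l2}` is a near pencil, `Φ = 1` for it if `k - 2 ≥ 3`, and `a_2(l2) ≥ k - 3`,
  `a_{≥4}(l2) = 0`.)
* Now (1) for all `l`.  Some point has multiplicity `≥ 4`: otherwise `t2 = 0`, but
  `t2 = 3 + D + ∑_{r≥4} (r-3) t_r ≥ 3`.  Let `P` be such a point, `r` its multiplicity, `s = k - r ≥ 3`.
  (s = 3) the three lines not through `P` meet in at most 3 points, so some line `l ∋ P` (there are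
  `r ≥ 4`) has 3 double points and no other point than `P`: contradicts (1).
  (s ≥ 4) Count: `r s = ∑_{Q ≠ P on a line through P} (r_Q - 1)`; the double points contribute
  `∑_{l ∋ P} a_2(l) ≤ ∑_{l ∋ P} a_{≥4}(l) = r + #{Q ≠ P on a line of P, r_Q ≥ 4}`.  Hence
  `r s ≤ r + ∑_{Q ≠ P, r_Q ≥ 3} r_Q ≤ I := ∑_{r_Q ≥ 3} r_Q = f1 - 2 t2`.
  And `r s ≥ 4 k - 16` as `(r-4)(s-4) ≥ 0`.  The second inequality of `S_M` reads
  `t2 ≤ m - 1 + 3 D`, and `I = t2 + 3 m - 3 - D ≤ 4 m - 4 + 2 D`.  So `4 k - 16 ≤ 4 m - 4 + 2 D`,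
  `m + D ≥ k - 3`, contradiction.
-/

end K9h61.PL
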