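import Pool.Agent.K9h61.PL.Stm

/-! Equality: interface. -/

open scoped Classical

namespace K9h61.PL

/-- `3 c₂ - c₁²` of the exponent `n`, divided by `n ^ (k - 3)` -/
noncomputable def PP (V : Type) [Fintype V] [LinearOrder V] (A : Arr V) (n : ℤ) : ℤ :=
  n ^ 2 * ((A.f0 : ℤ) - Fintype.card V) + 2 * n * ((Fintype.card V : ℤ) - A.f1 + A.f0) +
    2 * A.f1 + A.f0 - Fintype.card V - 4 * A.t2

/-- equality for exponents at least three -/
def S_E : Prop := ∀ (V : Type) [Fintype V] [LinearOrder V] (A : Arr V), 2 ≤ Fintype.card V →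
  (∀ i < A.N, (A.B i).card + 2 ≤ Fintype.card V) → ∀ n : ℤ, 3 ≤ n →
    (n - 5) ^ 2 ≤ PP V A n ∧
      (PP V A n = 0 → n = 5 ∧ Fintype.card V = 6 ∧ A.f0 = 7 ∧ A.f1 = 18 ∧ A.t2 = 3)

end K9h61.PL
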