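import Pool.Agent.K9h61.PL.Pos

/-! Next and previous occurrences. -/

open scoped Classical

namespace K9h61.PL

namespace Cyc

variable {V : Type} [Fintype V] {N : ℕ} (A : Cyc V N)

theorem cast2N : ((2 * N : ℕ) : ZMod (2 * N)) = 0 := ZMod.natCast_self _

theorem NN : (N : ZMod (2 * N)) + (N : ZMod (2 * N)) = 0 := by
  rw [← cast2N (N := N)]; push_cast; ring

theorem negN : -(N : ZMod (2 * N)) = (N : ZMod (2 * N)) := by
  rw [neg_eq_iff_add_eq_zero]; exact NN

theorem subN (T : ZMod (2 * N)) : T - (N : ZMod (2 * N)) = T + (N : ZMod (2 * N)) := by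
  rw [sub_eq_add_neg, negN]

theorem occ_N {T : ZMod (2 * N)} {x : V} : A.occ (T + (N : ZMod (2 * N))) x ↔ A.occ T x := by
  unfold occ; rw [A.antiB]

theorem exists_fwd [NeZero (2 * N)] {T : ZMod (2 * N)} {x : V} (h : A.occ T x) :
    ∃ d : ℕ, 0 < d ∧ A.occ (T + (d : ZMod (2 * N))) x :=
  ⟨N, by have := NeZero.pos (2 * N); omega, A.occ_N.2 h⟩

theorem exists_bwd [NeZero (2 * N)] {T : ZMod (2 * N)} {x : V} (h : A.occ T x) :
    ∃ d : ℕ, 0 < d ∧ A.occ (T - (d : ZMod (2 * N))) x :=
  ⟨N, by have := NeZero.pos (2 * N); omega, by rw [subN]; exact A.occ_N.2 h⟩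

/-- time to the next occurrence -/
noncomputable def fw (T : ZMod (2 * N)) (x : V) : ℕ :=
  if h : ∃ d : ℕ, 0 < d ∧ A.occ (T + (d : ZMod (2 * N))) x then Nat.find h else 0

/-- time to the previous occurrence -/
noncomputable def bw (T : ZMod (2 * N)) (x : V) : ℕ :=
  if h : ∃ d : ℕ, 0 < d ∧ A.occ (T - (d : ZMod (2 * N))) x then Nat.find h else 0

section
variable [NeZero (2 * N)]

theorem fw_spec {T : ZMod (2 * N)} {x : V} (h : A.occ T x) :
    0 < A.fw T x ∧ A.occ (T + (A.fw T x : ZMod (2 * N))) x ∧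
      (∀ d, 0 < d → d < A.fw T x → ¬ A.occ (T + (d : ZMod (2 * N))) x) ∧ A.fw T x ≤ N := by
  have hex := A.exists_fwd h
  have hN : 0 < N := by have := NeZero.pos (2 * N); omega
  unfold fw
  rw [dif_pos hex]
  refine ⟨(Nat.find_spec hex).1, (Nat.find_spec hex).2, fun d hd hlt hh => ?_, ?_⟩
  · exact Nat.find_min hex hlt ⟨hd, hh⟩
  · exact Nat.find_le ⟨hN, A.occ_N.2 h⟩

theorem bw_spec {T : ZMod (2 * N)} {x : V} (h : A.occ T x) :
    0 < A.bw T x ∧ A.occ (T - (A.bw T x : ZMod (2 * N))) x ∧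
      (∀ d, 0 < d → d < A.bw T x → ¬ A.occ (T - (d : ZMod (2 * N))) x) ∧ A.bw T x ≤ N := by
  have hex := A.exists_bwd h
  have hN : 0 < N := by have := NeZero.pos (2 * N); omega
  unfold bw
  rw [dif_pos hex]
  refine ⟨(Nat.find_spec hex).1, (Nat.find_spec hex).2, fun d hd hlt hh => ?_, ?_⟩
  · exact Nat.find_min hex hlt ⟨hd, hh⟩
  · exact Nat.find_le ⟨hN, by rw [subN]; exact A.occ_N.2 h⟩

theorem fw_unique {T : ZMod (2 * N)} {x : V} (h : A.occ T x) {d : ℕ} (hd : 0 < d)
    (h1 : A.occ (T + (d : ZMod (2 * N))) x)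
    (h2 : ∀ j, 0 < j → j < d → ¬ A.occ (T + (j : ZMod (2 * N))) x) : A.fw T x = d := by
  obtain ⟨a, b, c, _⟩ := A.fw_spec h
  rcases Nat.lt_trichotomy (A.fw T x) d with h3 | h3 | h3
  · exact absurd b (h2 _ a h3)
  · exact h3
  · exact absurd h1 (c d hd h3)

theorem bw_unique {T : ZMod (2 * N)} {x : V} (h : A.occ T x) {d : ℕ} (hd : 0 < d)
    (h1 : A.occ (T - (d : ZMod (2 * N))) x)
    (h2 : ∀ j, 0 < j → j < d → ¬ A.occ (T - (j : ZMod (2 * N))) x) : A.bw T x = d := by
  obtain ⟨a, b, c, _⟩ := A.bw_spec h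
  rcases Nat.lt_trichotomy (A.bw T x) d with h3 | h3 | h3
  · exact absurd b (h2 _ a h3)
  · exact h3
  · exact absurd h1 (c d hd h3)

theorem bw_fw {T : ZMod (2 * N)} {x : V} (h : A.occ T x) :
    A.bw (T + (A.fw T x : ZMod (2 * N))) x = A.fw T x := by
  obtain ⟨a, b, c, _⟩ := A.fw_spec h
  apply A.bw_unique b a
  · simpa using h
  · intro j hj hlt
    have := c (A.fw T x - j) (by omega) (by omega)
    rw [Nat.cast_sub (by omega)] at this
    rw [show T + (A.fw T x : ZMod (2 * N)) - (j : ZMod (2 * N)) =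
      T + ((A.fw T x : ZMod (2 * N)) - (j : ZMod (2 * N))) by ring]
    exact this

theorem fw_bw {T : ZMod (2 * N)} {x : V} (h : A.occ T x) :
    A.fw (T - (A.bw T x : ZMod (2 * N))) x = A.bw T x := by
  obtain ⟨a, b, c, _⟩ := A.bw_spec h
  apply A.fw_unique b a
  · simpa using h
  · intro j hj hlt
    have := c (A.bw T x - j) (by omega) (by omega)
    rw [Nat.cast_sub (by omega)] at this
    rw [show T - (A.bw T x : ZMod (2 * N)) + (j : ZMod (2 * N)) =
      T - ((A.bw T x : ZMod (2 * N)) - (j : ZMod (2 * N))) by ring]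
    exact this

/-- the position does not change between two occurrences -/
theorem pos_between {T : ZMod (2 * N)} {x : V} {d : ℕ}
    (h : ∀ j, 0 < j → j < d → ¬ A.occ (T + (j : ZMod (2 * N))) x) :
    ∀ j, 0 < j → j ≤ d → A.pos (T + (j : ZMod (2 * N))) x = A.pos (T + 1) x := by
  intro j
  induction j with
  | zero => intro h0; exact absurd h0 (lt_irrefl _)
  | succ j ih =>
    intro _ hj
    rcases Nat.eq_zero_or_pos j with rfl | hpos
    · simp
    · rw [← ih hpos (by omega)]
      rw [Nat.cast_succ, ← add_assoc]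
      exact A.pos_succ_of_not_occ (h j hpos (by omega))

theorem pos_fw {T : ZMod (2 * N)} {x : V} (h : A.occ T x) :
    A.pos (T + (A.fw T x : ZMod (2 * N))) x = A.pos (T + 1) x := by
  obtain ⟨a, b, c, _⟩ := A.fw_spec h
  exact A.pos_between c _ a le_rfl

theorem pos_bw {T : ZMod (2 * N)} {x : V} (h : A.occ T x) :
    A.pos (T - (A.bw T x : ZMod (2 * N)) + 1) x = A.pos T x := by
  obtain ⟨a, b, c, _⟩ := A.bw_spec h
  have h1 := A.pos_fw b
  rw [A.fw_bw h] at h1
  rw [← h1]
  congr 1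
  ring

/-- the last cover does not change while the gap is not covered -/
theorem lc_between {g : ℕ} {T : ZMod (2 * N)} {d : ℕ}
    (h : ∀ j, 0 < j → j < d → ¬ A.cover g (T + (j : ZMod (2 * N)))) :
    ∀ j, 0 < j → j ≤ d → A.lc g (T + (j : ZMod (2 * N))) = A.lc g (T + 1) := by
  intro j
  induction j with
  | zero => intro h0; exact absurd h0 (lt_irrefl _)
  | succ j ih =>
    intro _ hj
    rcases Nat.eq_zero_or_pos j with rfl | hpos
    · simp
    · rw [← ih hpos (by omega)]
      rw [Nat.cast_succ, ← add_assoc]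
      exact A.lc_succ_of_not_cover (h j hpos (by omega))

/-- two lines meet within each window of length `N` -/
theorem cross_window {x y : V} (hxy : x ≠ y) (T : ZMod (2 * N)) :
    ∃ j : ℕ, 0 < j ∧ j ≤ N ∧ x ∈ A.B (T + (j : ZMod (2 * N))) ∧ y ∈ A.B (T + (j : ZMod (2 * N))) := by
  obtain ⟨c, hx, hy⟩ := A.cross x y hxy
  have hN : 0 < N := by have := NeZero.pos (2 * N); omega
  have hc : T + ((c - T).val : ZMod (2 * N)) = c := by
    rw [ZMod.natCast_zmod_val]; ring
  have hlt := ZMod.val_lt (c - T)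
  rcases Nat.eq_zero_or_pos (c - T).val with h0 | h0
  · refine ⟨N, hN, le_rfl, ?_⟩
    rw [h0] at hc
    rw [A.antiB]
    simp only [Nat.cast_zero, add_zero] at hc
    rw [hc]
    exact ⟨hx, hy⟩
  · rcases Nat.lt_or_ge N (c - T).val with h1 | h1
    · refine ⟨(c - T).val - N, by omega, by omega, ?_⟩
      rw [Nat.cast_sub (by omega), add_sub_assoc', hc, subN, A.antiB]
      exact ⟨hx, hy⟩
    · refine ⟨(c - T).val, h0, h1, ?_⟩
      rw [hc]
      exact ⟨hx, hy⟩

theorem occ_of_mem2 {T : ZMod (2 * N)} {x y : V} (hxy : x ≠ y) (hx : x ∈ A.B T) (hy : y ∈ A.B T) :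
    A.occ T x := ⟨hx, Finset.one_lt_card.2 ⟨x, hx, y, hy, hxy⟩⟩

/-- in an arrangement which is not a pencil every line has two points -/
theorem fw_lt (hp : ∀ T, (A.B T).card + 1 ≤ Fintype.card V) {T : ZMod (2 * N)} {x : V}
    (h : A.occ T x) : A.fw T x < N := by
  obtain ⟨a, b, c, d⟩ := A.fw_spec h
  by_contra hge
  have hN : A.fw T x = N := by omega
  have hall : ∀ y : V, y ∈ A.B (T + (N : ZMod (2 * N))) := by
    intro y
    rcases eq_or_ne x y with rfl | hxy
    · rw [A.antiB]; exact h.1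
    · obtain ⟨j, hj, hjN, h1, h2⟩ := A.cross_window hxy T
      have h3 := A.occ_of_mem2 hxy h1 h2
      have h4 : j = N := by
        by_contra hne
        exact c j hj (by omega) h3
      rw [h4] at h2; exact h2
  have h5 := hp (T + (N : ZMod (2 * N)))
  have h6 : A.B (T + (N : ZMod (2 * N))) = Finset.univ := Finset.eq_univ_of_forall hall
  rw [h6, Finset.card_univ] at h5
  omega

theorem bw_lt (hp : ∀ T, (A.B T).card + 1 ≤ Fintype.card V) {T : ZMod (2 * N)} {x : V}
    (h : A.occ T x) : A.bw T x < N := by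
  have h1 := A.fw_lt hp (A.bw_spec h).2.1
  rwa [A.fw_bw h] at h1

/-- in an arrangement which is not a near pencil a line with a double point has two other points -/
theorem fw_add_bw (hp : ∀ T, (A.B T).card + 2 ≤ Fintype.card V) {T : ZMod (2 * N)} {x : V}
    (h : A.occ T x) (h2 : (A.B T).card = 2) : A.fw T x + A.bw T x ≠ N := by
  intro hsum
  obtain ⟨a, b, c, d⟩ := A.fw_spec h
  obtain ⟨a', b', c', d'⟩ := A.bw_spec h
  have hall : ∀ y : V, y ∈ A.B (T + (A.fw T x : ZMod (2 * N))) ∨ y ∈ A.B T := by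
    intro y
    rcases eq_or_ne x y with rfl | hxy
    · exact Or.inr h.1
    · obtain ⟨j, hj, hjN, h1, h2⟩ := A.cross_window hxy (T - (A.bw T x : ZMod (2 * N)))
      have h3 := A.occ_of_mem2 hxy h1 h2
      rcases Nat.lt_trichotomy j (A.bw T x) with h4 | h4 | h4
      · exfalso
        apply c' (A.bw T x - j) (by omega) (by omega)
        rw [Nat.cast_sub (by omega)]
        rw [show T - ((A.bw T x : ZMod (2 * N)) - (j : ZMod (2 * N))) =
          T - (A.bw T x : ZMod (2 * N)) + (j : ZMod (2 * N)) by ring]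
        exact h3
      · right
        rw [h4] at h2
        simpa using h2
      · left
        have h5 : j - A.bw T x = A.fw T x := by
          by_contra hne
          apply c (j - A.bw T x) (by omega) (by omega)
          rw [Nat.cast_sub (by omega)]
          rw [show T + ((j : ZMod (2 * N)) - (A.bw T x : ZMod (2 * N))) =
            T - (A.bw T x : ZMod (2 * N)) + (j : ZMod (2 * N)) by ring]
          exact h3
        rw [← h5, Nat.cast_sub (by omega)]
        rw [show T + ((j : ZMod (2 * N)) - (A.bw T x : ZMod (2 * N))) =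
            T - (A.bw T x : ZMod (2 * N)) + (j : ZMod (2 * N)) by ring]
        exact h2
  have h5 : (Finset.univ : Finset V) ⊆ A.B (T + (A.fw T x : ZMod (2 * N))) ∪ (A.B T).erase x := by
    intro y _
    rw [Finset.mem_union, Finset.mem_erase]
    rcases hall y with h6 | h6
    · exact Or.inl h6
    · rcases eq_or_ne y x with rfl | hne
      · exact Or.inl b.1
      · exact Or.inr ⟨hne, h6⟩
  have h6 := (Finset.card_le_card h5).trans (Finset.card_union_le _ _)
  rw [Finset.card_univ, Finset.card_erase_of_mem h.1, h2] at h6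
  have := hp (T + (A.fw T x : ZMod (2 * N)))
  omega

end

end Cyc

end K9h61.PL
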